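import Mathlib

open MeasureTheory Set

namespace Pool.Agent.Helper212.Sq

/-- An uncountable Borel null subset of the unit interval (the Liouville numbers). -/
theorem exists_uncountable_null_unitInterval :
    ∃ N : Set unitInterval, MeasurableSet N ∧ volume N = 0 ∧ ¬ N.Countable := by
  refine ⟨{x : unitInterval | Liouville (x : ℝ)}, ?_, ?_, ?_⟩
  · exact (IsGδ.setOfPred_liouville.measurableSet).preimage measurable_subtype_coe
  · have h1 : volume {x : unitInterval | Liouville (x : ℝ)}
        = volume (Subtype.val '' {x : unitInterval | Liouville (x : ℝ)}) :=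
      (volume_image_subtype_coe measurableSet_Icc _).symm
    rw [h1]
    refine measure_mono_null ?_ volume_setOfPred_liouville
    rintro _ ⟨x, hx, rfl⟩
    exact hx
  · intro hc
    have hc' : ({x : ℝ | Liouville x} ∩ Icc 0 1).Countable := by
      refine (hc.image Subtype.val).mono ?_
      rintro x ⟨hx, hx1⟩
      exact ⟨⟨x, hx1⟩, hx, rfl⟩
    have hres : {x : ℝ | Liouville x} ∩ ({x : ℝ | Liouville x} ∩ Icc 0 1)ᶜ ∈ residual ℝ := by
      refine Filter.inter_mem eventually_residual_liouville ?_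
      refine residual_of_dense_Gδ ?_ ?_
      · exact hc'.isGδ_compl
      · exact hc'.dense_compl ℝ
    have hd := dense_of_mem_residual hres
    obtain ⟨x, hx, hx2⟩ := hd.exists_mem_open isOpen_Ioo (⟨1/2, by norm_num, by norm_num⟩ : (Ioo (0:ℝ) 1).Nonempty)
    exact hx.2 ⟨hx.1, Ioo_subset_Icc_self hx2⟩

/-- Null modification: a.e. mutually inverse measure preserving maps come from a genuine
measurable equivalence, provided there are uncountable null sets on both sides. -/
theorem null_modification {X Y : Type*} [MeasurableSpace X] [StandardBorelSpace X]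
    [MeasurableSpace Y] [StandardBorelSpace Y] (μ : Measure X) (ν : Measure Y)
    (g : X → Y) (h : Y → X) (hg : MeasurePreserving g μ ν) (hh : MeasurePreserving h ν μ)
    (hgh : ∀ᵐ y ∂ν, g (h y) = y) (hhg : ∀ᵐ x ∂μ, h (g x) = x)
    (M : Set X) (hM : MeasurableSet M) (hM0 : μ M = 0) (hMc : ¬ M.Countable)
    (N : Set Y) (hN : MeasurableSet N) (hN0 : ν N = 0) (hNc : ¬ N.Countable) :
    ∃ e : X ≃ᵐ Y, (∀ᵐ x ∂μ, e x = g x) ∧ (∀ᵐ y ∂ν, e.symm y = h y) := by
  classical
  set X1 : Set X := {x | h (g x) = x} \ (g ⁻¹' N ∪ M) with hX1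
  set Y1 : Set Y := {y | g (h y) = y} \ (N ∪ h ⁻¹' M) with hY1
  have mX1 : MeasurableSet X1 :=
    (measurableSet_eq_fun (hh.measurable.comp hg.measurable) measurable_id).diff
      ((hg.measurable hN).union hM)
  have mY1 : MeasurableSet Y1 :=
    (measurableSet_eq_fun (hg.measurable.comp hh.measurable) measurable_id).diff
      (hN.union (hh.measurable hM))
  have hmap : ∀ x ∈ X1, g x ∈ Y1 := by
    rintro x ⟨hx1, hx2⟩
    simp only [mem_union, mem_preimage, not_or, mem_ofPred_eq] at hx1 hx2
    refine ⟨?_, ?_⟩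
    · show g (h (g x)) = g x
      rw [hx1]
    · simp only [mem_union, mem_preimage, not_or]
      exact ⟨hx2.1, by rw [hx1]; exact hx2.2⟩
  have hmap' : ∀ y ∈ Y1, h y ∈ X1 := by
    rintro y ⟨hy1, hy2⟩
    simp only [mem_union, mem_preimage, not_or, mem_ofPred_eq] at hy1 hy2
    refine ⟨?_, ?_⟩
    · show h (g (h y)) = h y
      rw [hy1]
    · simp only [mem_union, mem_preimage, not_or]
      exact ⟨by rw [hy1]; exact hy2.1, hy2.2⟩
  let e1 : X1 ≃ᵐ Y1 :=
    { toFun := fun x => ⟨g x, hmap x x.2⟩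
      invFun := fun y => ⟨h y, hmap' y y.2⟩
      left_inv := fun x => Subtype.ext x.2.1
      right_inv := fun y => Subtype.ext y.2.1
      measurable_toFun := (hg.measurable.comp measurable_subtype_coe).subtype_mk
      measurable_invFun := (hh.measurable.comp measurable_subtype_coe).subtype_mk }
  have sX : StandardBorelSpace (X1ᶜ : Set X) := mX1.compl.standardBorel
  have sY : StandardBorelSpace (Y1ᶜ : Set Y) := mY1.compl.standardBorel
  have cX : ¬ Countable (X1ᶜ : Set X) := by
    intro hc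
    refine hMc ((Set.countable_coe_iff.1 hc).mono ?_)
    intro x hx hx1
    exact hx1.2 (Or.inr hx)
  have cY : ¬ Countable (Y1ᶜ : Set Y) := by
    intro hc
    refine hNc ((Set.countable_coe_iff.1 hc).mono ?_)
    intro x hx hx1
    exact hx1.2 (Or.inl hx)
  let e2 : (X1ᶜ : Set X) ≃ᵐ (Y1ᶜ : Set Y) := PolishSpace.measurableEquivOfNotCountable cX cY
  let e : X ≃ᵐ Y := (MeasurableEquiv.sumCompl mX1).symm.trans
    ((MeasurableEquiv.sumCongr e1 e2).trans (MeasurableEquiv.sumCompl mY1))
  have he : ∀ x ∈ X1, e x = g x := by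
    intro x hx
    have : (MeasurableEquiv.sumCompl mX1).symm x = Sum.inl ⟨x, hx⟩ := by
      rw [MeasurableEquiv.symm_apply_eq]
      rfl
    simp only [e, MeasurableEquiv.trans_apply, this]
    rfl
  have he' : ∀ y ∈ Y1, e.symm y = h y := by
    intro y hy
    rw [MeasurableEquiv.symm_apply_eq, he _ (hmap' y hy)]
    exact hy.1.symm
  refine ⟨e, ?_, ?_⟩
  · have : ∀ᵐ x ∂μ, x ∈ X1 := by
      have h1 : ∀ᵐ x ∂μ, x ∉ g ⁻¹' N ∪ M := by
        rw [← measure_eq_zero_iff_ae_notMem, measure_union_null_iff]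
        exact ⟨by rw [hg.measure_preimage hN.nullMeasurableSet]; exact hN0, hM0⟩
      filter_upwards [hhg, h1] with x hx hx'
      exact ⟨hx, hx'⟩
    filter_upwards [this] with x hx using he x hx
  · have : ∀ᵐ y ∂ν, y ∈ Y1 := by
      have h1 : ∀ᵐ y ∂ν, y ∉ N ∪ h ⁻¹' M := by
        rw [← measure_eq_zero_iff_ae_notMem, measure_union_null_iff]
        exact ⟨hN0, by rw [hh.measure_preimage hM.nullMeasurableSet]; exact hM0⟩
      filter_upwards [hgh, h1] with y hy hy'
      exact ⟨hy, hy'⟩
    filter_upwards [this] with y hy using he' y hy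

end Pool.Agent.Helper212.Sq
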