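import Mathlib
import Pool.Agent.Helper212.NullMod

open MeasureTheory Set Filter ProbabilityTheory
open scoped Topology

namespace Pool.Agent.Helper212.Sq

section RealCase

variable (ν : Measure ℝ) [IsProbabilityMeasure ν]

noncomputable def quant (u : unitInterval) : ℝ :=
  open Classical in
  if 0 < (u : ℝ) ∧ (u : ℝ) < 1 then sInf {x : ℝ | (u : ℝ) ≤ cdf ν x} else 0

theorem quant_le_iff {u : unitInterval} (h0 : 0 < (u : ℝ)) (h1 : (u : ℝ) < 1) (x : ℝ) :
    quant ν u ≤ x ↔ (u : ℝ) ≤ cdf ν x := by
  have hne : {x : ℝ | (u : ℝ) ≤ cdf ν x}.Nonempty := by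
    obtain ⟨x, hx⟩ := ((tendsto_cdf_atTop ν).eventually (lt_mem_nhds h1)).exists
    exact ⟨x, le_of_lt hx⟩
  have hbdd : BddBelow {x : ℝ | (u : ℝ) ≤ cdf ν x} := by
    obtain ⟨x, hx⟩ := ((tendsto_cdf_atBot ν).eventually (gt_mem_nhds h0)).exists
    refine ⟨x, fun y hy => ?_⟩
    by_contra hlt
    push Not at hlt
    exact absurd (lt_of_le_of_lt (le_trans hy (monotone_cdf ν hlt.le)) hx) (lt_irrefl _)
  have hq : quant ν u = sInf {x : ℝ | (u : ℝ) ≤ cdf ν x} := by
    simp only [quant, h0, h1, and_self, if_true]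
  rw [hq]
  constructor
  · intro h
    have hmem : (u : ℝ) ≤ cdf ν (sInf {x : ℝ | (u : ℝ) ≤ cdf ν x}) := by
      have hr := (cdf ν).right_continuous (sInf {x : ℝ | (u : ℝ) ≤ cdf ν x})
      have hr' : Tendsto (cdf ν) (𝓝[>] (sInf {x : ℝ | (u : ℝ) ≤ cdf ν x}))
          (𝓝 (cdf ν (sInf {x : ℝ | (u : ℝ) ≤ cdf ν x}))) :=
        hr.mono_left (nhdsWithin_mono _ Ioi_subset_Ici_self)
      refine ge_of_tendsto hr' ?_
      filter_upwards [self_mem_nhdsWithin] with y hy
      obtain ⟨z, hz, hzy⟩ := exists_lt_of_csInf_lt hne hy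
      exact le_trans hz (monotone_cdf ν hzy.le)
    exact hmem.trans (monotone_cdf ν h)
  · intro h
    exact csInf_le hbdd h

theorem measurable_quant : Measurable (quant ν) := by
  classical
  refine measurable_of_Iic fun x => ?_
  have : quant ν ⁻¹' (Iic x) =
      ({u : unitInterval | 0 < (u : ℝ) ∧ (u : ℝ) < 1} ∩ {u : unitInterval | (u : ℝ) ≤ cdf ν x}) ∪
      ({u : unitInterval | 0 < (u : ℝ) ∧ (u : ℝ) < 1}ᶜ ∩ {u : unitInterval | (0:ℝ) ≤ x}) := by
    ext u
    simp only [mem_preimage, mem_Iic, mem_union, mem_inter_iff, mem_ofPred_eq, mem_compl_iff]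
    by_cases h : 0 < (u : ℝ) ∧ (u : ℝ) < 1
    · rw [quant_le_iff ν h.1 h.2]; tauto
    · have : quant ν u = 0 := by simp only [quant, h, if_false]
      rw [this]; tauto
  rw [this]
  have m1 : MeasurableSet {u : unitInterval | 0 < (u : ℝ) ∧ (u : ℝ) < 1} :=
    (measurableSet_lt measurable_const measurable_subtype_coe).inter
      (measurableSet_lt measurable_subtype_coe measurable_const)
  exact (m1.inter (measurableSet_le measurable_subtype_coe measurable_const)).union
    (m1.compl.inter (MeasurableSet.const _))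

theorem ae_Ioo : ∀ᵐ u : unitInterval, 0 < (u : ℝ) ∧ (u : ℝ) < 1 := by
  have h0 : ∀ᵐ u : unitInterval, u ≠ 0 := by
    rw [ae_iff]; simp
  have h1 : ∀ᵐ u : unitInterval, u ≠ 1 := by
    rw [ae_iff]; simp
  filter_upwards [h0, h1] with u hu0 hu1
  exact ⟨unitInterval.pos_iff_ne_zero.2 hu0, unitInterval.lt_one_iff_ne_one.2 hu1⟩

theorem map_quant : Measure.map (quant ν) volume = ν := by
  have : IsProbabilityMeasure (Measure.map (quant ν) volume) :=
    Measure.isProbabilityMeasure_map (measurable_quant ν).aemeasurable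
  refine Measure.ext_of_Iic _ _ fun x => ?_
  rw [Measure.map_apply (measurable_quant ν) measurableSet_Iic, ← ofReal_cdf]
  have : quant ν ⁻¹' (Iic x) =ᵐ[volume] Iic (⟨cdf ν x, cdf_nonneg ν x, cdf_le_one ν x⟩ : unitInterval) := by
    filter_upwards [ae_Ioo] with u hu
    refine propext ?_
    show quant ν u ≤ x ↔ u ≤ _
    rw [quant_le_iff ν hu.1 hu.2]
    rfl
  rw [measure_congr this, unitInterval.volume_Iic]

theorem cdf_quant [NullSingletonClass ν] {u : unitInterval} (h0 : 0 < (u : ℝ)) (h1 : (u : ℝ) < 1) :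
    cdf ν (quant ν u) = u := by
  refine le_antisymm ?_ ((quant_le_iff ν h0 h1 _).1 le_rfl)
  have h2 : (cdf ν).measure {quant ν u} = 0 := by
    rw [measure_cdf]; exact measure_singleton _
  rw [StieltjesFunction.measure_singleton, ENNReal.ofReal_eq_zero] at h2
  have h3 : Function.leftLim (cdf ν) (quant ν u) ≤ u := by
    refine le_of_tendsto ((monotone_cdf ν).tendsto_leftLim (quant ν u)) ?_
    filter_upwards [self_mem_nhdsWithin] with y hy
    by_contra hlt
    push Not at hlt
    exact absurd ((quant_le_iff ν h0 h1 y).2 hlt.le) (not_le.2 hy)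
  linarith

theorem exists_mp_equiv_real [NullSingletonClass ν] :
    ∃ e : ℝ ≃ᵐ unitInterval, MeasurePreserving e ν volume := by
  obtain ⟨N, hN, hN0, hNc⟩ := exists_uncountable_null_unitInterval
  set F : ℝ → unitInterval := fun x => ⟨cdf ν x, cdf_nonneg ν x, cdf_le_one ν x⟩ with hF
  have mF : Measurable F := ((monotone_cdf ν).measurable).subtype_mk
  have hG : MeasurePreserving (quant ν) volume ν := ⟨measurable_quant ν, map_quant ν⟩
  have hFG : ∀ᵐ u : unitInterval, F (quant ν u) = u := by
    filter_upwards [ae_Ioo] with u hu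
    exact Subtype.ext (cdf_quant ν hu.1 hu.2)
  have hFm : MeasurePreserving F ν volume := by
    refine ⟨mF, ?_⟩
    conv_lhs => rw [← map_quant ν]
    rw [Measure.map_map mF (measurable_quant ν)]
    have : F ∘ quant ν =ᵐ[volume] id := hFG
    rw [Measure.map_congr this, Measure.map_id]
  have hGF : ∀ᵐ x ∂ν, quant ν (F x) = x := by
    have hm : MeasurableSet {x | quant ν (F x) = x} :=
      measurableSet_eq_fun ((measurable_quant ν).comp mF) measurable_id
    have : ∀ᵐ x ∂(Measure.map (quant ν) volume), quant ν (F x) = x := by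
      rw [ae_map_iff (measurable_quant ν).aemeasurable hm]
      filter_upwards [hFG] with u hu
      rw [hu]
    rwa [map_quant] at this
  have hMc : ¬ (F ⁻¹' N).Countable := by
    intro hc
    refine hNc ?_
    have : (N ∩ {u : unitInterval | 0 < (u : ℝ) ∧ (u : ℝ) < 1}).Countable := by
      refine (hc.image F).mono ?_
      rintro u ⟨hu, hu1⟩
      refine ⟨quant ν u, ?_, Subtype.ext (cdf_quant ν hu1.1 hu1.2)⟩
      show F (quant ν u) ∈ N
      have : F (quant ν u) = u := Subtype.ext (cdf_quant ν hu1.1 hu1.2)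
      rw [this]; exact hu
    refine (this.union (Set.Finite.countable (Set.toFinite {(0 : unitInterval), 1}))).mono ?_
    intro u hu
    by_cases h0 : u = 0
    · exact Or.inr (by simp [h0])
    by_cases h1 : u = 1
    · exact Or.inr (by simp [h1])
    exact Or.inl ⟨hu, unitInterval.pos_iff_ne_zero.2 h0, unitInterval.lt_one_iff_ne_one.2 h1⟩
  obtain ⟨e, he, -⟩ := null_modification ν volume F (quant ν) hFm hG hFG hGF
    (F ⁻¹' N) (mF hN) (by rw [hFm.measure_preimage hN.nullMeasurableSet]; exact hN0) hMc N hN hN0 hNc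
  exact ⟨e, hFm.congr e.measurable (by filter_upwards [he] with x hx using hx.symm)⟩

end RealCase

/-- Isomorphism theorem: a standard Borel probability space with null singletons is isomorphic
to the unit interval with Lebesgue measure. -/
theorem exists_mp_equiv {X : Type*} [MeasurableSpace X] [StandardBorelSpace X] (μ : Measure X)
    [IsProbabilityMeasure μ] [NullSingletonClass μ] :
    ∃ e : X ≃ᵐ unitInterval, MeasurePreserving e μ volume := by
  have hX : ¬ Countable X := by
    intro hc
    have h1 : μ univ = 0 := (Set.countable_univ (α := X)).measure_zero μ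
    rw [measure_univ] at h1
    exact one_ne_zero h1
  have hR : ¬ Countable ℝ := by
    rw [not_countable_iff]; infer_instance
  let i : X ≃ᵐ ℝ := PolishSpace.measurableEquivOfNotCountable hX hR
  have : IsProbabilityMeasure (Measure.map i μ) := Measure.isProbabilityMeasure_map i.measurable.aemeasurable
  have : NullSingletonClass (Measure.map i μ) := by
    refine ⟨fun x => ?_⟩
    rw [i.map_apply]
    have : i ⁻¹' {x} = {i.symm x} := by
      ext y
      simp only [mem_preimage, mem_singleton_iff]
      exact ⟨fun h => by rw [← h, MeasurableEquiv.symm_apply_apply],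
        fun h => by rw [h, MeasurableEquiv.apply_symm_apply]⟩
    rw [this]
    exact measure_singleton _
  obtain ⟨e, he⟩ := exists_mp_equiv_real (Measure.map i μ)
  exact ⟨i.trans e, he.comp ⟨i.measurable, rfl⟩⟩

end Pool.Agent.Helper212.Sq
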