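import Mathlib
import Pool.Agent.Helper212.Iso

open MeasureTheory Set Filter
open scoped Topology

namespace Pool.Agent.Helper212.Sq

/-- closed rational interval in the unit interval -/
def qI (q : ℚ × ℚ) : Set unitInterval := {x : unitInterval | ((q.1 : ℚ) : ℝ) ≤ (x : ℝ) ∧ (x : ℝ) ≤ ((q.2 : ℚ) : ℝ)}

/-- closed rational interval in the reals -/
def qR (q : ℚ × ℚ) : Set ℝ := {x : ℝ | ((q.1 : ℚ) : ℝ) ≤ x ∧ x ≤ ((q.2 : ℚ) : ℝ)}

theorem qR_eq (q : ℚ × ℚ) : qR q = Icc (q.1 : ℝ) (q.2 : ℝ) := rfl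

theorem measurableSet_qR (q : ℚ × ℚ) : MeasurableSet (qR q) := measurableSet_Icc

theorem qI_eq (q : ℚ × ℚ) : qI q = (Subtype.val : unitInterval → ℝ) ⁻¹' qR q := rfl

theorem measurableSet_qI (q : ℚ × ℚ) : MeasurableSet (qI q) := (measurableSet_qR q).preimage measurable_subtype_coe

/-- The code of a map. -/
noncomputable def code (T : unitInterval → unitInterval) : (ℚ × ℚ) × (ℚ × ℚ) → ℝ :=
  fun p => (volume (T ⁻¹' qI p.1 ∩ qI p.2)).toReal

/-- Rational boxes in the plane. -/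
def boxes : Set (Set (ℝ × ℝ)) := {s | ∃ p : (ℚ × ℚ) × (ℚ × ℚ), s = qR p.1 ×ˢ qR p.2}

theorem qR_inter (a b : ℚ × ℚ) : qR a ∩ qR b = qR (max a.1 b.1, min a.2 b.2) := by
  ext x
  simp only [qR, mem_inter_iff, mem_ofPred_eq, Rat.cast_max, Rat.cast_min, max_le_iff, le_min_iff]
  tauto

theorem isPiSystem_boxes : IsPiSystem boxes := by
  rintro _ ⟨p, rfl⟩ _ ⟨q, rfl⟩ -
  refine ⟨((max p.1.1 q.1.1, min p.1.2 q.1.2), (max p.2.1 q.2.1, min p.2.2 q.2.2)), ?_⟩
  rw [Set.prod_inter_prod, qR_inter, qR_inter]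

def qRs : Set (Set ℝ) := {s | ∃ p : ℚ × ℚ, s = qR p}

theorem isPiSystem_qRs : IsPiSystem qRs := by
  rintro _ ⟨p, rfl⟩ _ ⟨q, rfl⟩ -
  exact ⟨_, qR_inter p q⟩

theorem borel_eq_qRs : (inferInstance : MeasurableSpace ℝ) = MeasurableSpace.generateFrom qRs := by
  refine le_antisymm ?_ ?_
  · rw [show (inferInstance : MeasurableSpace ℝ) = borel ℝ from BorelSpace.measurable_eq,
      borel_eq_generateFrom_Iio]
    refine MeasurableSpace.generateFrom_le ?_
    rintro _ ⟨a, rfl⟩
    have : Iio a = ⋃ (p : {p : ℚ × ℚ // (p.2 : ℝ) < a}), qR p.1 := by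
      ext x
      simp only [mem_Iio, mem_iUnion]
      constructor
      · intro hx
        obtain ⟨q, hq1, hq2⟩ := exists_rat_btwn hx
        obtain ⟨r, hr⟩ := exists_rat_lt x
        exact ⟨⟨(r, q), hq2⟩, hr.le, hq1.le⟩
      · rintro ⟨⟨p, hp⟩, hx⟩
        exact lt_of_le_of_lt hx.2 hp
    rw [this]
    exact MeasurableSet.iUnion fun p => MeasurableSpace.measurableSet_generateFrom ⟨p.1, rfl⟩
  · refine MeasurableSpace.generateFrom_le ?_
    rintro _ ⟨p, rfl⟩
    exact measurableSet_qR p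

theorem iUnion_qR : (⋃ n : ℕ, qR (-(n : ℚ), (n : ℚ))) = univ := by
  rw [eq_univ_iff_forall]
  intro x
  obtain ⟨n, hn⟩ := exists_nat_gt |x|
  rw [mem_iUnion]
  refine ⟨n, ?_, ?_⟩
  · push_cast
    linarith [neg_abs_le x]
  · push_cast
    linarith [le_abs_self x]

theorem spanning_qRs : IsCountablySpanning qRs :=
  ⟨fun n => qR (-(n : ℚ), (n : ℚ)), fun n => ⟨_, rfl⟩, iUnion_qR⟩

theorem boxes_eq : boxes = Set.image2 (· ×ˢ ·) qRs qRs := by
  ext s
  simp only [boxes, mem_ofPred_eq, mem_image2, qRs]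
  constructor
  · rintro ⟨p, rfl⟩
    exact ⟨_, ⟨p.1, rfl⟩, _, ⟨p.2, rfl⟩, rfl⟩
  · rintro ⟨_, ⟨p, rfl⟩, _, ⟨q, rfl⟩, rfl⟩
    exact ⟨(p, q), rfl⟩

theorem measure_ext_boxes {m1 m2 : Measure (ℝ × ℝ)} [IsFiniteMeasure m1]
    (h : ∀ p : (ℚ × ℚ) × (ℚ × ℚ), m1 (qR p.1 ×ˢ qR p.2) = m2 (qR p.1 ×ˢ qR p.2)) : m1 = m2 := by
  refine Measure.ext_of_generateFrom_of_iUnion boxes
    (fun n : ℕ => qR (-(n : ℚ), (n : ℚ)) ×ˢ qR (-(n : ℚ), (n : ℚ))) ?_ isPiSystem_boxes ?_ ?_ ?_ ?_
  · rw [boxes_eq]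
    exact (generateFrom_eq_prod borel_eq_qRs.symm borel_eq_qRs.symm spanning_qRs spanning_qRs).symm
  · rw [eq_univ_iff_forall]
    rintro ⟨x, y⟩
    obtain ⟨n, hn⟩ := exists_nat_gt (max |x| |y|)
    rw [max_lt_iff] at hn
    rw [mem_iUnion]
    refine ⟨n, ⟨?_, ?_⟩, ?_, ?_⟩ <;> push_cast
    · linarith [neg_abs_le x]
    · linarith [le_abs_self x]
    · linarith [neg_abs_le y]
    · linarith [le_abs_self y]
  · intro n; exact ⟨((_, _), (_, _)), rfl⟩
  · intro _; exact measure_ne_top _ _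
  · rintro _ ⟨p, rfl⟩; exact h p


/-- retraction of the line onto the unit interval -/
noncomputable def pr : ℝ → unitInterval := Set.projIcc 0 1 zero_le_one

theorem measurable_pr : Measurable pr := continuous_projIcc.measurable

theorem pr_coe (x : unitInterval) : pr (x : ℝ) = x := Set.projIcc_val zero_le_one x

theorem code_ae_eq {S T : unitInterval → unitInterval} (hS : Measurable S) (hT : Measurable T)
    (h : code S = code T) : ∀ᵐ x, S x = T x := by
  have mS : Measurable fun x : unitInterval => (((S x : unitInterval) : ℝ), (x : ℝ)) :=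
    (measurable_subtype_coe.comp hS).prodMk measurable_subtype_coe
  have mT : Measurable fun x : unitInterval => (((T x : unitInterval) : ℝ), (x : ℝ)) :=
    (measurable_subtype_coe.comp hT).prodMk measurable_subtype_coe
  have key : Measure.map (fun x : unitInterval => (((S x : unitInterval) : ℝ), (x : ℝ))) volume
      = Measure.map (fun x : unitInterval => (((T x : unitInterval) : ℝ), (x : ℝ))) volume := by
    have : IsFiniteMeasure (Measure.map (fun x : unitInterval => (((S x : unitInterval) : ℝ), (x : ℝ))) volume) :=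
      Measure.isFiniteMeasure_map _ _
    refine measure_ext_boxes fun p => ?_
    rw [Measure.map_apply mS ((measurableSet_qR _).prod (measurableSet_qR _)),
      Measure.map_apply mT ((measurableSet_qR _).prod (measurableSet_qR _))]
    have := congrFun h p
    simp only [code] at this
    rw [ENNReal.toReal_eq_toReal_iff' (measure_ne_top _ _) (measure_ne_top _ _)] at this
    exact this
  have mD : MeasurableSet {q : ℝ × ℝ | q.1 = (S (pr q.2) : ℝ)} :=
    measurableSet_eq_fun measurable_fst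
      (measurable_subtype_coe.comp (hS.comp (measurable_pr.comp measurable_snd)))
  have h1 : ∀ᵐ q ∂(Measure.map (fun x : unitInterval => (((S x : unitInterval) : ℝ), (x : ℝ))) volume),
      q.1 = (S (pr q.2) : ℝ) := by
    rw [ae_map_iff mS.aemeasurable mD]
    exact Eventually.of_forall fun x => by simp only [pr_coe]
  rw [key, ae_map_iff mT.aemeasurable mD] at h1
  filter_upwards [h1] with x hx
  simp only [pr_coe] at hx
  exact Subtype.ext hx.symm

end Pool.Agent.Helper212.Sq
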