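import Mathlib
import Pool.Agent.Helper212.Code

open MeasureTheory Set Filter
open scoped Topology

namespace Pool.Agent.Helper212.Sq

noncomputable abbrev LL := Lp (ℝ × ℝ) 1 (volume : Measure unitInterval)

noncomputable instance : MeasurableSpace LL := borel LL
instance : BorelSpace LL := ⟨rfl⟩

theorem mLL (f : LL) : Measurable (f : unitInterval → ℝ × ℝ) := (Lp.stronglyMeasurable f).measurable

theorem lipschitz_int (w : ℝ × ℝ → ℝ) (K : NNReal) (hw : LipschitzWith K w) (hb : ∀ q, ‖w q‖ ≤ 1)
    (A : Set unitInterval) :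
    LipschitzWith K (fun f : LL => ∫ x in A, w (f x)) := by
  refine LipschitzWith.of_dist_le_mul fun f g => ?_
  have hint : ∀ f : LL, Integrable (fun x => w (f x)) (volume.restrict A) := by
    intro f
    refine Integrable.of_bound (C := 1) ?_ (Eventually.of_forall fun x => hb _)
    exact (hw.continuous.measurable.comp (mLL f)).aestronglyMeasurable
  rw [dist_eq_norm, ← integral_sub (hint f) (hint g), dist_eq_norm, L1.norm_eq_integral_norm]
  have hfg : Integrable (fun x => ‖(f - g : LL) x‖) volume := (L1.integrable_coeFn (f - g)).norm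
  calc ‖∫ x in A, (w (f x) - w (g x))‖ ≤ ∫ x in A, ‖w (f x) - w (g x)‖ := norm_integral_le_integral_norm _
    _ ≤ ∫ x in A, K * ‖(f - g : LL) x‖ := by
        refine integral_mono_ae ((hint f).sub (hint g)).norm (hfg.restrict.const_mul _) ?_
        filter_upwards [ae_restrict_of_ae (Lp.coeFn_sub f g)] with x hx
        rw [hx]
        simpa [dist_eq_norm] using hw.dist_le_mul (f x) (g x)
    _ ≤ ∫ x, K * ‖(f - g : LL) x‖ :=
        setIntegral_le_integral (hfg.const_mul _) (Eventually.of_forall fun x => by positivity)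
    _ = K * ∫ x, ‖(f - g : LL) x‖ := integral_const_mul _ _

theorem measurable_vol (A : Set unitInterval) (C : Set (ℝ × ℝ)) (hC : IsClosed C) :
    Measurable fun f : LL => (volume (A ∩ (f : unitInterval → ℝ × ℝ) ⁻¹' C)).toReal := by
  rcases C.eq_empty_or_nonempty with rfl | hne
  · simp
  let w : ℕ → ℝ × ℝ → ℝ := fun n q => max 0 (1 - n * Metric.infDist q C)
  have hw : ∀ n : ℕ, LipschitzWith (n : NNReal) (w n) := by
    intro n
    have h1 : LipschitzWith (n : NNReal) fun q : ℝ × ℝ => (n : ℝ) * Metric.infDist q C := by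
      refine LipschitzWith.of_dist_le_mul fun p q => ?_
      have h0 := (Metric.lipschitz_infDist_pt C).dist_le_mul p q
      simp only [NNReal.coe_one, one_mul] at h0
      rw [dist_eq_norm, ← mul_sub, norm_mul, ← dist_eq_norm]
      simp only [RCLike.norm_natCast, NNReal.coe_natCast]
      exact mul_le_mul_of_nonneg_left h0 (Nat.cast_nonneg _)
    have h2 : LipschitzWith (n : NNReal) fun q : ℝ × ℝ => 1 - (n : ℝ) * Metric.infDist q C := by
      have := (LipschitzWith.const (1 : ℝ) (α := ℝ × ℝ)).sub h1
      simpa using this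
    exact h2.const_max 0
  have hb : ∀ n q, ‖w n q‖ ≤ 1 := by
    intro n q
    rw [Real.norm_eq_abs, abs_of_nonneg (le_max_left _ _)]
    refine max_le zero_le_one ?_
    have : 0 ≤ (n : ℝ) * Metric.infDist q C := mul_nonneg (Nat.cast_nonneg _) Metric.infDist_nonneg
    linarith
  have hlim : ∀ q, Tendsto (fun n => w n q) atTop (𝓝 (C.indicator (fun _ => (1 : ℝ)) q)) := by
    intro q
    by_cases hq : q ∈ C
    · rw [indicator_of_mem hq]
      have : ∀ n, w n q = 1 := by
        intro n
        simp [w, Metric.infDist_zero_of_mem hq]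
      simp only [this]
      exact tendsto_const_nhds
    · rw [indicator_of_notMem hq]
      have hpos : 0 < Metric.infDist q C := (hC.notMem_iff_infDist_pos hne).1 hq
      obtain ⟨N, hN⟩ := exists_nat_gt (1 / Metric.infDist q C)
      refine tendsto_const_nhds.congr' ?_
      filter_upwards [eventually_ge_atTop N] with n hn
      have h1 : 1 < n * Metric.infDist q C := by
        rw [div_lt_iff₀ hpos] at hN
        refine lt_of_lt_of_le hN ?_
        exact mul_le_mul_of_nonneg_right (by exact_mod_cast hn) hpos.le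
      simp only [w]
      rw [max_eq_left]
      linarith
  have hF : ∀ f : LL, Tendsto (fun n => ∫ x in A, w n (f x)) atTop
      (𝓝 ((volume (A ∩ (f : unitInterval → ℝ × ℝ) ⁻¹' C)).toReal)) := by
    intro f
    have hval : ∫ x in A, C.indicator (fun _ => (1 : ℝ)) (f x)
        = (volume (A ∩ (f : unitInterval → ℝ × ℝ) ⁻¹' C)).toReal := by
      have : (fun x => C.indicator (fun _ => (1 : ℝ)) (f x))
          = ((f : unitInterval → ℝ × ℝ) ⁻¹' C).indicator (fun _ => (1:ℝ)) := by
        ext x; rfl
      rw [this, integral_indicator (mLL f hC.measurableSet), setIntegral_const]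
      simp only [smul_eq_mul, mul_one]
      rw [measureReal_restrict_apply (mLL f hC.measurableSet), inter_comm]
      rfl
    rw [← hval]
    refine tendsto_integral_of_dominated_convergence (fun _ => 1) ?_ ?_ ?_ ?_
    · intro n
      exact ((hw n).continuous.measurable.comp (mLL f)).aestronglyMeasurable
    · exact integrable_const _
    · intro n; exact Eventually.of_forall fun x => hb n _
    · exact Eventually.of_forall fun x => hlim _
  refine measurable_of_tendsto_metrizable (f := fun n f => ∫ x in A, w n (f x)) ?_ ?_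
  · intro n
    exact (lipschitz_int (w n) n (hw n) (hb n) A).continuous.measurable
  · rw [tendsto_pi_nhds]
    exact hF


/-- The square codes as joint codes. -/
noncomputable def joint (f : LL) : (ℚ × ℚ) × (ℚ × ℚ) → ℝ :=
  fun p => (volume (univ ∩ (f : unitInterval → ℝ × ℝ) ⁻¹' (qR p.1 ×ˢ qR p.2))).toReal

theorem isClosed_qR (q : ℚ × ℚ) : IsClosed (qR q) := isClosed_Icc

theorem measurable_joint : Measurable joint := by
  rw [measurable_pi_iff]
  intro p
  exact measurable_vol univ _ ((isClosed_qR _).prod (isClosed_qR _))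

/-- pairs (g, h) of mutually inverse measure preserving maps, as a subset of L1 -/
def PP : Set LL :=
  {f | ∀ p : (ℚ × ℚ) × (ℚ × ℚ),
    (volume (qI p.2 ∩ (f : unitInterval → ℝ × ℝ) ⁻¹' (qR p.1 ×ˢ univ))).toReal
      = (volume (qI p.1 ∩ (f : unitInterval → ℝ × ℝ) ⁻¹' (univ ×ˢ qR p.2))).toReal}

theorem measurableSet_PP : MeasurableSet PP := by
  have : PP = ⋂ p : (ℚ × ℚ) × (ℚ × ℚ), {f : LL |
    (volume (qI p.2 ∩ (f : unitInterval → ℝ × ℝ) ⁻¹' (qR p.1 ×ˢ univ))).toReal
      = (volume (qI p.1 ∩ (f : unitInterval → ℝ × ℝ) ⁻¹' (univ ×ˢ qR p.2))).toReal} := by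
    ext f; simp only [PP, mem_ofPred_eq, mem_iInter]
  rw [this]
  refine MeasurableSet.iInter fun p => measurableSet_eq_fun ?_ ?_
  · exact measurable_vol _ _ ((isClosed_qR _).prod isClosed_univ)
  · exact measurable_vol _ _ (isClosed_univ.prod (isClosed_qR _))

theorem code_square_eq (e : unitInterval ≃ᵐ unitInterval) (he : MeasurePreserving e volume volume)
    (f : LL) (h1 : ∀ᵐ x, ((e x : unitInterval) : ℝ) = (f x).1)
    (h2 : ∀ᵐ x, ((e.symm x : unitInterval) : ℝ) = (f x).2) :
    code (e.trans e) = joint f := by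
  funext p
  simp only [code, joint]
  congr 1
  have hs : MeasurePreserving e.symm volume volume := he.symm e
  have hm : MeasurableSet ((e.trans e) ⁻¹' qI p.1 ∩ qI p.2) :=
    ((e.trans e).measurable (measurableSet_qI _)).inter (measurableSet_qI _)
  rw [← hs.measure_preimage hm.nullMeasurableSet]
  refine measure_congr ?_
  filter_upwards [h1, h2] with x hx1 hx2
  refine propext ?_
  show (e (e (e.symm x)) ∈ qI p.1 ∧ e.symm x ∈ qI p.2) ↔ (True ∧ f x ∈ qR p.1 ×ˢ qR p.2)
  rw [e.apply_symm_apply, qI_eq, qI_eq, mem_preimage, mem_preimage, hx1, hx2, mem_prod]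
  tauto

theorem PP_equiv (f : LL) (hf : f ∈ PP) : ∃ e : unitInterval ≃ᵐ unitInterval,
    MeasurePreserving e volume volume ∧ (∀ᵐ x, ((e x : unitInterval) : ℝ) = (f x).1) ∧
    (∀ᵐ x, ((e.symm x : unitInterval) : ℝ) = (f x).2) := by
  have mf := mLL f
  have mc : Measurable (fun x : unitInterval => (x : ℝ)) := measurable_subtype_coe
  have mA : Measurable fun x : unitInterval => ((f x).1, (x : ℝ)) := (measurable_fst.comp mf).prodMk mc
  have mB : Measurable fun x : unitInterval => ((x : ℝ), (f x).2) := mc.prodMk (measurable_snd.comp mf)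
  have key : Measure.map (fun x : unitInterval => ((f x).1, (x : ℝ))) volume
      = Measure.map (fun x : unitInterval => ((x : ℝ), (f x).2)) volume := by
    have : IsFiniteMeasure (Measure.map (fun x : unitInterval => ((f x).1, (x : ℝ))) volume) :=
      Measure.isFiniteMeasure_map _ _
    refine measure_ext_boxes fun p => ?_
    rw [Measure.map_apply mA ((measurableSet_qR _).prod (measurableSet_qR _)),
      Measure.map_apply mB ((measurableSet_qR _).prod (measurableSet_qR _))]
    have := hf p
    rw [ENNReal.toReal_eq_toReal_iff' (measure_ne_top _ _) (measure_ne_top _ _)] at this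
    convert this using 2
    · ext x
      simp only [mem_preimage, mem_prod, mem_inter_iff, qI_eq, mem_univ, and_true]
      tauto
    · ext x
      simp only [mem_preimage, mem_prod, mem_inter_iff, qI_eq, mem_univ, true_and]
  have k1 : Measure.map (fun x : unitInterval => (f x).1) volume
      = Measure.map (fun x : unitInterval => (x : ℝ)) volume := by
    have := congrArg (Measure.map Prod.fst) key
    rwa [Measure.map_map measurable_fst mA, Measure.map_map measurable_fst mB] at this
  have k2 : Measure.map (fun x : unitInterval => (f x).2) volume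
      = Measure.map (fun x : unitInterval => (x : ℝ)) volume := by
    have := congrArg (Measure.map Prod.snd) key
    rw [Measure.map_map measurable_snd mA, Measure.map_map measurable_snd mB] at this
    exact this.symm
  have m1 : Measurable fun x : unitInterval => (f x).1 := measurable_fst.comp mf
  have m2 : Measurable fun x : unitInterval => (f x).2 := measurable_snd.comp mf
  have mIcc : MeasurableSet {t : ℝ | ((pr t : unitInterval) : ℝ) = t} :=
    measurableSet_eq_fun (mc.comp measurable_pr) measurable_id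
  have a0 : ∀ᵐ t ∂(Measure.map (fun x : unitInterval => (x : ℝ)) volume), ((pr t : unitInterval) : ℝ) = t := by
    rw [ae_map_iff mc.aemeasurable mIcc]
    exact Eventually.of_forall fun x => by rw [pr_coe]
  have a1 : ∀ᵐ x, ((pr (f x).1 : unitInterval) : ℝ) = (f x).1 := by
    rw [← k1, ae_map_iff m1.aemeasurable mIcc] at a0
    exact a0
  have a2 : ∀ᵐ x, ((pr (f x).2 : unitInterval) : ℝ) = (f x).2 := by
    rw [← k2, ae_map_iff m2.aemeasurable mIcc] at a0
    exact a0
  have hg : MeasurePreserving (fun x => pr (f x).1) volume volume := by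
    refine ⟨measurable_pr.comp m1, ?_⟩
    rw [show (fun x => pr (f x).1) = pr ∘ (fun x => (f x).1) from rfl, ← Measure.map_map measurable_pr m1,
      k1, Measure.map_map measurable_pr mc]
    have : (pr ∘ fun x : unitInterval => (x : ℝ)) = id := funext fun x => pr_coe x
    rw [this, Measure.map_id]
  have hh : MeasurePreserving (fun x => pr (f x).2) volume volume := by
    refine ⟨measurable_pr.comp m2, ?_⟩
    rw [show (fun x => pr (f x).2) = pr ∘ (fun x => (f x).2) from rfl, ← Measure.map_map measurable_pr m2,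
      k2, Measure.map_map measurable_pr mc]
    have : (pr ∘ fun x : unitInterval => (x : ℝ)) = id := funext fun x => pr_coe x
    rw [this, Measure.map_id]
  have hgh : ∀ᵐ y : unitInterval, pr (f (pr (f y).2)).1 = y := by
    have mD : MeasurableSet {q : ℝ × ℝ | q.1 = (f (pr q.2)).1} :=
      measurableSet_eq_fun measurable_fst (m1.comp (measurable_pr.comp measurable_snd))
    have h1 : ∀ᵐ q ∂(Measure.map (fun x : unitInterval => ((f x).1, (x : ℝ))) volume),
        q.1 = (f (pr q.2)).1 := by
      rw [ae_map_iff mA.aemeasurable mD]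
      exact Eventually.of_forall fun x => by simp only [pr_coe]
    rw [key, ae_map_iff mB.aemeasurable mD] at h1
    filter_upwards [h1] with x hx
    rw [← hx, pr_coe]
  have hhg : ∀ᵐ x : unitInterval, pr (f (pr (f x).1)).2 = x := by
    have mD : MeasurableSet {q : ℝ × ℝ | q.2 = (f (pr q.1)).2} :=
      measurableSet_eq_fun measurable_snd (m2.comp (measurable_pr.comp measurable_fst))
    have h1 : ∀ᵐ q ∂(Measure.map (fun x : unitInterval => ((x : ℝ), (f x).2)) volume),
        q.2 = (f (pr q.1)).2 := by
      rw [ae_map_iff mB.aemeasurable mD]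
      exact Eventually.of_forall fun x => by simp only [pr_coe]
    rw [← key, ae_map_iff mA.aemeasurable mD] at h1
    filter_upwards [h1] with x hx
    rw [← hx, pr_coe]
  obtain ⟨N, hN, hN0, hNc⟩ := exists_uncountable_null_unitInterval
  obtain ⟨e, he1, he2⟩ := null_modification volume volume _ _ hg hh hgh hhg N hN hN0 hNc N hN hN0 hNc
  refine ⟨e, hg.congr e.measurable ?_, ?_, ?_⟩
  · filter_upwards [he1] with x hx using hx.symm
  · filter_upwards [he1, a1] with x hx hx'
    rw [hx, hx']
  · filter_upwards [he2, a2] with x hx hx'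
    rw [hx, hx']

theorem exists_LL (e : unitInterval ≃ᵐ unitInterval) (he : MeasurePreserving e volume volume) :
    ∃ f : LL, f ∈ PP ∧ (∀ᵐ x, ((e x : unitInterval) : ℝ) = (f x).1) ∧
    (∀ᵐ x, ((e.symm x : unitInterval) : ℝ) = (f x).2) := by
  have mc : Measurable (fun x : unitInterval => (x : ℝ)) := measurable_subtype_coe
  have mg : Measurable fun x : unitInterval => (((e x : unitInterval) : ℝ), ((e.symm x : unitInterval) : ℝ)) :=
    (mc.comp e.measurable).prodMk (mc.comp e.symm.measurable)
  have hmem : MemLp (fun x : unitInterval => (((e x : unitInterval) : ℝ), ((e.symm x : unitInterval) : ℝ))) 1 volume := by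
    refine MemLp.of_bound mg.aestronglyMeasurable 1 (Eventually.of_forall fun x => ?_)
    rw [Prod.norm_def]
    refine max_le ?_ ?_
    · rw [Real.norm_eq_abs, abs_of_nonneg (e x).2.1]; exact (e x).2.2
    · rw [Real.norm_eq_abs, abs_of_nonneg (e.symm x).2.1]; exact (e.symm x).2.2
  have hf := hmem.coeFn_toLp
  have hf1 : ∀ᵐ x, ((e x : unitInterval) : ℝ) = (hmem.toLp _ x).1 := by
    filter_upwards [hf] with x hx
    rw [hx]
  have hf2 : ∀ᵐ x, ((e.symm x : unitInterval) : ℝ) = (hmem.toLp _ x).2 := by
    filter_upwards [hf] with x hx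
    rw [hx]
  refine ⟨hmem.toLp _, ?_, hf1, hf2⟩
  intro p
  congr 1
  have e1 : volume (qI p.2 ∩ (hmem.toLp _ : unitInterval → ℝ × ℝ) ⁻¹' (qR p.1 ×ˢ univ))
      = volume (e ⁻¹' qI p.1 ∩ qI p.2) := by
    refine measure_congr ?_
    filter_upwards [hf1] with x hx
    refine propext ?_
    show (x ∈ qI p.2 ∧ (hmem.toLp _ x) ∈ qR p.1 ×ˢ univ) ↔ (e x ∈ qI p.1 ∧ x ∈ qI p.2)
    rw [mem_prod, ← hx, qI_eq, qI_eq, mem_preimage, mem_preimage]
    simp only [mem_univ, and_true]
    tauto
  have e2 : volume (qI p.1 ∩ (hmem.toLp _ : unitInterval → ℝ × ℝ) ⁻¹' (univ ×ˢ qR p.2))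
      = volume (qI p.1 ∩ e.symm ⁻¹' qI p.2) := by
    refine measure_congr ?_
    filter_upwards [hf2] with x hx
    refine propext ?_
    show (x ∈ qI p.1 ∧ (hmem.toLp _ x) ∈ univ ×ˢ qR p.2) ↔ (x ∈ qI p.1 ∧ e.symm x ∈ qI p.2)
    rw [mem_prod, ← hx, qI_eq, qI_eq, mem_preimage, mem_preimage]
    simp only [mem_univ, true_and]
  rw [e1, e2, ← he.measure_preimage
    ((measurableSet_qI p.1).inter (e.symm.measurable (measurableSet_qI p.2))).nullMeasurableSet]
  congr 1
  ext x
  show (e x ∈ qI p.1 ∧ x ∈ qI p.2) ↔ (e x ∈ qI p.1 ∧ e.symm (e x) ∈ qI p.2)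
  rw [e.symm_apply_apply]

theorem polish_LL : PolishSpace LL := by
  have : Fact ((1 : ENNReal) ≠ ⊤) := ⟨ENNReal.one_ne_top⟩
  have : SecondCountableTopology LL := Lp.SecondCountableTopology
  infer_instance

theorem analytic_squares : AnalyticSet
    {c : (ℚ × ℚ) × (ℚ × ℚ) → ℝ | ∃ S : unitInterval ≃ᵐ unitInterval,
      MeasurePreserving S volume volume ∧ c = code (S.trans S)} := by
  have : {c : (ℚ × ℚ) × (ℚ × ℚ) → ℝ | ∃ S : unitInterval ≃ᵐ unitInterval,
      MeasurePreserving S volume volume ∧ c = code (S.trans S)} = joint '' PP := by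
    ext c
    constructor
    · rintro ⟨S, hS, rfl⟩
      obtain ⟨f, hf, h1, h2⟩ := exists_LL S hS
      exact ⟨f, hf, (code_square_eq S hS f h1 h2).symm⟩
    · rintro ⟨f, hf, rfl⟩
      obtain ⟨e, he, h1, h2⟩ := PP_equiv f hf
      exact ⟨e, he, (code_square_eq e he f h1 h2).symm⟩
  rw [this]
  have := polish_LL
  exact measurableSet_PP.analyticSet_image measurable_joint

end Pool.Agent.Helper212.Sq
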