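import Mathlib

open Filter
open scoped Topology

namespace Pool.Agent.Helper212.Sq

theorem pow_sq_le (n : ℕ) : ((1:ℝ)/2) ^ (n ^ 2) ≤ (1/2) ^ n :=
  pow_le_pow_of_le_one (by norm_num) (by norm_num) (by nlinarith [Nat.zero_le n, sq_nonneg (n:ℤ), Nat.le_self_pow (two_ne_zero) n])

theorem summable_digits (d : ℕ → ℤ) (C : ℝ) (hC : ∀ n, |(d n : ℝ)| ≤ C) :
    Summable fun n => (d n : ℝ) * (1/2) ^ (n ^ 2) := by
  refine Summable.of_norm_bounded (g := fun n => C * (1/2) ^ n)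
    (summable_geometric_two.mul_left C) fun n => ?_
  rw [norm_mul, Real.norm_eq_abs, norm_pow]
  have : ‖(1/2 : ℝ)‖ = 1/2 := by norm_num
  rw [this]
  have hC0 : 0 ≤ C := le_trans (abs_nonneg _) (hC 0)
  exact mul_le_mul (hC n) (pow_sq_le n) (by positivity) hC0

theorem tail_bound (d : ℕ → ℤ) (C : ℝ) (hC : ∀ n, |(d n : ℝ)| ≤ C) (N : ℕ) :
    |∑' k, (d (k + N) : ℝ) * (1/2) ^ ((k + N) ^ 2)| ≤ 2 * C * (1/2) ^ (N ^ 2) := by
  have hC0 : 0 ≤ C := le_trans (abs_nonneg _) (hC 0)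
  have h2 : HasSum (fun k : ℕ => C * (1/2) ^ (N ^ 2) * (1/2 : ℝ) ^ k) (C * (1/2) ^ (N ^ 2) * 2) :=
    hasSum_geometric_two.mul_left _
  have := tsum_of_norm_bounded (f := fun k => (d (k + N) : ℝ) * (1/2) ^ ((k + N) ^ 2)) h2 (fun k => ?_)
  · rw [Real.norm_eq_abs] at this
    linarith
  · rw [norm_mul, Real.norm_eq_abs, norm_pow]
    have : ‖(1/2 : ℝ)‖ = 1/2 := by norm_num
    rw [this, mul_assoc, ← pow_add]
    refine mul_le_mul (hC _) ?_ (by positivity) hC0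
    refine pow_le_pow_of_le_one (by norm_num) (by norm_num) ?_
    have : k ≤ k ^ 2 := Nat.le_self_pow two_ne_zero k
    nlinarith [Nat.zero_le (k * N)]

theorem digits_eventually_zero (d : ℕ → ℤ) (C : ℝ) (hC : ∀ n, |(d n : ℝ)| ≤ C) (m : ℤ)
    (h : ∑' n, (d n : ℝ) * (1/2) ^ (n ^ 2) = m / 2) : ∃ N, ∀ n ≥ N, d n = 0 := by
  have hC0 : 0 ≤ C := le_trans (abs_nonneg _) (hC 0)
  have hs := summable_digits d C hC
  set t : ℕ → ℝ := fun N => ∑' k, (d (k + N) : ℝ) * (1/2) ^ ((k + N) ^ 2) with ht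
  have hsplit : ∀ N, ∑ n ∈ Finset.range N, (d n : ℝ) * (1/2) ^ (n ^ 2) + t N = m / 2 := by
    intro N
    rw [← h]
    exact hs.sum_add_tsum_nat_add N
  -- integrality of the scaled tail
  have hint : ∀ M, ∃ z : ℤ, (2:ℝ) ^ ((M + 1) ^ 2) * t (M + 2) = z := by
    intro M
    have h1 : t (M + 2) = m / 2 - ∑ n ∈ Finset.range (M + 2), (d n : ℝ) * (1/2) ^ (n ^ 2) := by
      linarith [hsplit (M + 2)]
    refine ⟨m * 2 ^ ((M + 1) ^ 2 - 1) - ∑ n ∈ Finset.range (M + 2), d n * 2 ^ ((M + 1) ^ 2 - n ^ 2), ?_⟩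
    rw [h1, mul_sub, Finset.mul_sum]
    push_cast
    congr 1
    · have : (M + 1) ^ 2 = (M + 1) ^ 2 - 1 + 1 := by
        have : 1 ≤ (M + 1) ^ 2 := Nat.one_le_pow _ _ (by omega)
        omega
      rw [this, pow_succ]
      simp only [add_tsub_cancel_right]
      ring
    · refine Finset.sum_congr rfl fun n hn => ?_
      rw [Finset.mem_range] at hn
      have hle : n ^ 2 ≤ (M + 1) ^ 2 := Nat.pow_le_pow_left (by omega) 2
      have : (2:ℝ) ^ ((M + 1) ^ 2) = 2 ^ ((M + 1) ^ 2 - n ^ 2) * 2 ^ (n ^ 2) := by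
        rw [← pow_add]; congr 1; omega
      rw [this]
      have h3 : (2:ℝ) ^ (n ^ 2) * (1/2) ^ (n ^ 2) = 1 := by
        rw [← mul_pow]; norm_num
      calc (2:ℝ) ^ ((M + 1) ^ 2 - n ^ 2) * 2 ^ (n ^ 2) * (d n * (1/2) ^ (n ^ 2))
          = (2:ℝ) ^ ((M + 1) ^ 2 - n ^ 2) * d n * (2 ^ (n ^ 2) * (1/2) ^ (n ^ 2)) := by ring
        _ = _ := by rw [h3]; ring
  -- smallness
  obtain ⟨K, hK⟩ : ∃ K : ℕ, 2 * C * (1/2) ^ K < 1 := by
    have : Tendsto (fun K : ℕ => 2 * C * (1/2 : ℝ) ^ K) atTop (𝓝 (2 * C * 0)) :=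
      (tendsto_pow_atTop_nhds_zero_of_lt_one (by norm_num) (by norm_num)).const_mul _
    rw [mul_zero] at this
    exact (this.eventually (gt_mem_nhds one_pos)).exists
  have hzero : ∀ M ≥ K, t (M + 2) = 0 := by
    intro M hM
    obtain ⟨z, hz⟩ := hint M
    have hb := tail_bound d C hC (M + 2)
    have h4 : |(z : ℝ)| < 1 := by
      rw [← hz, abs_mul, abs_of_pos (by positivity : (0:ℝ) < 2 ^ ((M + 1) ^ 2))]
      calc (2:ℝ) ^ ((M + 1) ^ 2) * |t (M + 2)| ≤ 2 ^ ((M + 1) ^ 2) * (2 * C * (1/2) ^ ((M + 2) ^ 2)) :=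
            mul_le_mul_of_nonneg_left hb (by positivity)
        _ = 2 * C * ((2 ^ ((M + 1) ^ 2) * (1/2) ^ ((M + 1) ^ 2)) * (1/2) ^ ((M + 2) ^ 2 - (M + 1) ^ 2)) := by
            have : (M + 2) ^ 2 = (M + 1) ^ 2 + ((M + 2) ^ 2 - (M + 1) ^ 2) := by
              have : (M + 1) ^ 2 ≤ (M + 2) ^ 2 := Nat.pow_le_pow_left (by omega) 2
              omega
            conv_lhs => rw [this, pow_add]
            ring
        _ = 2 * C * (1/2) ^ ((M + 2) ^ 2 - (M + 1) ^ 2) := by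
            rw [← mul_pow]; norm_num
        _ ≤ 2 * C * (1/2) ^ K := by
            refine mul_le_mul_of_nonneg_left ?_ (by positivity)
            refine pow_le_pow_of_le_one (by norm_num) (by norm_num) ?_
            have : (M + 2) ^ 2 = (M + 1) ^ 2 + (2 * M + 3) := by ring
            omega
        _ < 1 := hK
    have hz0 : z = 0 := by
      have : |z| < 1 := by exact_mod_cast h4
      exact Int.abs_lt_one_iff.1 this
    rw [hz0] at hz
    have : (2:ℝ) ^ ((M + 1) ^ 2) ≠ 0 := by positivity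
    simpa [this] using hz
  refine ⟨K + 2, fun n hn => ?_⟩
  obtain ⟨M, rfl⟩ : ∃ M, n = M + 2 := ⟨n - 2, by omega⟩
  have h5 := hsplit (M + 2)
  have h6 := hsplit (M + 1 + 2)
  rw [hzero M (by omega)] at h5
  rw [hzero (M + 1) (by omega), show M + 1 + 2 = (M + 2) + 1 by ring, Finset.sum_range_succ] at h6
  have h7 : (d (M + 2) : ℝ) * (1/2) ^ ((M + 2) ^ 2) = 0 := by linarith
  have : ((1:ℝ)/2) ^ ((M + 2) ^ 2) ≠ 0 := by positivity
  have h8 := (mul_eq_zero.1 h7).resolve_right this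
  exact_mod_cast h8

end Pool.Agent.Helper212.Sq
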