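import Mathlib

open MeasureTheory Set Filter Submodule Algebra
open scoped Topology ComplexConjugate

namespace Pool.Agent.Helper212.Sq

/-- A point separating group of continuous characters. -/
structure CharFam (Y D : Type*) [AddCommGroup Y] [TopologicalSpace Y] [AddCommGroup D] where
  χ : D → C(Y, ℂ)
  add_arg : ∀ d y y', χ d (y + y') = χ d y * χ d y'
  add_idx : ∀ d d' y, χ (d + d') y = χ d y * χ d' y
  zero_idx : ∀ y, χ 0 y = 1
  neg_idx : ∀ d y, χ (-d) y = conj (χ d y)
  sep : ∀ y y', y ≠ y' → ∃ d, χ d y ≠ χ d y'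

namespace CharFam

variable {Y D : Type*} [AddCommGroup Y] [TopologicalSpace Y] [AddCommGroup D] (F : CharFam Y D)

noncomputable def salg : StarSubalgebra ℂ C(Y, ℂ) where
  toSubalgebra := Algebra.adjoin ℂ (range F.χ)
  star_mem' := by
    change Algebra.adjoin ℂ (range F.χ) ≤ star (Algebra.adjoin ℂ (range F.χ))
    refine adjoin_le ?_
    rintro _ ⟨n, rfl⟩
    refine subset_adjoin ⟨-n, ?_⟩
    ext1 x
    simp only [F.neg_idx, starRingEnd_apply, ContinuousMap.star_apply]

theorem salg_coe : F.salg.toSubalgebra.toSubmodule = span ℂ (range F.χ) := by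
  apply adjoin_eq_span_of_subset
  refine .trans (fun x ↦ Submonoid.closure_induction (fun _ ↦ id) ⟨0, ?_⟩ ?_) subset_span
  · ext z
    simp only [F.zero_idx, ContinuousMap.one_apply]
  · rintro _ _ _ _ ⟨m, rfl⟩ ⟨n, rfl⟩
    refine ⟨m + n, ?_⟩
    ext z
    simp only [F.add_idx, ContinuousMap.mul_apply]

theorem salg_separatesPoints : F.salg.SeparatesPoints := by
  intro x y hxy
  obtain ⟨d, hd⟩ := F.sep x y hxy
  exact ⟨_, ⟨F.χ d, subset_adjoin ⟨d, rfl⟩, rfl⟩, hd⟩

variable [CompactSpace Y]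

theorem salg_closure : F.salg.topologicalClosure = ⊤ :=
  ContinuousMap.starSubalgebra_topologicalClosure_eq_top_of_separatesPoints _
    F.salg_separatesPoints

theorem span_closure : (span ℂ (range F.χ)).topologicalClosure = ⊤ := by
  rw [← F.salg_coe]
  exact congr_arg (Subalgebra.toSubmodule <| StarSubalgebra.toSubalgebra ·) F.salg_closure

variable [T2Space Y] [MeasurableSpace Y] [BorelSpace Y] [SecondCountableTopology Y]
  (μ : Measure Y) [IsProbabilityMeasure μ] [μ.WeaklyRegular]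

theorem spanLp_closure :
    (span ℂ (range fun d => (ContinuousMap.toLp (E := ℂ) 2 μ ℂ (F.χ d)))).topologicalClosure = ⊤ := by
  simpa only [map_span, ContinuousLinearMap.coe_coe, ← range_comp, Function.comp_def] using
    (ContinuousMap.toLp_denseRange ℂ μ ℂ (by norm_num : (2 : ENNReal) ≠ ⊤)).topologicalClosure_map_submodule
      F.span_closure

theorem ae_zero (f : Y → ℂ) (hf : MemLp f 2 μ) (h : ∀ d, ∫ y, F.χ d y * f y ∂μ = 0) :
    f =ᵐ[μ] 0 := by
  have hd : Dense ((span ℂ (range fun d => (ContinuousMap.toLp (E := ℂ) 2 μ ℂ (F.χ d))) :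
      Submodule ℂ (Lp ℂ 2 μ)) : Set (Lp ℂ 2 μ)) :=
    Submodule.dense_iff_topologicalClosure_eq_top.2 (F.spanLp_closure μ)
  have hz : hf.toLp f = 0 := by
    refine hd.eq_zero_of_inner_right (𝕜 := ℂ) ?_
    intro v hv
    refine Submodule.span_induction (p := fun v _ => inner ℂ v (hf.toLp f) = 0) ?_ ?_ ?_ ?_ hv
    · rintro _ ⟨d, rfl⟩
      rw [L2.inner_def]
      rw [← h (-d)]
      refine integral_congr_ae ?_
      filter_upwards [ContinuousMap.coeFn_toLp (p := 2) (𝕜 := ℂ) μ (F.χ d), hf.coeFn_toLp] with y hy1 hy2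
      rw [hy1, hy2, F.neg_idx]
      simp [mul_comm]
    · simp
    · intro a b _ _ ha hb
      rw [inner_add_left, ha, hb, add_zero]
    · intro c a _ ha
      rw [inner_smul_left, ha, mul_zero]
  have := hf.coeFn_toLp
  rw [hz] at this
  exact this.symm.trans (Lp.coeFn_zero _ _ _)


variable [IsTopologicalAddGroup Y] [μ.IsAddLeftInvariant]

theorem coeff_shift (f : Y → ℂ) (a : Y) (lam : ℂ) (h : ∀ᵐ y ∂μ, f (a + y) = lam * f y) (d : D) :
    ∫ y, F.χ d y * f y ∂μ = F.χ d a * lam * ∫ y, F.χ d y * f y ∂μ := by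
  conv_lhs => rw [← integral_add_left_eq_self _ a]
  rw [← integral_const_mul]
  refine integral_congr_ae ?_
  filter_upwards [h] with y hy
  rw [hy, F.add_arg]
  ring

/-- An eigenfunction that does not vanish a.e. has its eigenvalue among the character values. -/
theorem exists_char_eq (f : Y → ℂ) (hf : MemLp f 2 μ) (hf0 : ¬ f =ᵐ[μ] 0) (a : Y) (lam : ℂ)
    (h : ∀ᵐ y ∂μ, f (a + y) = lam * f y) : ∃ d, F.χ d a = lam := by
  by_contra hne
  push Not at hne
  refine hf0 (F.ae_zero μ f hf fun d => ?_)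
  have h1 := F.coeff_shift μ f a lam h d
  by_contra hc
  have h2 : F.χ d a * lam = 1 := by
    have : (F.χ d a * lam) * ∫ y, F.χ d y * f y ∂μ = 1 * ∫ y, F.χ d y * f y ∂μ := by
      rw [one_mul]; exact h1.symm
    exact mul_right_cancel₀ hc this
  refine hne (-d) ?_
  have h3 : F.χ (-d) a * F.χ d a = 1 := by
    rw [← F.add_idx, neg_add_cancel, F.zero_idx]
  calc F.χ (-d) a = F.χ (-d) a * (F.χ d a * lam) := by rw [h2, mul_one]
    _ = (F.χ (-d) a * F.χ d a) * lam := by ring
    _ = lam := by rw [h3, one_mul]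

/-- Ergodicity of the translation by a generic element. -/
theorem ae_const (f : Y → ℂ) (hf : MemLp f 2 μ) (a : Y) (h : ∀ᵐ y ∂μ, f (a + y) = f y)
    (ha : ∀ d, F.χ d a = 1 → ∀ y, F.χ d y = 1) : ∀ᵐ y ∂μ, f y = ∫ z, f z ∂μ := by
  have hint : Integrable f μ := hf.integrable (by norm_num)
  set c : ℂ := ∫ z, f z ∂μ with hc
  have hg : MemLp (fun y => f y - c) 2 μ := hf.sub (memLp_const c)
  have hz := F.ae_zero μ (fun y => f y - c) hg ?_
  · filter_upwards [hz] with y hy
    exact sub_eq_zero.1 hy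
  intro d
  by_cases hd : F.χ d a = 1
  · have h1 := ha d hd
    simp only [h1, one_mul]
    rw [integral_sub hint (integrable_const c)]
    simp [hc]
  · have h1 := F.coeff_shift μ (fun y => f y - c) a 1 (by
      filter_upwards [h] with y hy
      rw [hy, one_mul]) d
    rw [mul_one] at h1
    by_contra hne
    refine hd (mul_right_cancel₀ hne ?_)
    rw [one_mul]; exact h1.symm

end CharFam
end Pool.Agent.Helper212.Sq
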