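import Mathlib
import Pool.Agent.Helper212.Digits
import Pool.Agent.Helper212.Fourier

open MeasureTheory Set Filter
open scoped Topology ComplexConjugate

namespace Pool.Agent.Helper212.Sq

abbrev Node := List ℕ
abbrev Om := Node → ZMod 2
abbrev Tor := (Node × ℕ) → UnitAddCircle
abbrev Yg := ZMod 2 × Tor
abbrev XX := Om × Yg
abbrev Tr := Node → Bool

/-- enumeration of `Node × ℕ` hitting every element infinitely often -/
def en (n : ℕ) : Node × ℕ := Denumerable.ofNat (Node × ℕ) (Nat.unpair n).2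

theorem en_surj (j : Node × ℕ) (N : ℕ) : ∃ n ≥ N, en n = j :=
  ⟨Nat.pair N (Encodable.encode j), Nat.left_le_pair _ _, by
    simp only [en, Nat.unpair_pair, Denumerable.ofNat_encode]⟩

def Bdd (c : Node × ℕ → ℤ) : Prop := ∃ C : ℝ, ∀ j, |(c j : ℝ)| ≤ C

theorem Bdd.add {c d : Node × ℕ → ℤ} (hc : Bdd c) (hd : Bdd d) : Bdd (c + d) := by
  obtain ⟨C, hC⟩ := hc
  obtain ⟨D, hD⟩ := hd
  refine ⟨C + D, fun j => ?_⟩
  push_cast [Pi.add_apply]
  exact (abs_add_le _ _).trans (add_le_add (hC j) (hD j))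

theorem Bdd.zsmul {c : Node × ℕ → ℤ} (hc : Bdd c) (m : ℤ) : Bdd (m • c) := by
  obtain ⟨C, hC⟩ := hc
  refine ⟨|(m : ℝ)| * C, fun j => ?_⟩
  simp only [Pi.smul_apply, smul_eq_mul, Int.cast_mul, abs_mul]
  exact mul_le_mul_of_nonneg_left (hC j) (abs_nonneg _)

theorem Bdd.zero : Bdd 0 := ⟨0, fun j => by simp⟩

noncomputable def Phi (c : Node × ℕ → ℤ) : ℝ := ∑' n, (c (en n) : ℝ) * (1/2) ^ (n ^ 2)

theorem Phi_summable {c : Node × ℕ → ℤ} (hc : Bdd c) :
    Summable fun n => (c (en n) : ℝ) * (1/2) ^ (n ^ 2) := by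
  obtain ⟨C, hC⟩ := hc
  exact summable_digits (fun n => c (en n)) C fun n => hC _

theorem Phi_add {c d : Node × ℕ → ℤ} (hc : Bdd c) (hd : Bdd d) : Phi (c + d) = Phi c + Phi d := by
  simp only [Phi]
  rw [← (Phi_summable hc).tsum_add (Phi_summable hd)]
  refine tsum_congr fun n => ?_
  push_cast [Pi.add_apply]
  ring

theorem Phi_zsmul (m : ℤ) (c : Node × ℕ → ℤ) : Phi (m • c) = m * Phi c := by
  simp only [Phi]
  rw [← tsum_mul_left]
  refine tsum_congr fun n => ?_
  simp only [Pi.smul_apply, smul_eq_mul, Int.cast_mul]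
  ring

theorem Phi_zero : Phi 0 = 0 := by simp [Phi]

theorem Phi_eq_zero {c : Node × ℕ → ℤ} (hc : Bdd c) (m : ℤ) (h : Phi c = m / 2) : c = 0 := by
  obtain ⟨C, hC⟩ := hc
  obtain ⟨N, hN⟩ := digits_eventually_zero (fun n => c (en n)) C (fun n => hC _) m h
  funext j
  obtain ⟨n, hn, rfl⟩ := en_surj j N
  exact hN n hn

/-- partial parities -/
def zz (τ : Tr) (ω : Om) (s : Node) (n : ℕ) : ZMod 2 :=
  ω s + ∑ i ∈ Finset.range n, if τ (i :: s) then ω (i :: s) else 0

def dg (z : ZMod 2) : ℤ := if z = 0 then 2 else 3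

theorem dg_bound (z : ZMod 2) : |((dg z : ℤ) : ℝ)| ≤ 3 := by
  unfold dg; split_ifs <;> norm_num

def cc (τ : Tr) (ω : Om) (s : Node) : Node × ℕ → ℤ := fun j => if j.1 = s then dg (zz τ ω s j.2) else 0

theorem cc_bound (τ : Tr) (ω : Om) (s : Node) (j : Node × ℕ) : |((cc τ ω s j : ℤ) : ℝ)| ≤ 3 := by
  unfold cc; split_ifs
  · exact dg_bound _
  · norm_num

theorem cc_bdd (τ : Tr) (ω : Om) (s : Node) : Bdd (cc τ ω s) := ⟨3, cc_bound τ ω s⟩

noncomputable def al (τ : Tr) (ω : Om) (s : Node) : ℝ := Phi (cc τ ω s)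

noncomputable def gm (j : Node × ℕ) : ℝ := Phi (Pi.single j 1)

theorem single_bdd (j : Node × ℕ) : Bdd (Pi.single j 1) := by
  refine ⟨1, fun i => ?_⟩
  by_cases h : i = j
  · subst h; simp
  · simp [Pi.single_eq_of_ne h]

/-- real representatives of the translation vector -/
noncomputable def rr (τ : Tr) (ω : Om) (j : Node × ℕ) : ℝ :=
  if j.2 = 0 then al τ ω j.1 else gm (j.1, j.2 - 1)

noncomputable def aa (τ : Tr) (ω : Om) : Tor := fun j => (rr τ ω j : UnitAddCircle)

noncomputable def AA (τ : Tr) (ω : Om) : Yg := (1, aa τ ω)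

noncomputable def TT (τ : Tr) (x : XX) : XX := (x.1, AA τ x.1 + x.2)

theorem continuous_zz (s : Node) (n : ℕ) : Continuous fun p : Tr × Om => zz p.1 p.2 s n := by
  unfold zz
  refine ((continuous_apply s).comp continuous_snd).add ?_
  refine continuous_finsetSum _ fun i _ => ?_
  have : (fun p : Tr × Om => if p.1 (i :: s) = true then p.2 (i :: s) else 0)
      = (fun q : Bool × ZMod 2 => if q.1 = true then q.2 else 0) ∘
        (fun p : Tr × Om => (p.1 (i :: s), p.2 (i :: s))) := rfl
  rw [this]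
  exact continuous_of_discreteTopology.comp
    (((continuous_apply _).comp continuous_fst).prodMk ((continuous_apply _).comp continuous_snd))

theorem continuous_cc (s : Node) (j : Node × ℕ) : Continuous fun p : Tr × Om => cc p.1 p.2 s j := by
  unfold cc
  split_ifs with h
  · exact (continuous_of_discreteTopology : Continuous dg).comp (continuous_zz s j.2)
  · exact continuous_const

theorem continuous_al (s : Node) : Continuous fun p : Tr × Om => al p.1 p.2 s := by
  unfold al Phi
  refine continuous_tsum (u := fun n => 3 * (1/2 : ℝ) ^ n) ?_ (summable_geometric_two.mul_left 3) ?_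
  · intro n
    exact ((continuous_of_discreteTopology : Continuous (fun z : ℤ => (z : ℝ))).comp
      (continuous_cc s (en n))).mul continuous_const
  · intro n p
    rw [norm_mul, Real.norm_eq_abs, norm_pow]
    have : ‖(1/2 : ℝ)‖ = 1/2 := by norm_num
    rw [this]
    exact mul_le_mul (cc_bound _ _ _ _) (pow_sq_le n) (by positivity) (by norm_num)

theorem continuous_rr (j : Node × ℕ) : Continuous fun p : Tr × Om => rr p.1 p.2 j := by
  unfold rr
  split_ifs with h
  · exact continuous_al j.1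
  · exact continuous_const

theorem continuous_aa : Continuous fun p : Tr × Om => aa p.1 p.2 := by
  refine continuous_pi fun j => ?_
  have h : Continuous fun p : Tr × Om => ((rr p.1 p.2 j : ℝ) : UnitAddCircle) :=
    (AddCircle.continuous_mk' (1:ℝ)).comp (continuous_rr j)
  exact h

theorem continuous_AA : Continuous fun p : Tr × Om => AA p.1 p.2 :=
  continuous_const.prodMk continuous_aa

theorem continuous_TT : Continuous fun p : Tr × XX => TT p.1 p.2 := by
  have h0 : Continuous fun p : Tr × XX => (p.1, p.2.1) :=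
    continuous_fst.prodMk (continuous_fst.comp continuous_snd)
  have h1 := Continuous.comp continuous_AA h0
  have h2 : Continuous fun p : Tr × XX => p.2.2 := continuous_snd.comp continuous_snd
  have h3 := Continuous.add h1 h2
  have h4 : Continuous fun p : Tr × XX => p.2.1 := continuous_fst.comp continuous_snd
  exact h4.prodMk h3


end Pool.Agent.Helper212.Sq
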