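import Mathlib
import Pool.Agent.Helper212.System

open MeasureTheory Set Filter
open scoped Topology ComplexConjugate

namespace Pool.Agent.Helper212.Sq

noncomputable def pair (m : (Node × ℕ) →₀ ℤ) (k : Tor) : UnitAddCircle := m.sum fun j n => n • k j

theorem pair_add_right (m : (Node × ℕ) →₀ ℤ) (k k' : Tor) : pair m (k + k') = pair m k + pair m k' := by
  unfold pair
  rw [← Finsupp.sum_add]
  refine Finsupp.sum_congr fun j _ => ?_
  rw [Pi.add_apply, smul_add]

theorem pair_add_left (m m' : (Node × ℕ) →₀ ℤ) (k : Tor) : pair (m + m') k = pair m k + pair m' k := by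
  classical
  unfold pair
  exact Finsupp.sum_add_index' (fun j => zero_smul ℤ _) (fun j a b => add_smul _ _ _)

theorem pair_zero (k : Tor) : pair 0 k = 0 := Finsupp.sum_zero_index

theorem pair_neg (m : (Node × ℕ) →₀ ℤ) (k : Tor) : pair (-m) k = - pair m k := by
  rw [eq_neg_iff_add_eq_zero, ← pair_add_left, neg_add_cancel, pair_zero]

theorem pair_single (j : Node × ℕ) (n : ℤ) (k : Tor) : pair (Finsupp.single j n) k = n • k j :=
  Finsupp.sum_single_index (zero_smul _ _)

theorem continuous_pair (m : (Node × ℕ) →₀ ℤ) : Continuous (pair m) := by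
  unfold pair Finsupp.sum
  refine continuous_finsetSum _ fun j _ => ?_
  exact (continuous_zsmul (m j)).comp (continuous_apply j)

/-- bilinear sign on `ZMod 2` -/
def sg (e c : ZMod 2) : ℤ := if e * c = 0 then 1 else -1

theorem sg_add_right : ∀ e c c' : ZMod 2, sg e (c + c') = sg e c * sg e c' := by decide

theorem sg_add_left : ∀ e e' c : ZMod 2, sg (e + e') c = sg e c * sg e' c := by decide

theorem sg_neg : ∀ e c : ZMod 2, sg (-e) c = sg e c := by decide

theorem sg_zero : ∀ c : ZMod 2, sg 0 c = 1 := by decide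

theorem sg_mul_self : ∀ e c : ZMod 2, sg e c * sg e c = 1 := by decide

theorem sg_sep : ∀ c c' : ZMod 2, c ≠ c' → sg 1 c ≠ sg 1 c' := by decide

theorem sg_one_one : sg 1 1 = -1 := by decide

theorem sg_eq_one : ∀ e : ZMod 2, sg e 1 = 1 → e = 0 := by decide

abbrev DD := ZMod 2 × ((Node × ℕ) →₀ ℤ)

noncomputable def chi (d : DD) : C(Yg, ℂ) where
  toFun y := ((sg d.1 y.1 : ℤ) : ℂ) * ((AddCircle.toCircle (pair d.2 y.2) : Circle) : ℂ)
  continuous_toFun := by
    have h1 : Continuous fun y : Yg => ((sg d.1 y.1 : ℤ) : ℂ) :=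
      (continuous_of_discreteTopology : Continuous (fun c : ZMod 2 => ((sg d.1 c : ℤ) : ℂ))).comp
        continuous_fst
    have h2 : Continuous fun y : Yg => ((AddCircle.toCircle (pair d.2 y.2) : Circle) : ℂ) :=
      continuous_induced_dom.comp (AddCircle.continuous_toCircle.comp
        ((continuous_pair d.2).comp continuous_snd))
    exact h1.mul h2

theorem chi_apply (d : DD) (y : Yg) :
    chi d y = ((sg d.1 y.1 : ℤ) : ℂ) * ((AddCircle.toCircle (pair d.2 y.2) : Circle) : ℂ) := rfl

noncomputable def fam : CharFam Yg DD where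
  χ := chi
  add_arg d y y' := by
    simp only [chi_apply, Prod.fst_add, Prod.snd_add, sg_add_right, pair_add_right,
      AddCircle.toCircle_add, Circle.coe_mul, Int.cast_mul]
    ring
  add_idx d d' y := by
    simp only [chi_apply, Prod.fst_add, Prod.snd_add, sg_add_left, pair_add_left,
      AddCircle.toCircle_add, Circle.coe_mul, Int.cast_mul]
    ring
  zero_idx y := by
    simp only [chi_apply, Prod.fst_zero, Prod.snd_zero, sg_zero, pair_zero,
      AddCircle.toCircle_zero, Circle.coe_one, Int.cast_one, mul_one]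
  neg_idx d y := by
    simp only [chi_apply, Prod.fst_neg, Prod.snd_neg, sg_neg, pair_neg, AddCircle.toCircle_neg,
      Circle.coe_inv_eq_conj, map_mul]
    congr 1
    rw [Complex.conj_eq_iff_real.2 ⟨((sg d.1 y.1 : ℤ) : ℝ), by push_cast; rfl⟩]
  sep y y' h := by
    by_cases h1 : y.1 = y'.1
    · have h2 : y.2 ≠ y'.2 := fun h2 => h (Prod.ext h1 h2)
      obtain ⟨j, hj⟩ := Function.ne_iff.1 h2
      refine ⟨(0, Finsupp.single j 1), ?_⟩
      simp only [chi_apply, sg_zero, pair_single, one_smul, Int.cast_one, one_mul, Ne,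
        Circle.coe_inj]
      exact fun h3 => hj (AddCircle.injective_toCircle one_ne_zero h3)
    · refine ⟨(1, 0), ?_⟩
      simp only [chi_apply, pair_zero, AddCircle.toCircle_zero, Circle.coe_one, mul_one, Ne,
        Int.cast_inj]
      exact sg_sep _ _ h1

end Pool.Agent.Helper212.Sq
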