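import Mathlib
import Pool.Agent.Helper212.Chars

open MeasureTheory Set Filter
open scoped Topology ComplexConjugate

namespace Pool.Agent.Helper212.Sq

/-- coefficient function of an integer combination of the translation vector -/
def comb (τ : Tr) (ω : Om) (m : (Node × ℕ) →₀ ℤ) : Node × ℕ → ℤ :=
  fun j => m (j.1, j.2 + 1) + m (j.1, 0) * dg (zz τ ω j.1 j.2)

theorem comb_zero (τ : Tr) (ω : Om) : comb τ ω 0 = 0 := by
  funext j; simp [comb]

theorem comb_add (τ : Tr) (ω : Om) (m m' : (Node × ℕ) →₀ ℤ) :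
    comb τ ω (m + m') = comb τ ω m + comb τ ω m' := by
  funext j; simp only [comb, Finsupp.add_apply, Pi.add_apply]; ring

theorem comb_single (τ : Tr) (ω : Om) (j : Node × ℕ) (n : ℤ) :
    comb τ ω (Finsupp.single j n)
      = n • (if j.2 = 0 then cc τ ω j.1 else Pi.single (j.1, j.2 - 1) 1) := by
  funext i
  obtain ⟨s, k⟩ := j
  obtain ⟨s', k'⟩ := i
  simp only [comb, Pi.smul_apply, smul_eq_mul]
  rcases k with _ | k
  · simp only [if_true, cc]
    by_cases h : s' = s
    · subst h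
      simp
    · have h1 : ((s, 0) : Node × ℕ) ≠ (s', k' + 1) := by simp
      have h2 : ((s, 0) : Node × ℕ) ≠ (s', 0) := by
        intro h3; exact h (Prod.ext_iff.1 h3).1.symm
      simp [Finsupp.single_eq_of_ne h1.symm, Finsupp.single_eq_of_ne h2.symm, h]
  · simp only [Nat.succ_ne_zero, if_false, Nat.add_sub_cancel]
    have h2 : ((s, k + 1) : Node × ℕ) ≠ (s', 0) := by simp
    rw [Finsupp.single_eq_of_ne h2.symm]
    by_cases h : ((s, k) : Node × ℕ) = (s', k')
    · have : s = s' ∧ k = k' := by simpa using h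
      obtain ⟨rfl, rfl⟩ := this
      simp
    · have h3 : ((s, k + 1) : Node × ℕ) ≠ (s', k' + 1) := by
        intro h4; apply h; simpa using h4
      rw [Finsupp.single_eq_of_ne h3.symm, Pi.single_eq_of_ne (Ne.symm h)]
      simp

theorem comb_bdd (τ : Tr) (ω : Om) (m : (Node × ℕ) →₀ ℤ) : Bdd (comb τ ω m) := by
  induction m using Finsupp.induction_linear with
  | zero => rw [comb_zero]; exact Bdd.zero
  | add f g hf hg => rw [comb_add]; exact hf.add hg
  | single j n =>
    rw [comb_single]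
    refine Bdd.zsmul ?_ n
    split_ifs
    · exact cc_bdd _ _ _
    · exact single_bdd _

theorem Phi_comb (τ : Tr) (ω : Om) (m : (Node × ℕ) →₀ ℤ) :
    pair m (aa τ ω) = ((Phi (comb τ ω m) : ℝ) : UnitAddCircle) := by
  induction m using Finsupp.induction_linear with
  | zero => rw [comb_zero, Phi_zero, pair_zero]; rfl
  | add f g hf hg =>
    rw [comb_add, Phi_add (comb_bdd _ _ _) (comb_bdd _ _ _), pair_add_left, hf, hg]
    exact (AddCircle.coe_add (1:ℝ) _ _).symm
  | single j n =>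
    rw [comb_single, Phi_zsmul, pair_single]
    have : Phi (if j.2 = 0 then cc τ ω j.1 else Pi.single (j.1, j.2 - 1) 1) = rr τ ω j := by
      unfold rr al gm
      split_ifs <;> rfl
    rw [this]
    have h2 : ((n : ℝ) * rr τ ω j) = n • rr τ ω j := by simp
    rw [h2]
    exact (AddCircle.coe_zsmul (1:ℝ)).symm

theorem zmod2_cases : ∀ z : ZMod 2, z = 0 ∨ z = 1 := by decide

theorem dg_inj {m : ℤ} {z z' : ZMod 2} (h : m * dg z = dg z') : z = z' := by
  have hz : z = 0 ∨ z = 1 := zmod2_cases z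
  have hz' : z' = 0 ∨ z' = 1 := zmod2_cases z'
  have h1 : (1 : ZMod 2) ≠ 0 := by decide
  rcases hz with rfl | rfl <;> rcases hz' with rfl | rfl <;> simp [dg] at h ⊢ <;> omega

theorem dg_ne_zero (z : ZMod 2) : dg z ≠ 0 := by
  unfold dg; split_ifs <;> norm_num

theorem finsupp_eventually (m : (Node × ℕ) →₀ ℤ) (s : Node) : ∃ N, ∀ n ≥ N, m (s, n + 1) = 0 := by
  classical
  refine ⟨(m.support.image Prod.snd).sup id + 1, fun n hn => ?_⟩
  by_contra h
  have h1 : (s, n + 1) ∈ m.support := Finsupp.mem_support_iff.2 h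
  have h2 : n + 1 ∈ m.support.image Prod.snd := Finset.mem_image.2 ⟨_, h1, rfl⟩
  have h3 : n + 1 ≤ (m.support.image Prod.snd).sup id := Finset.le_sup (f := id) h2
  omega

theorem half_of_two_smul {x : ℝ} (h : (2 : ℤ) • ((x : ℝ) : UnitAddCircle) = 0) : ∃ z : ℤ, x = z / 2 := by
  rw [← AddCircle.coe_zsmul, AddCircle.coe_eq_zero_iff] at h
  obtain ⟨n, hn⟩ := h
  refine ⟨n, ?_⟩
  simp at hn
  linarith

theorem chi_sq (d : DD) (y : Yg) : (chi d y) ^ 2 = ((AddCircle.toCircle ((2 : ℤ) • pair d.2 y.2) : Circle) : ℂ) := by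
  rw [chi_apply, two_zsmul, AddCircle.toCircle_add, Circle.coe_mul, mul_pow, sq, sq, ← Int.cast_mul,
    sg_mul_self, Int.cast_one, one_mul]

theorem key0 (τ : Tr) (ω : Om) (d : DD) (h : chi d (AA τ ω) = 1) : d = 0 := by
  have h1 : ((AddCircle.toCircle ((2 : ℤ) • pair d.2 (aa τ ω)) : Circle) : ℂ) = 1 := by
    have := chi_sq d (AA τ ω)
    rw [h, one_pow] at this
    exact this.symm
  have h2 : (2 : ℤ) • pair d.2 (aa τ ω) = 0 := by
    apply AddCircle.injective_toCircle one_ne_zero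
    rw [AddCircle.toCircle_zero]
    exact Circle.coe_eq_one.1 h1
  rw [Phi_comb] at h2
  obtain ⟨z, hz⟩ := half_of_two_smul h2
  have h3 := Phi_eq_zero (comb_bdd τ ω d.2) z hz
  have h4 : ∀ s, d.2 (s, 0) = 0 := by
    intro s
    obtain ⟨N, hN⟩ := finsupp_eventually d.2 s
    have := congrFun h3 (s, N)
    simp only [comb, hN N le_rfl, zero_add, Pi.zero_apply, mul_eq_zero] at this
    exact this.resolve_right (dg_ne_zero _)
  have h5 : d.2 = 0 := by
    ext ⟨s, n⟩
    rcases n with _ | n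
    · exact h4 s
    · have := congrFun h3 (s, n)
      simp only [comb, h4 s, zero_mul, add_zero, Pi.zero_apply] at this
      exact this
  have h6 : d.1 = 0 := by
    apply sg_eq_one
    have : chi d (AA τ ω) = ((sg d.1 1 : ℤ) : ℂ) := by
      rw [chi_apply, h5, pair_zero, AddCircle.toCircle_zero, Circle.coe_one, mul_one]
      rfl
    rw [this] at h
    exact_mod_cast h
  exact Prod.ext h6 h5

theorem key1 (τ : Tr) (ω ω' : Om) (s : Node) (d : DD)
    (h : chi d (AA τ ω) = ((AddCircle.toCircle ((al τ ω' s : ℝ) : UnitAddCircle) : Circle) : ℂ)) :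
    ∃ N, ∀ n ≥ N, zz τ ω s n = zz τ ω' s n := by
  have h1 := chi_sq d (AA τ ω)
  rw [h, sq, ← Circle.coe_mul, ← AddCircle.toCircle_add, ← two_zsmul, Circle.coe_inj] at h1
  have h2 : (2 : ℤ) • ((al τ ω' s : ℝ) : UnitAddCircle) = (2 : ℤ) • pair d.2 (aa τ ω) :=
    AddCircle.injective_toCircle one_ne_zero h1
  have h3 : (2 : ℤ) • ((Phi (comb τ ω d.2 + (-1 : ℤ) • cc τ ω' s) : ℝ) : UnitAddCircle) = 0 := by
    rw [Phi_add (comb_bdd _ _ _) ((cc_bdd _ _ _).zsmul _), Phi_zsmul, AddCircle.coe_add, smul_add,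
      ← Phi_comb, ← h2]
    have : (((-1 : ℤ) : ℝ) * Phi (cc τ ω' s)) = - al τ ω' s := by simp [al]
    rw [this, AddCircle.coe_neg, smul_neg, add_neg_cancel]
  obtain ⟨z, hz⟩ := half_of_two_smul h3
  have h4 := Phi_eq_zero ((comb_bdd τ ω d.2).add ((cc_bdd τ ω' s).zsmul _)) z hz
  obtain ⟨N, hN⟩ := finsupp_eventually d.2 s
  refine ⟨N, fun n hn => ?_⟩
  have h5 := congrFun h4 (s, n)
  simp only [comb, cc, hN n hn, zero_add, Pi.add_apply, Pi.smul_apply, if_true, Pi.zero_apply,
    smul_eq_mul] at h5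
  exact dg_inj (m := d.2 (s, 0)) (by linarith)

end Pool.Agent.Helper212.Sq
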