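import Mathlib

/-!
# The full group of an ergodic automorphism: definition and first properties
-/

open MeasureTheory Filter Topology

set_option linter.unusedSectionVars false

namespace Pool.Agent.Helper212.ConjBorel

section PartA

variable {X : Type*} [MeasurableSpace X]

/-- The bimeasurable bijections `U` of `X` such that `U x` lies in the `T₀`-orbit of `x`
for every `x`, as a subgroup of the group of all permutations of `X`. -/
def fullSubgroup (T₀ : X ≃ᵐ X) : Subgroup (Equiv.Perm X) where
  carrier := {U | Measurable (U : X → X) ∧ Measurable (U.symm : X → X) ∧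
    ∀ x, ∃ n : ℤ, U x = ((T₀.toEquiv : Equiv.Perm X) ^ n) x}
  mul_mem' := by
    rintro U V ⟨hU, hU', hU''⟩ ⟨hV, hV', hV''⟩
    refine ⟨hU.comp hV, hV'.comp hU', fun x => ?_⟩
    obtain ⟨n, hn⟩ := hV'' x
    obtain ⟨m, hm⟩ := hU'' (V x)
    refine ⟨m + n, ?_⟩
    rw [zpow_add, Equiv.Perm.mul_apply, Equiv.Perm.mul_apply, ← hn, hm]
  one_mem' := ⟨measurable_id, measurable_id, fun x => ⟨0, by simp⟩⟩
  inv_mem' := by
    rintro U ⟨hU, hU', hU''⟩
    refine ⟨hU', hU, fun x => ?_⟩
    obtain ⟨n, hn⟩ := hU'' (U⁻¹ x)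
    refine ⟨-n, ?_⟩
    rw [zpow_neg, Equiv.Perm.eq_inv_iff_eq, ← hn]
    simp

/-- Everywhere defined representatives of the elements of the full group `[T₀]`. -/
def PreFull {μ : Measure X} {T₀ : X ≃ᵐ X} (_h : Ergodic T₀ μ) : Type _ := fullSubgroup T₀

instance {μ : Measure X} {T₀ : X ≃ᵐ X} {h : Ergodic T₀ μ} : Group (PreFull h) :=
  inferInstanceAs (Group (fullSubgroup T₀))

/-! ### The powers of `T₀` -/

/-- The `n`-th power of `T₀`. -/
def tau (T₀ : X ≃ᵐ X) (n : ℤ) : X → X := ((T₀.toEquiv : Equiv.Perm X) ^ n : Equiv.Perm X)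

section tau

variable (T₀ : X ≃ᵐ X)

theorem tau_zero (x : X) : tau T₀ 0 x = x := by simp [tau]

theorem tau_one (x : X) : tau T₀ 1 x = T₀ x := by simp [tau]

theorem tau_add (m n : ℤ) (x : X) : tau T₀ (m + n) x = tau T₀ m (tau T₀ n x) := by
  simp only [tau, zpow_add, Equiv.Perm.mul_apply]

theorem tau_neg_tau (n : ℤ) (x : X) : tau T₀ (-n) (tau T₀ n x) = x := by
  rw [← tau_add, neg_add_cancel, tau_zero]

theorem tau_tau_neg (n : ℤ) (x : X) : tau T₀ n (tau T₀ (-n) x) = x := by
  rw [← tau_add, add_neg_cancel, tau_zero]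

theorem tau_injective (n : ℤ) : Function.Injective (tau T₀ n) :=
  ((T₀.toEquiv : Equiv.Perm X) ^ n : Equiv.Perm X).injective

theorem measurable_tau (n : ℤ) : Measurable (tau T₀ n) := by
  have hpos : ∀ k : ℕ, Measurable (tau T₀ (k : ℤ)) := by
    intro k
    induction k with
    | zero => simpa [tau] using measurable_id
    | succ k ih =>
      have : tau T₀ ((k + 1 : ℕ) : ℤ) = fun x => tau T₀ 1 (tau T₀ k x) := by
        funext x
        rw [← tau_add]; congr 1; push_cast; ring
      rw [this]
      have h1 : Measurable (tau T₀ 1) := by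
        have : tau T₀ 1 = T₀ := by funext x; exact tau_one T₀ x
        rw [this]; exact T₀.measurable
      exact h1.comp ih
  have hneg : ∀ k : ℕ, Measurable (tau T₀ (-(k : ℤ))) := by
    intro k
    induction k with
    | zero => simpa [tau] using measurable_id
    | succ k ih =>
      have : tau T₀ (-((k + 1 : ℕ) : ℤ)) = fun x => tau T₀ (-1) (tau T₀ (-k) x) := by
        funext x
        rw [← tau_add]; congr 1; push_cast; ring
      rw [this]
      have h1 : Measurable (tau T₀ (-1)) := by
        have : tau T₀ (-1) = T₀.symm := by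
          funext x
          simp [tau]
        rw [this]; exact T₀.symm.measurable
      exact h1.comp ih
  rcases Int.eq_nat_or_neg n with ⟨k, rfl | rfl⟩
  · exact hpos k
  · exact hneg k

/-- The orbit of a point. -/
def orb (x : X) : Set X := Set.range (fun n : ℤ => tau T₀ n x)

variable {T₀}

theorem mem_orb_self (x : X) : x ∈ orb T₀ x := ⟨0, tau_zero T₀ x⟩

theorem mem_orb_trans {x y z : X} (hy : y ∈ orb T₀ x) (hz : z ∈ orb T₀ y) : z ∈ orb T₀ x := by
  obtain ⟨n, rfl⟩ := hy
  obtain ⟨m, rfl⟩ := hz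
  exact ⟨m + n, tau_add T₀ m n x⟩

theorem mem_orb_symm {x y : X} (hy : y ∈ orb T₀ x) : x ∈ orb T₀ y := by
  obtain ⟨n, rfl⟩ := hy
  exact ⟨-n, tau_neg_tau T₀ n x⟩

theorem orb_eq {x y : X} (hy : y ∈ orb T₀ x) : orb T₀ y = orb T₀ x := by
  ext z
  exact ⟨fun hz => mem_orb_trans hy hz, fun hz => mem_orb_trans (mem_orb_symm hy) hz⟩

end tau

section basic

variable {μ : Measure X} {T₀ : X ≃ᵐ X} {h : Ergodic T₀ μ}

theorem PreFull.measurable (S : PreFull h) : Measurable (S.1 : X → X) := S.2.1

theorem PreFull.mem_orb (S : PreFull h) (x : X) : S.1 x ∈ orb T₀ x := by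
  obtain ⟨n, hn⟩ := S.2.2.2 x
  exact ⟨n, hn.symm⟩

theorem PreFull.orb_apply (S : PreFull h) (x : X) : orb T₀ (S.1 x) = orb T₀ x :=
  orb_eq (S.mem_orb x)

@[simp] theorem PreFull.mul_val (S T : PreFull h) : (S * T).1 = S.1 * T.1 := rfl

@[simp] theorem PreFull.inv_val (S : PreFull h) : (S⁻¹).1 = (S.1)⁻¹ := rfl

@[simp] theorem PreFull.one_val : (1 : PreFull h).1 = 1 := rfl

theorem mp_tau (h : Ergodic T₀ μ) (n : ℤ) : MeasurePreserving (tau T₀ n) μ μ := by
  have h0 : MeasurePreserving T₀ μ μ := h.toMeasurePreserving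
  have hpos : ∀ k : ℕ, MeasurePreserving (tau T₀ (k : ℤ)) μ μ := by
    intro k
    induction k with
    | zero => simpa [tau] using MeasurePreserving.id μ
    | succ k ih =>
      have : tau T₀ ((k + 1 : ℕ) : ℤ) = fun x => tau T₀ 1 (tau T₀ k x) := by
        funext x
        rw [← tau_add]; congr 1; push_cast; ring
      rw [this]
      have h1 : MeasurePreserving (tau T₀ 1) μ μ := by
        have : tau T₀ 1 = T₀ := by funext x; exact tau_one T₀ x
        rw [this]; exact h0
      exact h1.comp ih
  have hneg : ∀ k : ℕ, MeasurePreserving (tau T₀ (-(k : ℤ))) μ μ := by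
    intro k
    induction k with
    | zero => simpa [tau] using MeasurePreserving.id μ
    | succ k ih =>
      have : tau T₀ (-((k + 1 : ℕ) : ℤ)) = fun x => tau T₀ (-1) (tau T₀ (-k) x) := by
        funext x
        rw [← tau_add]; congr 1; push_cast; ring
      rw [this]
      have h1 : MeasurePreserving (tau T₀ (-1)) μ μ := by
        have : tau T₀ (-1) = T₀.symm := by
          funext x
          simp [tau]
        rw [this]; exact h0.symm T₀
      exact h1.comp ih
  rcases Int.eq_nat_or_neg n with ⟨k, rfl | rfl⟩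
  · exact hpos k
  · exact hneg k

/-- A measurable matching inside the orbit relation preserves the measure. -/
theorem measure_dom_eq_measure_ran (h : Ergodic T₀ μ) {Φ : Set (X × X)} (hΦ : MeasurableSet Φ)
    (hR : ∀ x y, (x, y) ∈ Φ → y ∈ orb T₀ x)
    (hf : ∀ x y y', (x, y) ∈ Φ → (x, y') ∈ Φ → y = y')
    (hi : ∀ x x' y, (x, y) ∈ Φ → (x', y) ∈ Φ → x = x') :
    μ {x | ∃ y, (x, y) ∈ Φ} = μ {y | ∃ x, (x, y) ∈ Φ} := by
  let e : ℕ ≃ ℤ := (Denumerable.eqv ℤ).symm
  let C' : ℕ → Set X := fun k => {x | (x, tau T₀ (e k) x) ∈ Φ}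
  have hC' : ∀ k, MeasurableSet (C' k) := fun k =>
    hΦ.preimage (measurable_id.prodMk (measurable_tau T₀ (e k)))
  let C : ℕ → Set X := disjointed C'
  have hC : ∀ k, MeasurableSet (C k) := fun k => MeasurableSet.disjointed hC' k
  have hCC' : ∀ k, C k ⊆ C' k := fun k => disjointed_subset C' k
  have hdom : {x | ∃ y, (x, y) ∈ Φ} = ⋃ k, C k := by
    rw [show (⋃ k, C k) = ⋃ k, C' k from iUnion_disjointed]
    ext x
    simp only [Set.mem_ofPred_eq, Set.mem_iUnion, C']
    constructor
    · rintro ⟨y, hy⟩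
      obtain ⟨n, hn⟩ := hR x y hy
      refine ⟨e.symm n, ?_⟩
      simp only [Equiv.apply_symm_apply]
      rw [show tau T₀ n x = y from hn]; exact hy
    · rintro ⟨k, hk⟩
      exact ⟨_, hk⟩
  have hran : {y | ∃ x, (x, y) ∈ Φ} = ⋃ k, (tau T₀ (-(e k))) ⁻¹' (C k) := by
    ext y
    simp only [Set.mem_ofPred_eq, Set.mem_iUnion, Set.mem_preimage]
    constructor
    · rintro ⟨x, hx⟩
      have hx' : x ∈ ⋃ k, C k := by rw [← hdom]; exact ⟨y, hx⟩
      obtain ⟨k, hk⟩ := Set.mem_iUnion.1 hx'
      refine ⟨k, ?_⟩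
      have : y = tau T₀ (e k) x := hf x _ _ hx (hCC' k hk)
      rw [this, tau_neg_tau]; exact hk
    · rintro ⟨k, hk⟩
      have := hCC' k hk
      simp only [Set.mem_ofPred_eq, C'] at this
      rw [tau_tau_neg] at this
      exact ⟨_, this⟩
  rw [hdom, hran, measure_iUnion (disjoint_disjointed C') hC, measure_iUnion]
  · congr 1
    funext k
    exact ((mp_tau h _).measure_preimage (hC k).nullMeasurableSet).symm
  · intro k l hkl
    rw [Function.onFun, Set.disjoint_left]
    intro y hk hl
    simp only [Set.mem_preimage] at hk hl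
    have h1 := hCC' k hk
    have h2 := hCC' l hl
    simp only [Set.mem_ofPred_eq, C'] at h1 h2
    rw [tau_tau_neg] at h1 h2
    have h3 := hi _ _ _ h1 h2
    have h4 := disjoint_disjointed C' hkl
    rw [Function.onFun, Set.disjoint_left] at h4
    exact h4 hk (h3 ▸ hl)
  · exact fun k => (hC k).preimage (measurable_tau T₀ _)

variable [StandardBorelSpace X]

theorem PreFull.measurePreserving (S : PreFull h) : MeasurePreserving (S.1 : X → X) μ μ := by
  refine ⟨S.measurable, ?_⟩
  ext A hA
  rw [Measure.map_apply S.measurable hA]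
  have hΦ : MeasurableSet {z : X × X | z.2 = S.1 z.1 ∧ z.2 ∈ A} :=
    (measurableSet_eq_fun measurable_snd (S.measurable.comp measurable_fst)).inter
      (measurable_snd hA)
  have key := measure_dom_eq_measure_ran (μ := μ) h hΦ
    (by rintro x y ⟨h1, -⟩; simp only at h1; rw [h1]; exact S.mem_orb x)
    (by rintro x y y' ⟨h1, -⟩ ⟨h2, -⟩; simp only at h1 h2; rw [h1, h2])
    (by rintro x x' y ⟨h1, -⟩ ⟨h2, -⟩; simp only at h1 h2; exact S.1.injective (h1 ▸ h2))
  convert key using 2
  · ext x; simp
  · ext y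
    simp only [Set.mem_ofPred_eq]
    constructor
    · intro hy
      exact ⟨S.1.symm y, by simp, hy⟩
    · rintro ⟨x, -, hy⟩
      exact hy

end basic

end PartA

section PartB

variable {X : Type*} [MeasurableSpace X] [StandardBorelSpace X]
variable {μ : Measure X} [IsProbabilityMeasure μ] {T₀ : X ≃ᵐ X} {h : Ergodic T₀ μ}

/-- The uniform pseudometric `d(S, T) = μ {x | S x ≠ T x}` on the representatives. -/
noncomputable instance : PseudoMetricSpace (PreFull h) where
  dist S T := μ.real {x | S.1 x ≠ T.1 x}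
  dist_self S := by simp
  dist_comm S T := by simp only [ne_comm]
  dist_triangle S T R := by
    refine le_trans (measureReal_mono ?_) (measureReal_union_le _ _)
    intro x hx
    simp only [Set.mem_ofPred_eq, Set.mem_union] at hx ⊢
    by_contra hcon
    push Not at hcon
    exact hx (hcon.1.trans hcon.2)

theorem PreFull.dist_def (S T : PreFull h) : dist S T = μ.real {x | S.1 x ≠ T.1 x} := rfl

theorem PreFull.measurableSet_ne (S T : PreFull h) : MeasurableSet {x | S.1 x ≠ T.1 x} :=
  (measurableSet_eq_fun S.measurable T.measurable).compl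

theorem PreFull.dist_mul_left' (A S T : PreFull h) : dist (A * S) (A * T) = dist S T := by
  simp only [PreFull.dist_def]
  congr 1
  ext x
  simp

theorem PreFull.dist_mul_right' (A S T : PreFull h) : dist (S * A) (T * A) = dist S T := by
  simp only [PreFull.dist_def]
  rw [← A.measurePreserving.measureReal_preimage (S.measurableSet_ne T).nullMeasurableSet]
  rfl

theorem PreFull.dist_inv_inv' (S T : PreFull h) : dist S⁻¹ T⁻¹ = dist S T := by
  rw [← PreFull.dist_mul_left' S, ← PreFull.dist_mul_right' T]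
  simp [mul_assoc, dist_comm]

instance : IsTopologicalGroup (PreFull h) where
  continuous_mul := by
    rw [Metric.continuous_iff]
    rintro ⟨a, b⟩ ε hε
    refine ⟨ε / 2, by positivity, ?_⟩
    rintro ⟨c, d⟩ hcd
    rw [Prod.dist_eq, max_lt_iff] at hcd
    calc dist (c * d) (a * b) ≤ dist (c * d) (a * d) + dist (a * d) (a * b) := dist_triangle _ _ _
      _ = dist c a + dist d b := by rw [PreFull.dist_mul_right', PreFull.dist_mul_left']
      _ < ε := by
        have := hcd.1; have := hcd.2
        simp only at *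
        linarith
  continuous_inv := by
    rw [Metric.continuous_iff]
    intro a ε hε
    exact ⟨ε, hε, fun b hb => by rwa [PreFull.dist_inv_inv']⟩

/-- The full group `[T₀]` with the uniform metric: representatives at distance zero
(that is, equal almost everywhere) are identified. -/
abbrev FullGroup {X : Type*} [MeasurableSpace X] [StandardBorelSpace X] {μ : Measure X}
    [IsProbabilityMeasure μ] {T₀ : X ≃ᵐ X} (h : Ergodic T₀ μ) : Type _ :=
  SeparationQuotient (PreFull h)

/-- Sanity check: the metric of the full group is `d(S, T) = μ {x | S x ≠ T x}`. -/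
theorem FullGroup.dist_mk (S T : PreFull h) :
    dist (SeparationQuotient.mk S : FullGroup h) (SeparationQuotient.mk T : FullGroup h) =
      μ.real {x | S.1 x ≠ T.1 x} :=
  SeparationQuotient.dist_mk S T

/-- Sanity check: two representatives are identified if and only if they agree almost
everywhere. -/
theorem FullGroup.mk_eq_mk_iff (S T : PreFull h) :
    (SeparationQuotient.mk S : FullGroup h) = (SeparationQuotient.mk T : FullGroup h) ↔
      ∀ᵐ x ∂μ, S.1 x = T.1 x := by
  rw [SeparationQuotient.mk_eq_mk, Metric.inseparable_iff, PreFull.dist_def,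
    measureReal_eq_zero_iff]
  rfl

/-- Sanity check: the multiplication is the composition of maps. -/
theorem FullGroup.mk_mul_mk (S T : PreFull h) :
    (SeparationQuotient.mk S : FullGroup h) * (SeparationQuotient.mk T : FullGroup h) =
      SeparationQuotient.mk (S * T) ∧ ∀ x, (S * T).1 x = S.1 (T.1 x) :=
  ⟨rfl, fun _ => rfl⟩

/-- The conjugacy relation of the full group. -/
def conjRel (h : Ergodic T₀ μ) : Set (FullGroup h × FullGroup h) :=
  {p | ∃ U : FullGroup h, p.1 = U * p.2 * U⁻¹}

end PartB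

end Pool.Agent.Helper212.ConjBorel
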