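import Mathlib
import Pool.Agent.Helper212.FullDefs

/-!
# Conjugacy in the full group of an ergodic automorphism is a Borel relation

Let `T₀` be an ergodic automorphism of a standard atomless probability space `(X, μ)` and let
`[T₀]` be its full group with the uniform metric. We show that
`{(S, T) | ∃ U ∈ [T₀], S = U T U⁻¹}` is a Borel subset of `[T₀] × [T₀]`.

Outline of the proof.

* Let `M` be the usual measure on the orbit relation `R` of `T₀`. The graph of `g ∈ [T₀]` gives a
  unit vector `ev g` of `L²(M)`, and `S × T` acts on `L²(M)` by an isometry.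
  The averages of `ev g` under that isometry are continuous in `(S, T)` and converge, so the limit
  `p_g(S, T)`, the projection onto the invariant vectors, depends on `(S, T)` in a Borel way.
* The set `D_g = {p_g > 1/2}` is (by a majority vote) the graph of an injection between
  subsets of `X` which intertwines `S` and `T`, and for `g` in a countable dense set these graphs
  cover the graph of every intertwiner `U ∈ [T₀]`.
* A greedy matching argument shows that `S` and `T` are conjugate in `[T₀]` if and only if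
  `μ A = μ B` whenever `A`, `B` are matched by all the sets `D_g`. By duality this is the
  statement that `(1, -1)` lies in the closed span of an explicit countable family of
  vectors of `L²(μ) ⊕ L²(μ)` depending on `(S, T)` in a Borel way, which is a Borel condition.
-/

open MeasureTheory Filter Topology

set_option linter.unusedSectionVars false

namespace Pool.Agent.Helper212.ConjBorel

section PartB

variable {X : Type*} [MeasurableSpace X] [StandardBorelSpace X]
variable {μ : Measure X} [IsProbabilityMeasure μ] {T₀ : X ≃ᵐ X} {h : Ergodic T₀ μ}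

theorem ae_aperiodic [NullSingletonClass μ] (h : Ergodic T₀ μ) :
    ∀ᵐ x ∂μ, ∀ n : ℤ, tau T₀ n x = x → n = 0 := by
  have key : ∀ m : ℕ, ∀ᵐ x ∂μ, tau T₀ ((m : ℤ) + 1) x ≠ x := by
    intro m
    let P : Set X := {x | tau T₀ ((m : ℤ) + 1) x = x}
    have hP : MeasurableSet P := measurableSet_eq_fun (measurable_tau T₀ _) measurable_id
    have hPinv : T₀ ⁻¹' P = P := by
      ext x
      simp only [Set.mem_preimage, Set.mem_ofPred_eq, P]
      rw [← tau_one, ← tau_add, show ((m : ℤ) + 1 + 1) = 1 + (m + 1) by ring, tau_add]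
      exact (tau_injective T₀ 1).eq_iff
    rcases h.toPreErgodic.ae_mem_or_ae_notMem hP hPinv with hu | he
    · exfalso
      let g : X → ℝ := fun x => (Finset.range (m + 1)).sup' ⟨0, by simp⟩
        (fun k => embeddingReal X (tau T₀ (k : ℤ) x))
      have hg : Measurable g := by
        have := Finset.measurable_sup' (s := Finset.range (m + 1)) ⟨0, by simp⟩
          (f := fun k x => embeddingReal X (tau T₀ ((k : ℕ) : ℤ) x))
          (fun k _ => (measurable_embeddingReal X).comp (measurable_tau T₀ _))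
        convert this using 1
        funext x
        simp only [g, Finset.sup'_apply]
      have hgT : g ∘ T₀ =ᵐ[μ] g := by
        filter_upwards [hu] with x hx
        simp only [Set.mem_ofPred_eq, P] at hx
        simp only [Function.comp, g]
        apply le_antisymm
        · refine Finset.sup'_le _ _ ?_
          intro k hk
          rw [Finset.mem_range] at hk
          rcases Nat.lt_or_ge k m with hkm | hkm
          · refine (le_of_eq ?_).trans (Finset.le_sup' _ (b := k + 1)
              (by rw [Finset.mem_range]; omega))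
            rw [← tau_one, ← tau_add]
            congr 2
          · have hkm' : k = m := by omega
            subst hkm'
            refine (le_of_eq ?_).trans (Finset.le_sup' _ (b := 0) (by simp))
            rw [← tau_one, ← tau_add, hx]
            simp [tau_zero]
        · refine Finset.sup'_le _ _ ?_
          intro k hk
          rcases Nat.eq_zero_or_pos k with rfl | hk0
          · refine (le_of_eq ?_).trans (Finset.le_sup' _ (b := m) (by simp))
            rw [← tau_one, ← tau_add, hx]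
            simp [tau_zero]
          · refine (le_of_eq ?_).trans (Finset.le_sup' _ (b := k - 1)
              (by rw [Finset.mem_range] at hk ⊢; omega))
            rw [← tau_one, ← tau_add]
            congr 2
            push_cast [hk0]
            ring
      obtain ⟨c, hc⟩ := h.ae_eq_const_of_ae_eq_comp_ae hg.aestronglyMeasurable hgT
      have hsub : (embeddingReal X ⁻¹' {c}).Subsingleton := by
        intro a ha b hb
        exact (measurableEmbedding_embeddingReal X).injective (ha.trans hb.symm)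
      have hnull : μ (embeddingReal X ⁻¹' {c}) = 0 := hsub.measure_zero μ
      have hnull' : ∀ k : ℕ, ∀ᵐ x ∂μ, embeddingReal X (tau T₀ (k : ℤ) x) ≠ c := by
        intro k
        have h1 : ∀ᵐ x ∂μ, x ∉ embeddingReal X ⁻¹' {c} := by
          rw [ae_iff]; simp only [not_not]; exact hnull
        exact (mp_tau h k).quasiMeasurePreserving.ae h1
      rw [← ae_all_iff] at hnull'
      have : ∀ᵐ x ∂μ, False := by
        filter_upwards [hc, hnull'] with x hx1 hx2
        obtain ⟨k, -, hk⟩ := Finset.exists_mem_eq_sup' (s := Finset.range (m + 1)) ⟨0, by simp⟩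
          (fun k => embeddingReal X (tau T₀ ((k : ℕ) : ℤ) x))
        apply hx2 k
        rw [← hk]
        exact hx1
      simp at this
      exact IsProbabilityMeasure.ne_zero μ this
    · exact he
  rw [← ae_all_iff] at key
  filter_upwards [key] with x hx n hn
  by_contra hn0
  rcases lt_or_gt_of_ne hn0 with hneg | hpos
  · apply hx (-n - 1).toNat
    rw [Int.toNat_of_nonneg (by omega)]
    rw [show (-n - 1 + 1) = -n by ring]
    conv_lhs => rw [← hn]
    exact tau_neg_tau T₀ n x
  · apply hx (n - 1).toNat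
    rw [Int.toNat_of_nonneg (by omega)]
    rw [show (n - 1 + 1) = n by ring]
    exact hn

end PartB

section PartC

variable {X : Type*} [MeasurableSpace X] [StandardBorelSpace X]
variable {μ : Measure X} [IsProbabilityMeasure μ] {T₀ : X ≃ᵐ X} {h : Ergodic T₀ μ}

/-- The map `x ↦ (x, T₀ⁿ x)`. -/
def jn (T₀ : X ≃ᵐ X) (n : ℤ) : X → X × X := fun x => (x, tau T₀ n x)

theorem measurable_jn (n : ℤ) : Measurable (jn T₀ n) :=
  measurable_id.prodMk (measurable_tau T₀ n)

/-- The usual measure on the orbit equivalence relation, as a measure on `X × X`. -/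
noncomputable def relMeasure (μ : Measure X) (T₀ : X ≃ᵐ X) : Measure (X × X) :=
  Measure.sum (fun n : ℤ => μ.map (jn T₀ n))

instance : SFinite (relMeasure μ T₀) := by
  unfold relMeasure
  have : ∀ n : ℤ, IsFiniteMeasure (μ.map (jn T₀ n)) := fun n => inferInstance
  infer_instance

theorem relMeasure_apply {W : Set (X × X)} (hW : MeasurableSet W) :
    relMeasure μ T₀ W = ∑' n : ℤ, μ {x | (x, tau T₀ n x) ∈ W} := by
  rw [relMeasure, Measure.sum_apply _ hW]
  congr 1
  funext n
  rw [Measure.map_apply (measurable_jn n) hW]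
  rfl

theorem relMeasure_apply' {W : Set (X × X)} (hW : MeasurableSet W) :
    relMeasure μ T₀ W = ∫⁻ x, ∑' n : ℤ, W.indicator 1 (x, tau T₀ n x) ∂μ := by
  rw [relMeasure_apply hW, lintegral_tsum]
  · congr 1
    funext n
    have : (fun x => W.indicator (1 : X × X → ENNReal) (x, tau T₀ n x)) =
        {x | (x, tau T₀ n x) ∈ W}.indicator 1 := by
      funext x
      by_cases hx : (x, tau T₀ n x) ∈ W
      · rw [Set.indicator_of_mem hx, Set.indicator_of_mem (by exact hx)]; rfl
      · rw [Set.indicator_of_notMem hx, Set.indicator_of_notMem (by exact hx)]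
    rw [this, lintegral_indicator_one]
    exact hW.preimage (measurable_jn n)
  · intro n
    exact ((measurable_one.indicator hW).comp (measurable_jn n)).aemeasurable

theorem ae_of_relMeasure {P : X × X → Prop} (hP : ∀ᵐ z ∂(relMeasure μ T₀), P z) (n : ℤ) :
    ∀ᵐ x ∂μ, P (x, tau T₀ n x) := by
  rw [relMeasure, Measure.ae_sum_iff] at hP
  exact ae_of_ae_map (measurable_jn n).aemeasurable (hP n)

theorem ae_of_relMeasure' {P : X × X → Prop} (hP : ∀ᵐ z ∂(relMeasure μ T₀), P z) :
    ∀ᵐ x ∂μ, ∀ y ∈ orb T₀ x, P (x, y) := by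
  have := ae_all_iff.2 (fun n => ae_of_relMeasure (μ := μ) (T₀ := T₀) hP n)
  filter_upwards [this] with x hx
  rintro y ⟨n, rfl⟩
  exact hx n

variable [NullSingletonClass μ]

theorem orb_injective {x : X} (hx : ∀ n : ℤ, tau T₀ n x = x → n = 0) :
    Function.Injective (fun n : ℤ => tau T₀ n x) := by
  intro m n hmn
  simp only at hmn
  have : tau T₀ (-n + m) x = x := by
    rw [tau_add, hmn, tau_neg_tau]
  have := hx _ this
  omega

theorem relMeasure_graph_inter (g : PreFull h) {W : Set (X × X)} (hW : MeasurableSet W) :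
    relMeasure μ T₀ ({z | z.2 = g.1 z.1} ∩ W) = μ {x | (x, g.1 x) ∈ W} := by
  have hg : MeasurableSet {z : X × X | z.2 = g.1 z.1} :=
    measurableSet_eq_fun measurable_snd (g.measurable.comp measurable_fst)
  rw [relMeasure_apply' (hg.inter hW)]
  have hW' : MeasurableSet {x | (x, g.1 x) ∈ W} :=
    hW.preimage (measurable_id.prodMk g.measurable)
  rw [← lintegral_indicator_one hW']
  apply lintegral_congr_ae
  filter_upwards [ae_aperiodic h] with x hx
  have hinj := orb_injective hx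
  obtain ⟨m, hm⟩ := g.mem_orb x
  simp only at hm
  rw [tsum_eq_single m]
  · by_cases hxW : (x, g.1 x) ∈ W
    · rw [Set.indicator_of_mem, Set.indicator_of_mem (by exact hxW)]
      · rfl
      · exact ⟨hm, by rw [hm]; exact hxW⟩
    · rw [Set.indicator_of_notMem, Set.indicator_of_notMem (by exact hxW)]
      rintro ⟨-, h2⟩
      exact hxW (by rw [← hm]; exact h2)
  · intro n hn
    apply Set.indicator_of_notMem
    rintro ⟨h1, -⟩
    simp only [Set.mem_ofPred_eq] at h1
    exact hn (hinj (h1.trans hm.symm))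

theorem measurePreserving_prodMap (S T : PreFull h) :
    MeasurePreserving (Prod.map S.1 T.1) (relMeasure μ T₀) (relMeasure μ T₀) := by
  have hm : Measurable (Prod.map S.1 T.1) := S.measurable.prodMap T.measurable
  refine ⟨hm, ?_⟩
  ext W hW
  rw [Measure.map_apply hm hW, relMeasure_apply' (hW.preimage hm), relMeasure_apply' hW]
  have hmeas : Measurable (fun x => ∑' n : ℤ, W.indicator (1 : X × X → ENNReal) (x, tau T₀ n x)) :=
    Measurable.tsum fun n => (measurable_one.indicator hW).comp (measurable_jn n)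
  rw [← S.measurePreserving.lintegral_comp hmeas]
  apply lintegral_congr_ae
  filter_upwards [ae_aperiodic h, S.measurePreserving.quasiMeasurePreserving.ae (ae_aperiodic h)]
    with x hx hSx
  have h1 : Function.Injective (fun n : ℤ => T.1 (tau T₀ n x)) :=
    T.1.injective.comp (orb_injective hx)
  have h2 : Function.Injective (fun n : ℤ => tau T₀ n (S.1 x)) := orb_injective hSx
  have hr : Set.range (fun n : ℤ => T.1 (tau T₀ n x)) =
      Set.range (fun n : ℤ => tau T₀ n (S.1 x)) := by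
    have e1 : Set.range (fun n : ℤ => tau T₀ n (S.1 x)) = orb T₀ x := S.orb_apply x
    rw [e1]
    ext y
    constructor
    · rintro ⟨n, rfl⟩
      exact mem_orb_trans ⟨n, rfl⟩ (T.mem_orb _)
    · intro hy
      have : (T⁻¹).1 y ∈ orb T₀ x := mem_orb_trans hy ((T⁻¹).mem_orb y)
      obtain ⟨n, hn⟩ := this
      refine ⟨n, ?_⟩
      simp only at hn ⊢
      rw [hn]
      simp
  have k1 := tsum_range (f := fun y => W.indicator (1 : X × X → ENNReal) (S.1 x, y)) h1
  have k2 := tsum_range (f := fun y => W.indicator (1 : X × X → ENNReal) (S.1 x, y)) h2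
  rw [hr] at k1
  rw [k2] at k1
  rw [k1]
  rfl

end PartC

section PartD

variable {X : Type*} [MeasurableSpace X] [StandardBorelSpace X]
variable {μ : Measure X} [IsProbabilityMeasure μ] {T₀ : X ≃ᵐ X} {h : Ergodic T₀ μ}

/-- The graph of an element. -/
def grph (g : PreFull h) : Set (X × X) := {z | z.2 = g.1 z.1}

theorem measurableSet_grph (g : PreFull h) : MeasurableSet (grph g) :=
  measurableSet_eq_fun measurable_snd (g.measurable.comp measurable_fst)

variable [NullSingletonClass μ]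

theorem relMeasure_grph (g : PreFull h) : relMeasure μ T₀ (grph g) = 1 := by
  have := relMeasure_graph_inter g (MeasurableSet.univ)
  simpa [grph] using this

theorem relMeasure_grph_ne_top (g : PreFull h) : relMeasure μ T₀ (grph g) ≠ ⊤ := by
  rw [relMeasure_grph]; exact ENNReal.one_ne_top

/-- The Hilbert space of square integrable functions on the orbit relation. -/
abbrev HS (μ : Measure X) (T₀ : X ≃ᵐ X) : Type _ := Lp ℝ 2 (relMeasure μ T₀)

/-- The indicator function of the graph of `g`, as a vector. -/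
noncomputable def ev (g : PreFull h) : HS μ T₀ :=
  indicatorConstLp 2 (measurableSet_grph g) (relMeasure_grph_ne_top g) (1 : ℝ)

theorem dist_ev (g g' : PreFull h) : dist (ev g) (ev g') = Real.sqrt (2 * dist g g') := by
  have h1 : ∀ a b : PreFull h, relMeasure μ T₀ (grph a \ grph b) = μ {x | a.1 x ≠ b.1 x} := by
    intro a b
    have := relMeasure_graph_inter a (measurableSet_grph b).compl
    rw [Set.sdiff_eq]
    exact this
  have hfin : ∀ a b : PreFull h, relMeasure μ T₀ (grph a \ grph b) ≠ ⊤ := by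
    intro a b
    rw [h1]
    exact measure_ne_top _ _
  have h2 : (relMeasure μ T₀).real (symmDiff (grph g) (grph g')) = 2 * dist g g' := by
    change (relMeasure μ T₀).real ((grph g \ grph g') ∪ (grph g' \ grph g)) = _
    rw [measureReal_union (h₁ := hfin g g') (h₂ := hfin g' g)]
    · rw [measureReal_def, measureReal_def]
      rw [h1, h1, two_mul]
      congr 1
      rw [dist_comm]
      rfl
    · exact disjoint_sdiff_sdiff
    · exact (measurableSet_grph g').diff (measurableSet_grph g)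
  rw [ev, ev, dist_indicatorConstLp_eq_norm, norm_indicatorConstLp (by simp) (by simp), h2,
    Real.sqrt_eq_rpow]
  simp

theorem ev_congr {g g' : PreFull h} (hgg : dist g g' = 0) : ev g = ev g' := by
  rw [← dist_eq_zero, dist_ev, hgg]
  simp

theorem continuous_ev : Continuous (ev : PreFull h → HS μ T₀) := by
  rw [continuous_iff_continuousAt]
  intro g
  rw [ContinuousAt, tendsto_iff_dist_tendsto_zero]
  simp_rw [dist_ev]
  have : Tendsto (fun x : PreFull h => Real.sqrt (2 * dist x g)) (𝓝 g)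
      (𝓝 (Real.sqrt (2 * dist g g))) := by
    apply Continuous.tendsto
    fun_prop
  simpa using this

/-- The Koopman operator of `S × T` on the orbit relation. -/
noncomputable def koop (S T : PreFull h) : HS μ T₀ →ₗᵢ[ℝ] HS μ T₀ :=
  Lp.compMeasurePreservingₗᵢ ℝ (Prod.map S.1 T.1) (measurePreserving_prodMap S T)

theorem koop_ev (S T g : PreFull h) : koop S T (ev g) = ev (T⁻¹ * g * S) := by
  change Lp.compMeasurePreserving (Prod.map S.1 T.1) (measurePreserving_prodMap S T) (ev g) = _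
  rw [ev, Lp.indicatorConstLp_compMeasurePreserving, ev]
  congr 1
  ext z
  simp only [grph, Set.mem_preimage, Set.mem_ofPred_eq, Prod.map_fst, Prod.map_snd,
    PreFull.mul_val, PreFull.inv_val, Equiv.Perm.mul_apply]
  rw [Equiv.Perm.eq_inv_iff_eq]

theorem koop_iterate_ev (S T g : PreFull h) (k : ℕ) :
    (koop S T)^[k] (ev g) = ev ((T⁻¹) ^ k * g * S ^ k) := by
  induction k with
  | zero => simp
  | succ k ih =>
    rw [Function.iterate_succ_apply', ih, koop_ev]
    congr 1
    rw [pow_succ', pow_succ]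
    group

/-- The Cesaro averages of the orbit of `ev g` under the Koopman operator. -/
noncomputable def avg (g : PreFull h) (N : ℕ) (p : PreFull h × PreFull h) : HS μ T₀ :=
  (N : ℝ)⁻¹ • ∑ k ∈ Finset.range N, ev ((p.2⁻¹) ^ k * g * p.1 ^ k)

theorem avg_eq (g : PreFull h) (N : ℕ) (S T : PreFull h) :
    avg g N (S, T) = birkhoffAverage ℝ (koop S T) _root_.id N (ev g) := by
  simp only [avg, birkhoffAverage, birkhoffSum, id, koop_iterate_ev]

theorem continuous_avg (g : PreFull h) (N : ℕ) :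
    Continuous (avg g N : PreFull h × PreFull h → HS μ T₀) := by
  unfold avg
  refine Continuous.const_smul (continuous_finsetSum _ fun k _ => ?_) (N : ℝ)⁻¹
  exact continuous_ev.comp (((continuous_snd.inv.pow k).mul continuous_const).mul
    (continuous_fst.pow k))

/-- The projection onto the vectors fixed by the Koopman operator. -/
noncomputable def prj (S T : PreFull h) (x : HS μ T₀) : HS μ T₀ :=
  (((koop S T).toContinuousLinearMap).eqLocus
    (1 : HS μ T₀ →L[ℝ] HS μ T₀)).orthogonalProjectionOnto x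

theorem tendsto_avg (g : PreFull h) (S T : PreFull h) :
    Tendsto (fun N => avg g N (S, T)) atTop (𝓝 (prj S T (ev g))) := by
  simp_rw [avg_eq]
  exact ((koop S T).toContinuousLinearMap).tendsto_birkhoffAverage_orthogonalProjection
    (koop S T).norm_toContinuousLinearMap_le (ev g)

theorem dist_prj_le (S T : PreFull h) (x y : HS μ T₀) :
    dist (prj S T x) (prj S T y) ≤ dist x y := by
  unfold prj
  rw [dist_eq_norm, ← Submodule.coe_sub, ← map_sub, dist_eq_norm]
  exact ((((koop S T).toContinuousLinearMap).eqLocus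
    (1 : HS μ T₀ →L[ℝ] HS μ T₀))).norm_orthogonalProjectionOnto_apply_le (x - y)

theorem prj_of_fixed (S T : PreFull h) {x : HS μ T₀} (hx : koop S T x = x) :
    prj S T x = x := by
  unfold prj
  have hmem : x ∈ (((koop S T).toContinuousLinearMap).eqLocus (1 : HS μ T₀ →L[ℝ] HS μ T₀)) := hx
  exact congrArg Subtype.val (Submodule.orthogonalProjectionOnto_mem_subspace_eq_self
    (⟨x, hmem⟩ : (((koop S T).toContinuousLinearMap).eqLocus (1 : HS μ T₀ →L[ℝ] HS μ T₀))))

/-- The pointwise version of the averages. -/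
noncomputable def alpha (g : PreFull h) (S T : PreFull h) (N : ℕ) (z : X × X) : ℝ :=
  (N : ℝ)⁻¹ * ∑ k ∈ Finset.range N, (grph ((T⁻¹) ^ k * g * S ^ k)).indicator 1 z

theorem avg_ae (g : PreFull h) (S T : PreFull h) (N : ℕ) :
    (avg g N (S, T) : X × X → ℝ) =ᵐ[relMeasure μ T₀] alpha g S T N := by
  unfold avg
  refine (Lp.coeFn_smul _ _).trans ?_
  have h1 := Lp.coeFn_finsetSum (Finset.range N)
    (fun k => ev ((T⁻¹) ^ k * g * S ^ k) : ℕ → HS μ T₀)
  have h2 : ∀ᵐ z ∂(relMeasure μ T₀), ∀ k : ℕ, (ev ((T⁻¹) ^ k * g * S ^ k) : X × X → ℝ) z =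
      (grph ((T⁻¹) ^ k * g * S ^ k)).indicator 1 z := by
    rw [ae_all_iff]
    intro k
    exact indicatorConstLp_coeFn
  filter_upwards [h1, h2] with z hz1 hz2
  simp only [Pi.smul_apply, smul_eq_mul, alpha]
  rw [hz1]
  simp only [Finset.sum_apply, hz2]

theorem exists_subseq (g S T : PreFull h) : ∃ ns : ℕ → ℕ, StrictMono ns ∧
    ∀ᵐ z ∂(relMeasure μ T₀), Tendsto (fun j => alpha g S T (ns j) z) atTop
      (𝓝 ((prj S T (ev g) : HS μ T₀) z)) := by
  have h1 := tendstoInMeasure_of_tendsto_Lp (tendsto_avg g S T)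
  obtain ⟨ns, hns, hlim⟩ := h1.exists_seq_tendsto_ae
  refine ⟨ns, hns, ?_⟩
  have h2 : ∀ᵐ z ∂(relMeasure μ T₀), ∀ j : ℕ, (avg g (ns j) (S, T) : X × X → ℝ) z =
      alpha g S T (ns j) z := by
    rw [ae_all_iff]
    intro j
    exact avg_ae g S T (ns j)
  filter_upwards [hlim, h2] with z hz1 hz2
  simp_rw [← hz2]
  exact hz1

end PartD

section PartE

variable {X : Type*} [MeasurableSpace X]

/-- A measurable matching (an injection from a subset of `X` into `X`), with graph `Φ` inside the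
orbit relation of `T₀`, intertwining `S` and `T`. -/
structure IsPart (T₀ : X ≃ᵐ X) (S T : Equiv.Perm X) (Φ : Set (X × X)) : Prop where
  meas : MeasurableSet Φ
  orb : ∀ x y, (x, y) ∈ Φ → y ∈ orb T₀ x
  func : ∀ x y y', (x, y) ∈ Φ → (x, y') ∈ Φ → y = y'
  inj : ∀ x x' y, (x, y) ∈ Φ → (x', y) ∈ Φ → x = x'
  inv : ∀ x y, (x, y) ∈ Φ ↔ (S x, T y) ∈ Φ

/-- Domain of a relation. -/
def rdom (Φ : Set (X × X)) : Set X := {x | ∃ y, (x, y) ∈ Φ}

/-- Range of a relation. -/
def rran (Φ : Set (X × X)) : Set X := {y | ∃ x, (x, y) ∈ Φ}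

variable {T₀ : X ≃ᵐ X} {S T : Equiv.Perm X}

theorem measurableSet_exists_orb {Φ : Set (X × X)} (hm : MeasurableSet Φ)
    (ho : ∀ x y, (x, y) ∈ Φ → y ∈ orb T₀ x) {B : Set X} (hB : MeasurableSet B) :
    MeasurableSet {x | ∃ y ∈ B, (x, y) ∈ Φ} := by
  have : {x | ∃ y ∈ B, (x, y) ∈ Φ} =
      ⋃ n : ℤ, (tau T₀ n ⁻¹' B ∩ {x | (x, tau T₀ n x) ∈ Φ}) := by
    ext x
    simp only [Set.mem_ofPred_eq, Set.mem_iUnion, Set.mem_inter_iff, Set.mem_preimage]
    constructor
    · rintro ⟨y, hyB, hy⟩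
      obtain ⟨n, rfl⟩ := ho x y hy
      exact ⟨n, hyB, hy⟩
    · rintro ⟨n, h1, h2⟩
      exact ⟨_, h1, h2⟩
  rw [this]
  exact MeasurableSet.iUnion fun n => ((measurable_tau T₀ n) hB).inter
    (hm.preimage (measurable_id.prodMk (measurable_tau T₀ n)))

theorem measurableSet_exists_orb' {Φ : Set (X × X)} (hm : MeasurableSet Φ)
    (ho : ∀ x y, (x, y) ∈ Φ → y ∈ orb T₀ x) {A : Set X} (hA : MeasurableSet A) :
    MeasurableSet {y | ∃ x ∈ A, (x, y) ∈ Φ} := by
  have : {y | ∃ x ∈ A, (x, y) ∈ Φ} =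
      ⋃ n : ℤ, (tau T₀ n ⁻¹' A ∩ {y | (tau T₀ n y, y) ∈ Φ}) := by
    ext y
    simp only [Set.mem_ofPred_eq, Set.mem_iUnion, Set.mem_inter_iff, Set.mem_preimage]
    constructor
    · rintro ⟨x, hxA, hx⟩
      obtain ⟨n, rfl⟩ := mem_orb_symm (ho x y hx)
      exact ⟨n, hxA, hx⟩
    · rintro ⟨n, h1, h2⟩
      exact ⟨_, h1, h2⟩
  rw [this]
  exact MeasurableSet.iUnion fun n => ((measurable_tau T₀ n) hA).inter
    (hm.preimage ((measurable_tau T₀ n).prodMk measurable_id))

theorem IsPart.measurableSet_rdom {Φ : Set (X × X)} (hΦ : IsPart T₀ S T Φ) :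
    MeasurableSet (rdom Φ) := by
  have := measurableSet_exists_orb hΦ.meas hΦ.orb MeasurableSet.univ
  simpa [rdom] using this

theorem IsPart.measurableSet_rran {Φ : Set (X × X)} (hΦ : IsPart T₀ S T Φ) :
    MeasurableSet (rran Φ) := by
  have := measurableSet_exists_orb' hΦ.meas hΦ.orb MeasurableSet.univ
  simpa [rran] using this

theorem IsPart.rdom_inv {Φ : Set (X × X)} (hΦ : IsPart T₀ S T Φ) (x : X) :
    x ∈ rdom Φ ↔ S x ∈ rdom Φ := by
  constructor
  · rintro ⟨y, hy⟩
    exact ⟨T y, (hΦ.inv x y).1 hy⟩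
  · rintro ⟨y, hy⟩
    refine ⟨T.symm y, (hΦ.inv x _).2 ?_⟩
    simpa using hy

theorem IsPart.rran_inv {Φ : Set (X × X)} (hΦ : IsPart T₀ S T Φ) (y : X) :
    y ∈ rran Φ ↔ T y ∈ rran Φ := by
  constructor
  · rintro ⟨x, hx⟩
    exact ⟨S x, (hΦ.inv x y).1 hx⟩
  · rintro ⟨x, hx⟩
    refine ⟨S.symm x, (hΦ.inv _ y).2 ?_⟩
    simpa using hx

theorem isPart_empty : IsPart T₀ S T ∅ where
  meas := MeasurableSet.empty
  orb := by simp
  func := by simp
  inj := by simp
  inv := by simp

/-- The composition `c ∘ b⁻¹ ∘ a` of matchings. -/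
def zig (a b c : Set (X × X)) : Set (X × X) :=
  {z | ∃ y x', (z.1, y) ∈ a ∧ (x', y) ∈ b ∧ (x', z.2) ∈ c}

theorem isPart_zig {a b c : Set (X × X)} (ha : IsPart T₀ S T a) (hb : IsPart T₀ S T b)
    (hc : IsPart T₀ S T c) : IsPart T₀ S T (zig a b c) where
  meas := by
    have : zig a b c = ⋃ k : ℤ, ⋃ l : ℤ, {z | (z.1, tau T₀ k z.1) ∈ a ∧
        (tau T₀ l z.1, tau T₀ k z.1) ∈ b ∧ (tau T₀ l z.1, z.2) ∈ c} := by
      ext z
      simp only [zig, Set.mem_ofPred_eq, Set.mem_iUnion]
      constructor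
      · rintro ⟨y, x', h1, h2, h3⟩
        obtain ⟨k, rfl⟩ := ha.orb _ _ h1
        obtain ⟨l, rfl⟩ := mem_orb_trans (ha.orb _ _ h1) (mem_orb_symm (hb.orb _ _ h2))
        exact ⟨k, l, h1, h2, h3⟩
      · rintro ⟨k, l, h1, h2, h3⟩
        exact ⟨_, _, h1, h2, h3⟩
    rw [this]
    refine MeasurableSet.iUnion fun k => MeasurableSet.iUnion fun l => ?_
    refine MeasurableSet.inter ?_ (MeasurableSet.inter ?_ ?_)
    · exact ha.meas.preimage (measurable_fst.prodMk ((measurable_tau T₀ k).comp measurable_fst))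
    · exact hb.meas.preimage (((measurable_tau T₀ l).comp measurable_fst).prodMk
        ((measurable_tau T₀ k).comp measurable_fst))
    · exact hc.meas.preimage (((measurable_tau T₀ l).comp measurable_fst).prodMk measurable_snd)
  orb := by
    rintro x y ⟨u, v, h1, h2, h3⟩
    exact mem_orb_trans (mem_orb_trans (ha.orb _ _ h1) (mem_orb_symm (hb.orb _ _ h2)))
      (hc.orb _ _ h3)
  func := by
    rintro x y y' ⟨u, v, h1, h2, h3⟩ ⟨u', v', h1', h2', h3'⟩
    have e1 := ha.func _ _ _ h1 h1'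
    subst e1
    have e2 := hb.inj _ _ _ h2 h2'
    subst e2
    exact hc.func _ _ _ h3 h3'
  inj := by
    rintro x x' y ⟨u, v, h1, h2, h3⟩ ⟨u', v', h1', h2', h3'⟩
    have e1 := hc.inj _ _ _ h3 h3'
    subst e1
    have e2 := hb.func _ _ _ h2 h2'
    subst e2
    exact ha.inj _ _ _ h1 h1'
  inv := by
    intro x y
    constructor
    · rintro ⟨u, v, h1, h2, h3⟩
      exact ⟨T u, S v, (ha.inv _ _).1 h1, (hb.inv _ _).1 h2, (hc.inv _ _).1 h3⟩
    · rintro ⟨u, v, h1, h2, h3⟩
      refine ⟨T.symm u, S.symm v, (ha.inv _ _).2 ?_, (hb.inv _ _).2 ?_, (hc.inv _ _).2 ?_⟩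
      · simpa using h1
      · simpa using h2
      · simpa using h3

theorem exists_closed_family (D : ℕ → Set (X × X)) (hD : ∀ i, IsPart T₀ S T (D i)) :
    ∃ w : ℕ → Set (X × X), (∀ n, IsPart T₀ S T (w n)) ∧ (∀ i, ∃ n, w n = D i) ∧
      ∀ a b c, ∃ n, w n = zig (w a) (w b) (w c) := by
  let C : ℕ → Set (Set (X × X)) := fun n => Nat.rec (Set.range D)
    (fun _ F => F ∪ (fun p : Set (X × X) × Set (X × X) × Set (X × X) => zig p.1 p.2.1 p.2.2) ''
      (F ×ˢ F ×ˢ F)) n
  have hC0 : C 0 = Set.range D := rfl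
  have hCs : ∀ n, C (n + 1) = C n ∪
      (fun p : Set (X × X) × Set (X × X) × Set (X × X) => zig p.1 p.2.1 p.2.2) ''
      (C n ×ˢ C n ×ˢ C n) := fun n => rfl
  have hcount : ∀ n, (C n).Countable := by
    intro n
    induction n with
    | zero => rw [hC0]; exact Set.countable_range D
    | succ n ih =>
      rw [hCs]
      exact ih.union ((ih.prod (ih.prod ih)).image _)
  have hpart : ∀ n, ∀ a ∈ C n, IsPart T₀ S T a := by
    intro n
    induction n with
    | zero => rw [hC0]; rintro a ⟨i, rfl⟩; exact hD i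
    | succ n ih =>
      rw [hCs]
      rintro a (ha | ⟨p, ⟨hp1, hp2, hp3⟩, rfl⟩)
      · exact ih a ha
      · exact isPart_zig (ih _ hp1) (ih _ hp2) (ih _ hp3)
  have hmono : Monotone C := by
    refine monotone_nat_of_le_succ fun n => ?_
    rw [hCs]
    exact Set.subset_union_left
  have hU : (⋃ n, C n).Countable := Set.countable_iUnion hcount
  have hne : (⋃ n, C n).Nonempty := ⟨D 0, Set.mem_iUnion.2 ⟨0, ⟨0, rfl⟩⟩⟩
  obtain ⟨w, hw⟩ := hU.exists_eq_range hne
  have hmem : ∀ a, (∃ n, w n = a) ↔ ∃ n, a ∈ C n := by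
    intro a
    have : a ∈ Set.range w ↔ a ∈ ⋃ n, C n := by rw [hw]
    simpa using this
  refine ⟨w, ?_, ?_, ?_⟩
  · intro n
    obtain ⟨m, hm⟩ := (hmem (w n)).1 ⟨n, rfl⟩
    exact hpart m _ hm
  · intro i
    exact (hmem (D i)).2 ⟨0, ⟨i, rfl⟩⟩
  · intro a b c
    obtain ⟨n1, h1⟩ := (hmem (w a)).1 ⟨a, rfl⟩
    obtain ⟨n2, h2⟩ := (hmem (w b)).1 ⟨b, rfl⟩
    obtain ⟨n3, h3⟩ := (hmem (w c)).1 ⟨c, rfl⟩
    refine (hmem _).2 ⟨max n1 (max n2 n3) + 1, ?_⟩
    rw [hCs]
    right
    refine ⟨(w a, w b, w c), ⟨hmono (le_max_left _ _) h1, hmono ?_ h2, hmono ?_ h3⟩, rfl⟩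
    · exact le_trans (le_max_left _ _) (le_max_right _ _)
    · exact le_trans (le_max_right _ _) (le_max_right _ _)

/-- One step of the greedy matching. -/
def gstep (Φ w : Set (X × X)) : Set (X × X) := Φ ∪ {z | z ∈ w ∧ z.1 ∉ rdom Φ ∧ z.2 ∉ rran Φ}

theorem isPart_gstep {Φ w : Set (X × X)} (hΦ : IsPart T₀ S T Φ) (hw : IsPart T₀ S T w) :
    IsPart T₀ S T (gstep Φ w) where
  meas := by
    refine hΦ.meas.union (hw.meas.inter (MeasurableSet.inter ?_ ?_))
    · exact (measurable_fst hΦ.measurableSet_rdom).compl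
    · exact (measurable_snd hΦ.measurableSet_rran).compl
  orb := by
    rintro x y (h1 | ⟨h1, -⟩)
    · exact hΦ.orb _ _ h1
    · exact hw.orb _ _ h1
  func := by
    rintro x y y' (h1 | ⟨h1, h2, h3⟩) (h1' | ⟨h1', h2', h3'⟩)
    · exact hΦ.func _ _ _ h1 h1'
    · exact absurd ⟨y, h1⟩ h2'
    · exact absurd ⟨y', h1'⟩ h2
    · exact hw.func _ _ _ h1 h1'
  inj := by
    rintro x x' y (h1 | ⟨h1, h2, h3⟩) (h1' | ⟨h1', h2', h3'⟩)
    · exact hΦ.inj _ _ _ h1 h1'
    · exact absurd ⟨x, h1⟩ h3'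
    · exact absurd ⟨x', h1'⟩ h3
    · exact hw.inj _ _ _ h1 h1'
  inv := by
    intro x y
    refine or_congr (hΦ.inv x y) ?_
    simp only [Set.mem_ofPred_eq]
    rw [← hw.inv x y, ← hΦ.rdom_inv x, ← hΦ.rran_inv y]

theorem exists_greedy (w : ℕ → Set (X × X)) (hw : ∀ n, IsPart T₀ S T (w n)) :
    ∃ Φ, IsPart T₀ S T Φ ∧ (∀ z ∈ Φ, ∃ n, z ∈ w n) ∧
      ∀ n x y, (x, y) ∈ w n → x ∈ rdom Φ ∨ y ∈ rran Φ := by
  let F : ℕ → Set (X × X) := fun n => Nat.rec ∅ (fun n A => gstep A (w n)) n
  have hF0 : F 0 = ∅ := rfl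
  have hFs : ∀ n, F (n + 1) = gstep (F n) (w n) := fun n => rfl
  have hpart : ∀ n, IsPart T₀ S T (F n) := by
    intro n
    induction n with
    | zero => exact isPart_empty
    | succ n ih => rw [hFs]; exact isPart_gstep ih (hw n)
  have hmono : Monotone F := by
    refine monotone_nat_of_le_succ fun n => ?_
    rw [hFs]
    exact Set.subset_union_left
  refine ⟨⋃ n, F n, ?_, ?_, ?_⟩
  · refine ⟨MeasurableSet.iUnion fun n => (hpart n).meas, ?_, ?_, ?_, ?_⟩
    · intro x y hxy
      obtain ⟨n, hn⟩ := Set.mem_iUnion.1 hxy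
      exact (hpart n).orb _ _ hn
    · intro x y y' h1 h2
      obtain ⟨n, hn⟩ := Set.mem_iUnion.1 h1
      obtain ⟨m, hm⟩ := Set.mem_iUnion.1 h2
      exact (hpart (max n m)).func _ _ _ (hmono (le_max_left _ _) hn) (hmono (le_max_right _ _) hm)
    · intro x x' y h1 h2
      obtain ⟨n, hn⟩ := Set.mem_iUnion.1 h1
      obtain ⟨m, hm⟩ := Set.mem_iUnion.1 h2
      exact (hpart (max n m)).inj _ _ _ (hmono (le_max_left _ _) hn) (hmono (le_max_right _ _) hm)
    · intro x y
      simp only [Set.mem_iUnion]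
      exact exists_congr fun n => (hpart n).inv x y
  · intro z hz
    obtain ⟨n, hn⟩ := Set.mem_iUnion.1 hz
    induction n with
    | zero => simp [hF0] at hn
    | succ n ih =>
      rw [hFs] at hn
      rcases hn with hn | hn
      · exact ih hn
      · exact ⟨n, hn.1⟩
  · intro n x y hxy
    by_cases h1 : x ∈ rdom (F n)
    · left
      obtain ⟨y', hy'⟩ := h1
      exact ⟨y', Set.mem_iUnion.2 ⟨n, hy'⟩⟩
    · by_cases h2 : y ∈ rran (F n)
      · right
        obtain ⟨x', hx'⟩ := h2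
        exact ⟨x', Set.mem_iUnion.2 ⟨n, hx'⟩⟩
      · left
        refine ⟨y, Set.mem_iUnion.2 ⟨n + 1, ?_⟩⟩
        rw [hFs]
        right
        exact ⟨hxy, h1, h2⟩

end PartE

section PartF

variable {X : Type*} [MeasurableSpace X] [StandardBorelSpace X]
variable {μ : Measure X} [IsProbabilityMeasure μ] {T₀ : X ≃ᵐ X} {h : Ergodic T₀ μ}

/-- A matching with conull domain and range extends to an element of the full group. -/
theorem exists_extension (h : Ergodic T₀ μ) {S T : Equiv.Perm X} {Φ : Set (X × X)}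
    (hΦ : IsPart T₀ S T Φ) (hd : μ (rdom Φ)ᶜ = 0) (hr : μ (rran Φ)ᶜ = 0) :
    ∃ U : PreFull h, ∀ᵐ x ∂μ, (x, U.1 x) ∈ Φ := by
  classical
  let N : Set X := ⋃ n : ℤ, tau T₀ n ⁻¹' ((rdom Φ)ᶜ ∪ (rran Φ)ᶜ)
  have hbad : MeasurableSet ((rdom Φ)ᶜ ∪ (rran Φ)ᶜ) :=
    hΦ.measurableSet_rdom.compl.union hΦ.measurableSet_rran.compl
  have hN : MeasurableSet N := MeasurableSet.iUnion fun n => (measurable_tau T₀ n) hbad
  have hN0 : μ N = 0 := by
    rw [measure_iUnion_null_iff]
    intro n
    rw [(mp_tau h n).measure_preimage hbad.nullMeasurableSet]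
    exact measure_union_null hd hr
  have hNorb : ∀ x y, y ∈ orb T₀ x → (x ∈ N ↔ y ∈ N) := by
    have key : ∀ x y, y ∈ orb T₀ x → y ∈ N → x ∈ N := by
      intro x y hxy hy
      obtain ⟨n, hn⟩ := Set.mem_iUnion.1 hy
      obtain ⟨m, rfl⟩ := hxy
      refine Set.mem_iUnion.2 ⟨n + m, ?_⟩
      rw [Set.mem_preimage, tau_add]
      exact hn
    intro x y hxy
    exact ⟨key y x (mem_orb_symm hxy), key x y hxy⟩
  have hself : ∀ x, x ∉ N → x ∈ rdom Φ ∧ x ∈ rran Φ := by
    intro x hx
    by_contra hcon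
    apply hx
    refine Set.mem_iUnion.2 ⟨0, ?_⟩
    rw [Set.mem_preimage, tau_zero]
    by_cases h1 : x ∈ rdom Φ
    · right; exact fun h2 => hcon ⟨h1, h2⟩
    · left; exact h1
  -- the extension
  have hex : ∀ x, ∃ y, (x ∈ N → y = x) ∧ (x ∉ N → (x, y) ∈ Φ) := by
    intro x
    by_cases hx : x ∈ N
    · exact ⟨x, fun _ => rfl, fun h => absurd hx h⟩
    · obtain ⟨y, hy⟩ := (hself x hx).1
      exact ⟨y, fun h => absurd h hx, fun _ => hy⟩
  choose u hu1 hu2 using hex
  have huorb : ∀ x, u x ∈ orb T₀ x := by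
    intro x
    by_cases hx : x ∈ N
    · rw [hu1 x hx]; exact mem_orb_self x
    · exact hΦ.orb _ _ (hu2 x hx)
  have hinj : Function.Injective u := by
    intro x x' hxx
    have hN1 := hNorb x (u x) (huorb x)
    have hN2 := hNorb x' (u x') (huorb x')
    by_cases hx : x ∈ N
    · have hx' : x' ∈ N := by rw [hN2, ← hxx, ← hN1]; exact hx
      rw [hu1 x hx, hu1 x' hx'] at hxx
      exact hxx
    · have hx' : x' ∉ N := by rw [hN2, ← hxx, ← hN1]; exact hx
      have e1 := hu2 x hx
      have e2 := hu2 x' hx'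
      rw [← hxx] at e2
      exact hΦ.inj _ _ _ e1 e2
  have hsurj : Function.Surjective u := by
    intro y
    by_cases hy : y ∈ N
    · exact ⟨y, hu1 y hy⟩
    · obtain ⟨x, hx⟩ := (hself y hy).2
      have hxN : x ∉ N := by rw [hNorb x y (hΦ.orb _ _ hx)]; exact hy
      exact ⟨x, hΦ.func _ _ _ (hu2 x hxN) hx⟩
  have hmeas : Measurable u := by
    intro B hB
    have : u ⁻¹' B = (N ∩ B) ∪ (Nᶜ ∩ {x | ∃ y ∈ B, (x, y) ∈ Φ}) := by
      ext x
      simp only [Set.mem_preimage, Set.mem_union, Set.mem_inter_iff, Set.mem_compl_iff,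
        Set.mem_ofPred_eq]
      by_cases hx : x ∈ N
      · simp [hx, hu1 x hx]
      · simp only [hx, false_and, not_false_eq_true, true_and, false_or]
        constructor
        · intro hxB
          exact ⟨_, hxB, hu2 x hx⟩
        · rintro ⟨y, hyB, hy⟩
          rw [hΦ.func _ _ _ (hu2 x hx) hy]
          exact hyB
    rw [this]
    exact (hN.inter hB).union (hN.compl.inter (measurableSet_exists_orb hΦ.meas hΦ.orb hB))
  let U : Equiv.Perm X := Equiv.ofBijective u ⟨hinj, hsurj⟩
  have hUm : MeasurableEmbedding u := hmeas.measurableEmbedding hinj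
  have hUsymm : Measurable (U.symm : X → X) := by
    intro B hB
    have : U.symm ⁻¹' B = u '' B := by
      ext y
      simp only [Set.mem_preimage, Set.mem_image]
      constructor
      · intro hy
        exact ⟨U.symm y, hy, U.apply_symm_apply y⟩
      · rintro ⟨x, hx, rfl⟩
        have : U.symm (u x) = x := U.symm_apply_apply x
        rw [this]; exact hx
    rw [this]
    exact hUm.measurableSet_image.2 hB
  refine ⟨⟨U, hmeas, hUsymm, fun x => ?_⟩, ?_⟩
  · obtain ⟨n, hn⟩ := huorb x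
    exact ⟨n, hn.symm⟩
  · have : ∀ᵐ x ∂μ, x ∉ N := by rw [ae_iff]; simpa using hN0
    filter_upwards [this] with x hx
    exact hu2 x hx

/-- The matching theorem: if the measures of matched invariant sets agree then there is an
intertwiner in the full group. -/
theorem exists_match (S T : PreFull h) (D : ℕ → Set (X × X))
    (hD : ∀ i, IsPart T₀ S.1 T.1 (D i))
    (hcrit : ∀ A B : Set X, MeasurableSet A → MeasurableSet B →
      (∀ i x y, (x, y) ∈ D i → (x ∈ A ↔ y ∈ B)) → μ A = μ B) :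
    ∃ U : PreFull h, ∀ᵐ x ∂μ, U.1 (S.1 x) = T.1 (U.1 x) := by
  obtain ⟨w, hw, hwD, hwz⟩ := exists_closed_family D hD
  obtain ⟨Φ, hΦ, hΦw, hΦmax⟩ := exists_greedy w hw
  let Z : Set (X × X) := ⋃ n, w n
  have hZm : MeasurableSet Z := MeasurableSet.iUnion fun n => (hw n).meas
  have hZorb : ∀ x y, (x, y) ∈ Z → y ∈ orb T₀ x := by
    intro x y hxy
    obtain ⟨n, hn⟩ := Set.mem_iUnion.1 hxy
    exact (hw n).orb _ _ hn
  have hZzig : ∀ x y x' y', (x, y) ∈ Z → (x', y) ∈ Z → (x', y') ∈ Z → (x, y') ∈ Z := by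
    intro x y x' y' h1 h2 h3
    obtain ⟨a, ha⟩ := Set.mem_iUnion.1 h1
    obtain ⟨b, hb⟩ := Set.mem_iUnion.1 h2
    obtain ⟨c, hc⟩ := Set.mem_iUnion.1 h3
    obtain ⟨n, hn⟩ := hwz a b c
    refine Set.mem_iUnion.2 ⟨n, ?_⟩
    rw [hn]
    exact ⟨y, x', ha, hb, hc⟩
  have hΦZ : Φ ⊆ Z := fun z hz => Set.mem_iUnion.2 (hΦw z hz)
  let B : Set X := {y | ∃ x ∈ (rdom Φ)ᶜ, (x, y) ∈ Z}
  let A : Set X := (rdom Φ)ᶜ ∪ {x | ∃ y ∈ B, (x, y) ∈ Z}
  have hB : MeasurableSet B :=
    measurableSet_exists_orb' hZm hZorb hΦ.measurableSet_rdom.compl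
  have hA : MeasurableSet A :=
    hΦ.measurableSet_rdom.compl.union (measurableSet_exists_orb hZm hZorb hB)
  have hAB : ∀ x y, (x, y) ∈ Z → (x ∈ A ↔ y ∈ B) := by
    intro x y hxy
    constructor
    · rintro (hx | ⟨y1, ⟨x0, hx0, h1⟩, h2⟩)
      · exact ⟨x, hx, hxy⟩
      · exact ⟨x0, hx0, hZzig _ _ _ _ h1 h2 hxy⟩
    · intro hy
      exact Or.inr ⟨y, hy, hxy⟩
  have hBran : B ⊆ rran Φ := by
    rintro y ⟨x, hx, hxy⟩
    obtain ⟨n, hn⟩ := Set.mem_iUnion.1 hxy
    rcases hΦmax n x y hn with h1 | h1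
    · exact absurd h1 hx
    · exact h1
  have hμAB : μ A = μ B := by
    apply hcrit A B hA hB
    intro i x y hxy
    apply hAB
    obtain ⟨n, hn⟩ := hwD i
    exact Set.mem_iUnion.2 ⟨n, by rw [hn]; exact hxy⟩
  -- compare the measures through `Φ`
  have hΦ' : MeasurableSet {z | z ∈ Φ ∧ z.2 ∈ B} := hΦ.meas.inter (measurable_snd hB)
  have hcomp := measure_dom_eq_measure_ran (μ := μ) h hΦ'
    (fun x y hxy => hΦ.orb _ _ hxy.1)
    (fun x y y' h1 h2 => hΦ.func _ _ _ h1.1 h2.1)
    (fun x x' y h1 h2 => hΦ.inj _ _ _ h1.1 h2.1)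
  have hran' : {y | ∃ x, (x, y) ∈ {z : X × X | z ∈ Φ ∧ z.2 ∈ B}} = B := by
    ext y
    simp only [Set.mem_ofPred_eq]
    constructor
    · rintro ⟨x, -, hy⟩; exact hy
    · intro hy
      obtain ⟨x, hx⟩ := hBran hy
      exact ⟨x, hx, hy⟩
  have hdom' : {x | ∃ y, (x, y) ∈ {z : X × X | z ∈ Φ ∧ z.2 ∈ B}} = A ∩ rdom Φ := by
    ext x
    simp only [Set.mem_ofPred_eq, Set.mem_inter_iff]
    constructor
    · rintro ⟨y, h1, h2⟩
      exact ⟨(hAB x y (hΦZ h1)).2 h2, ⟨y, h1⟩⟩
    · rintro ⟨hx, ⟨y, hy⟩⟩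
      exact ⟨y, hy, (hAB x y (hΦZ hy)).1 hx⟩
  rw [hran', hdom'] at hcomp
  have hsplit : μ A = μ (A ∩ rdom Φ) + μ (A \ rdom Φ) :=
    (measure_inter_add_sdiff A hΦ.measurableSet_rdom).symm
  have hdiff : A \ rdom Φ = (rdom Φ)ᶜ := by
    ext x
    simp only [Set.mem_sdiff, Set.mem_compl_iff]
    exact ⟨fun hx => hx.2, fun hx => ⟨Or.inl hx, hx⟩⟩
  have hd0 : μ (rdom Φ)ᶜ = 0 := by
    rw [hdiff, hcomp, hμAB] at hsplit
    have hfin : μ B ≠ ⊤ := measure_ne_top _ _
    have h3 : μ B + 0 = μ B + μ (rdom Φ)ᶜ := by rw [add_zero]; exact hsplit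
    exact ((ENNReal.add_right_inj hfin).1 h3).symm
  have hfull := measure_dom_eq_measure_ran (μ := μ) h hΦ.meas hΦ.orb hΦ.func hΦ.inj
  have hr0 : μ (rran Φ)ᶜ = 0 := by
    have h1 : μ (rdom Φ) = μ (rran Φ) := hfull
    rw [prob_compl_eq_zero_iff hΦ.measurableSet_rran, ← h1,
      ← prob_compl_eq_zero_iff hΦ.measurableSet_rdom]
    exact hd0
  obtain ⟨U, hU⟩ := exists_extension h hΦ hd0 hr0
  refine ⟨U, ?_⟩
  filter_upwards [hU, S.measurePreserving.quasiMeasurePreserving.ae hU] with x hx1 hx2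
  exact hΦ.func _ _ _ hx2 ((hΦ.inv _ _).1 hx1)

end PartF

section PartG

variable {X : Type*} [MeasurableSpace X] [StandardBorelSpace X]
variable {μ : Measure X} [IsProbabilityMeasure μ] {T₀ : X ≃ᵐ X} {h : Ergodic T₀ μ}

/-- The `k`-th term in the averages. -/
noncomputable def bterm (g S T : PreFull h) (k : ℕ) (z : X × X) : ℝ :=
  (grph ((T⁻¹) ^ k * g * S ^ k)).indicator 1 z

theorem bterm_nonneg (g S T : PreFull h) (k : ℕ) (z : X × X) : 0 ≤ bterm g S T k z :=
  Set.indicator_nonneg (fun _ _ => zero_le_one) z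

theorem bterm_le_one (g S T : PreFull h) (k : ℕ) (z : X × X) : bterm g S T k z ≤ 1 :=
  Set.indicator_le_self' (f := fun _ => (1 : ℝ)) (fun _ _ => zero_le_one) z

theorem measurable_bterm (g S T : PreFull h) (k : ℕ) : Measurable (bterm g S T k) :=
  measurable_one.indicator (measurableSet_grph _)

theorem alpha_eq (g S T : PreFull h) (N : ℕ) (z : X × X) :
    alpha g S T N z = (N : ℝ)⁻¹ * ∑ k ∈ Finset.range N, bterm g S T k z := rfl

theorem measurable_alpha (g S T : PreFull h) (N : ℕ) : Measurable (alpha g S T N) := by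
  have : alpha g S T N = fun z => (N : ℝ)⁻¹ * ∑ k ∈ Finset.range N, bterm g S T k z := rfl
  rw [this]
  exact (Finset.measurable_sum _ fun k _ => measurable_bterm g S T k).const_mul _

theorem mem_grph_iff (g S T : PreFull h) (k : ℕ) (x y : X) :
    (x, y) ∈ grph ((T⁻¹) ^ k * g * S ^ k) ↔ ((T ^ k).1 y) = g.1 ((S ^ k).1 x) := by
  have : ((T⁻¹) ^ k * g * S ^ k) = (T ^ k)⁻¹ * (g * S ^ k) := by rw [inv_pow, mul_assoc]
  rw [this]
  simp only [grph, Set.mem_ofPred_eq, PreFull.mul_val, PreFull.inv_val, Equiv.Perm.mul_apply]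
  rw [Equiv.Perm.eq_inv_iff_eq]

theorem bterm_shift (g S T : PreFull h) (k : ℕ) (x y : X) :
    bterm g S T k (S.1 x, T.1 y) = bterm g S T (k + 1) (x, y) := by
  have : (S.1 x, T.1 y) ∈ grph ((T⁻¹) ^ k * g * S ^ k) ↔
      (x, y) ∈ grph ((T⁻¹) ^ (k + 1) * g * S ^ (k + 1)) := by
    rw [mem_grph_iff, mem_grph_iff, pow_succ, pow_succ]
    rfl
  unfold bterm
  by_cases hx : (x, y) ∈ grph ((T⁻¹) ^ (k + 1) * g * S ^ (k + 1))
  · rw [Set.indicator_of_mem hx, Set.indicator_of_mem (this.2 hx)]; rfl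
  · rw [Set.indicator_of_notMem hx, Set.indicator_of_notMem (fun h => hx (this.1 h))]

theorem alpha_shift (g S T : PreFull h) (N : ℕ) (x y : X) :
    |alpha g S T N (S.1 x, T.1 y) - alpha g S T N (x, y)| ≤ (N : ℝ)⁻¹ := by
  rw [alpha_eq, alpha_eq, ← mul_sub, ← Finset.sum_sub_distrib]
  simp_rw [bterm_shift]
  rw [Finset.sum_range_sub (fun k => bterm g S T k (x, y)), abs_mul,
    abs_of_nonneg (by positivity : (0 : ℝ) ≤ (N : ℝ)⁻¹)]
  refine mul_le_of_le_one_right (by positivity) ?_
  rw [abs_le]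
  have h1 := bterm_nonneg g S T N (x, y)
  have h2 := bterm_le_one g S T N (x, y)
  have h3 := bterm_nonneg g S T 0 (x, y)
  have h4 := bterm_le_one g S T 0 (x, y)
  constructor <;> linarith

/-- The pairs which are matched by `g` for more than half of the times. -/
def dset (g S T : PreFull h) (ns : ℕ → ℕ) : Set (X × X) :=
  {z | ∃ l : ℕ, ∀ᶠ j in atTop, 1 / 2 + 1 / ((l : ℝ) + 1) ≤ alpha g S T (ns j) z}

theorem alpha_add_le (g S T : PreFull h) (N : ℕ) (z z' : X × X)
    (hz : ∀ k, ¬ (z ∈ grph ((T⁻¹) ^ k * g * S ^ k) ∧ z' ∈ grph ((T⁻¹) ^ k * g * S ^ k))) :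
    alpha g S T N z + alpha g S T N z' ≤ 1 := by
  rw [alpha_eq, alpha_eq, ← mul_add, ← Finset.sum_add_distrib]
  have h1 : ∑ k ∈ Finset.range N, (bterm g S T k z + bterm g S T k z') ≤
      ∑ k ∈ Finset.range N, (1 : ℝ) := by
    refine Finset.sum_le_sum fun k _ => ?_
    by_cases hk : z ∈ grph ((T⁻¹) ^ k * g * S ^ k)
    · have hk' : z' ∉ grph ((T⁻¹) ^ k * g * S ^ k) := fun h' => hz k ⟨hk, h'⟩
      have e2 : bterm g S T k z' = 0 := Set.indicator_of_notMem hk' _
      have e1 := bterm_le_one g S T k z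
      linarith
    · have e2 : bterm g S T k z = 0 := Set.indicator_of_notMem hk _
      have e1 := bterm_le_one g S T k z'
      linarith
  rw [Finset.sum_const, Finset.card_range, nsmul_eq_mul, mul_one] at h1
  rcases Nat.eq_zero_or_pos N with rfl | hN
  · simp
  · have hN' : (0 : ℝ) < N := by exact_mod_cast hN
    calc (N : ℝ)⁻¹ * _ ≤ (N : ℝ)⁻¹ * N := by gcongr
      _ = 1 := inv_mul_cancel₀ hN'.ne'

theorem dset_absurd (g S T : PreFull h) (ns : ℕ → ℕ) {z z' : X × X}
    (hz : z ∈ dset g S T ns) (hz' : z' ∈ dset g S T ns)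
    (hzz : ∀ k, ¬ (z ∈ grph ((T⁻¹) ^ k * g * S ^ k) ∧ z' ∈ grph ((T⁻¹) ^ k * g * S ^ k))) :
    False := by
  obtain ⟨l, hl⟩ := hz
  obtain ⟨l', hl'⟩ := hz'
  obtain ⟨j, hj1, hj2⟩ := (hl.and hl').exists
  have h1 := alpha_add_le g S T (ns j) z z' hzz
  have h2 : (0 : ℝ) < 1 / ((l : ℝ) + 1) := by positivity
  have h3 : (0 : ℝ) < 1 / ((l' : ℝ) + 1) := by positivity
  linarith

theorem isPart_dset (g S T : PreFull h) {ns : ℕ → ℕ} (hns : StrictMono ns) :
    IsPart T₀ S.1 T.1 (dset g S T ns) where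
  meas := by
    have : dset g S T ns = ⋃ l : ℕ, ⋃ J : ℕ, ⋂ j : ℕ, ⋂ _ : J ≤ j,
        {z | 1 / 2 + 1 / ((l : ℝ) + 1) ≤ alpha g S T (ns j) z} := by
      ext z
      simp only [dset, eventually_atTop, Set.mem_ofPred_eq, Set.mem_iUnion, Set.mem_iInter]
    rw [this]
    refine MeasurableSet.iUnion fun l => MeasurableSet.iUnion fun J => MeasurableSet.iInter fun j =>
      MeasurableSet.iInter fun _ => ?_
    exact measurableSet_le measurable_const (measurable_alpha g S T (ns j))
  orb := by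
    rintro x y ⟨l, hl⟩
    obtain ⟨j, hj⟩ := hl.exists
    by_contra hcon
    have hz : ∀ k, bterm g S T k (x, y) = 0 := by
      intro k
      apply Set.indicator_of_notMem
      intro hmem
      apply hcon
      have := ((T⁻¹) ^ k * g * S ^ k).mem_orb x
      simp only [grph, Set.mem_ofPred_eq] at hmem
      rw [← hmem] at this
      exact this
    rw [alpha_eq] at hj
    simp only [hz, Finset.sum_const_zero, mul_zero] at hj
    have h2 : (0 : ℝ) < 1 / ((l : ℝ) + 1) := by positivity
    linarith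
  func := by
    intro x y y' h1 h2
    by_contra hne
    refine dset_absurd g S T ns h1 h2 ?_
    rintro k ⟨e1, e2⟩
    simp only [grph, Set.mem_ofPred_eq] at e1 e2
    exact hne (e1.trans e2.symm)
  inj := by
    intro x x' y h1 h2
    by_contra hne
    refine dset_absurd g S T ns h1 h2 ?_
    rintro k ⟨e1, e2⟩
    simp only [grph, Set.mem_ofPred_eq] at e1 e2
    exact hne (((T⁻¹) ^ k * g * S ^ k).1.injective (e1.symm.trans e2))
  inv := by
    have hsmall : ∀ l : ℕ, ∀ᶠ j in atTop, ((ns j : ℕ) : ℝ)⁻¹ ≤ 1 / (2 * ((l : ℝ) + 1)) := by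
      intro l
      have h1 : Tendsto (fun j => ((ns j : ℕ) : ℝ)⁻¹) atTop (𝓝 0) :=
        tendsto_inv_atTop_zero.comp (tendsto_natCast_atTop_atTop.comp hns.tendsto_atTop)
      have h2 : (0 : ℝ) < 1 / (2 * ((l : ℝ) + 1)) := by positivity
      exact (h1.eventually (gt_mem_nhds h2)).mono fun j hj => hj.le
    have hl2 : ∀ l : ℕ, 1 / (((2 * l + 1 : ℕ) : ℝ) + 1) = 1 / (2 * ((l : ℝ) + 1)) := by
      intro l
      push_cast
      congr 1
      ring
    have hl3 : ∀ l : ℕ, 1 / ((l : ℝ) + 1) = 1 / (2 * ((l : ℝ) + 1)) + 1 / (2 * ((l : ℝ) + 1)) := by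
      intro l
      field_simp
      norm_num
    intro x y
    constructor
    · rintro ⟨l, hl⟩
      refine ⟨2 * l + 1, ?_⟩
      filter_upwards [hl, hsmall l] with j hj1 hj2
      have h3 := abs_le.1 (alpha_shift g S T (ns j) x y)
      rw [hl2]
      rw [hl3] at hj1
      linarith [h3.1]
    · rintro ⟨l, hl⟩
      refine ⟨2 * l + 1, ?_⟩
      filter_upwards [hl, hsmall l] with j hj1 hj2
      have h3 := abs_le.1 (alpha_shift g S T (ns j) x y)
      rw [hl2]
      rw [hl3] at hj1
      linarith [h3.2]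

theorem mem_dset_of_tendsto (g S T : PreFull h) {ns : ℕ → ℕ} {z : X × X} {c : ℝ}
    (hc : 1 / 2 < c) (hlim : Tendsto (fun j => alpha g S T (ns j) z) atTop (𝓝 c)) :
    z ∈ dset g S T ns := by
  obtain ⟨l, hl⟩ := exists_nat_one_div_lt (sub_pos.2 hc)
  refine ⟨l, ?_⟩
  have : 1 / 2 + 1 / ((l : ℝ) + 1) < c := by linarith
  exact (hlim.eventually (lt_mem_nhds this)).mono fun j hj => hj.le

variable [NullSingletonClass μ]

/-- For `S, T, g` there is an intertwining matching containing almost all pairs at which the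
projected indicator function is larger than one half. -/
theorem exists_part (g S T : PreFull h) : ∃ D : Set (X × X), IsPart T₀ S.1 T.1 D ∧
    ∀ᵐ z ∂(relMeasure μ T₀), 1 / 2 < (prj S T (ev g) : HS μ T₀) z → z ∈ D := by
  obtain ⟨ns, hns, hlim⟩ := exists_subseq g S T
  refine ⟨dset g S T ns, isPart_dset g S T hns, ?_⟩
  filter_upwards [hlim] with z hz hz2
  exact mem_dset_of_tendsto g S T hz2 hz

end PartG

section PartH1

section span

variable {V : Type*} [NormedAddCommGroup V] [NormedSpace ℝ V] {J : Type*}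

/-- Rational combinations. -/
noncomputable def ratComb (v : J → V) (q : J →₀ ℚ) : V := q.sum fun j c => (c : ℝ) • v j

theorem ratComb_mem_span (v : J → V) (q : J →₀ ℚ) :
    ratComb v q ∈ Submodule.span ℝ (Set.range v) :=
  Submodule.sum_mem _ fun j _ => Submodule.smul_mem _ _ (Submodule.subset_span ⟨j, rfl⟩)

theorem ratComb_add (v : J → V) (q r : J →₀ ℚ) :
    ratComb v (q + r) = ratComb v q + ratComb v r := by
  classical
  unfold ratComb
  refine Finsupp.sum_add_index' ?_ ?_
  · intro j; simp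
  · intro j a b; push_cast; rw [add_smul]

theorem ratComb_smul (v : J → V) (a : ℚ) (q : J →₀ ℚ) :
    ratComb v (a • q) = (a : ℝ) • ratComb v q := by
  unfold ratComb
  rw [Finsupp.sum_smul_index' (by intro j; simp), Finsupp.smul_sum]
  refine Finsupp.sum_congr fun j _ => ?_
  rw [smul_eq_mul]
  push_cast
  rw [mul_smul]

theorem ratComb_dense (v : J → V) {s : V} (hs : s ∈ Submodule.span ℝ (Set.range v)) :
    ∀ ε > 0, ∃ q : J →₀ ℚ, ‖s - ratComb v q‖ < ε := by
  induction hs using Submodule.span_induction with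
  | mem x hx =>
    obtain ⟨j, rfl⟩ := hx
    intro ε hε
    refine ⟨Finsupp.single j 1, ?_⟩
    have : ratComb v (Finsupp.single j 1) = v j := by
      unfold ratComb
      rw [Finsupp.sum_single_index (by simp)]
      simp
    rw [this, sub_self, norm_zero]
    exact hε
  | zero =>
    intro ε hε
    refine ⟨0, ?_⟩
    simpa [ratComb] using hε
  | add x y _ _ hx hy =>
    intro ε hε
    obtain ⟨q, hq⟩ := hx (ε / 2) (by positivity)
    obtain ⟨r, hr⟩ := hy (ε / 2) (by positivity)
    refine ⟨q + r, ?_⟩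
    rw [ratComb_add]
    calc ‖x + y - (ratComb v q + ratComb v r)‖ = ‖(x - ratComb v q) + (y - ratComb v r)‖ := by
          congr 1; abel
      _ ≤ ‖x - ratComb v q‖ + ‖y - ratComb v r‖ := norm_add_le _ _
      _ < ε := by linarith
  | smul a x _ hx =>
    intro ε hε
    obtain ⟨b, hb⟩ : ∃ b : ℚ, |a - b| * ‖x‖ < ε / 2 := by
      have h1 : (0 : ℝ) < ε / 2 / (‖x‖ + 1) := by positivity
      obtain ⟨b, hb1, hb2⟩ := exists_rat_btwn (show a < a + ε / 2 / (‖x‖ + 1) by linarith)
      refine ⟨b, ?_⟩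
      have h2 : |a - b| < ε / 2 / (‖x‖ + 1) := by
        rw [abs_lt]; constructor <;> linarith
      calc |a - b| * ‖x‖ ≤ |a - b| * (‖x‖ + 1) := by gcongr; linarith
        _ < ε / 2 / (‖x‖ + 1) * (‖x‖ + 1) := by gcongr
        _ = ε / 2 := by field_simp
    obtain ⟨q, hq⟩ := hx (ε / 2 / (|(b : ℝ)| + 1)) (by positivity)
    refine ⟨b • q, ?_⟩
    rw [ratComb_smul]
    calc ‖a • x - (b : ℝ) • ratComb v q‖ = ‖(a - b) • x + (b : ℝ) • (x - ratComb v q)‖ := by
          congr 1
          rw [sub_smul, smul_sub]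
          abel
      _ ≤ ‖(a - b) • x‖ + ‖(b : ℝ) • (x - ratComb v q)‖ := norm_add_le _ _
      _ = |a - b| * ‖x‖ + |(b : ℝ)| * ‖x - ratComb v q‖ := by
          rw [norm_smul, norm_smul, Real.norm_eq_abs, Real.norm_eq_abs]
      _ ≤ |a - b| * ‖x‖ + (|(b : ℝ)| + 1) * ‖x - ratComb v q‖ := by gcongr; linarith
      _ < ε / 2 + (|(b : ℝ)| + 1) * (ε / 2 / (|(b : ℝ)| + 1)) := by gcongr
      _ = ε := by field_simp; ring

theorem mem_closure_span_iff (v : J → V) (z : V) :
    z ∈ closure (Submodule.span ℝ (Set.range v) : Set V) ↔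
      ∀ n : ℕ, ∃ q : J →₀ ℚ, ‖z - ratComb v q‖ < 1 / ((n : ℝ) + 1) := by
  constructor
  · intro hz n
    have hpos : (0 : ℝ) < 1 / ((n : ℝ) + 1) / 2 := by positivity
    obtain ⟨s, hs, hzs⟩ := Metric.mem_closure_iff.1 hz _ hpos
    obtain ⟨q, hq⟩ := ratComb_dense v hs _ hpos
    refine ⟨q, ?_⟩
    rw [dist_eq_norm] at hzs
    calc ‖z - ratComb v q‖ = ‖(z - s) + (s - ratComb v q)‖ := by congr 1; abel
      _ ≤ ‖z - s‖ + ‖s - ratComb v q‖ := norm_add_le _ _
      _ < 1 / ((n : ℝ) + 1) := by linarith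
  · intro hz
    rw [Metric.mem_closure_iff]
    intro ε hε
    obtain ⟨n, hn⟩ := exists_nat_one_div_lt hε
    obtain ⟨q, hq⟩ := hz n
    refine ⟨ratComb v q, ratComb_mem_span v q, ?_⟩
    rw [dist_eq_norm]
    exact hq.trans hn

theorem measurableSet_closure_span {Y : Type*} [MeasurableSpace Y] [Countable J]
    (v : J → Y → V) (hv : ∀ j, StronglyMeasurable (v j)) (z : V) :
    MeasurableSet {y | z ∈ closure (Submodule.span ℝ (Set.range fun j => v j y) : Set V)} := by
  have hc : Countable (J →₀ ℚ) := inferInstance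
  have : {y | z ∈ closure (Submodule.span ℝ (Set.range fun j => v j y) : Set V)} =
      ⋂ n : ℕ, ⋃ q : J →₀ ℚ, {y | ‖z - ratComb (fun j => v j y) q‖ < 1 / ((n : ℝ) + 1)} := by
    ext y
    simp only [Set.mem_ofPred_eq, Set.mem_iInter, Set.mem_iUnion]
    exact mem_closure_span_iff _ z
  rw [this]
  refine MeasurableSet.iInter fun n => MeasurableSet.iUnion fun q => ?_
  have h1 : StronglyMeasurable (fun y => ratComb (fun j => v j y) q) := by
    unfold ratComb Finsupp.sum
    exact Finset.stronglyMeasurable_fun_sum _ fun j _ => (hv j).const_smul _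
  exact measurableSet_lt ((stronglyMeasurable_const.sub h1).norm.measurable) measurable_const

end span

end PartH1

section PartH2

variable {X : Type*} [MeasurableSpace X] [StandardBorelSpace X]
variable {μ : Measure X} [IsProbabilityMeasure μ] {T₀ : X ≃ᵐ X} {h : Ergodic T₀ μ}

/-! ### A countable family of test sets -/

/-- A countable family of sets which determine integrable functions. -/
noncomputable def testSet (X : Type*) [MeasurableSpace X] [StandardBorelSpace X]
    (r : Option ℚ) : Set X :=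
  r.elim Set.univ (fun q => embeddingReal X ⁻¹' (Set.Iic (q : ℝ)))

theorem measurableSet_testSet (r : Option ℚ) : MeasurableSet (testSet X r) := by
  cases r with
  | none => exact MeasurableSet.univ
  | some q => exact measurable_embeddingReal X measurableSet_Iic

theorem ae_eq_zero_of_testSet {q : X → ℝ} (hq : Integrable q μ)
    (h0 : ∀ r, ∫ x in testSet X r, q x ∂μ = 0) : q =ᵐ[μ] 0 := by
  have huniv : ∫ x, q x ∂μ = 0 := by
    have := h0 none
    simpa [testSet] using this
  have hgen : (inferInstance : MeasurableSpace X) = MeasurableSpace.generateFrom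
      {s | ∃ t ∈ (⋃ a : ℚ, {Set.Iic (a : ℝ)} : Set (Set ℝ)), embeddingReal X ⁻¹' t = s} := by
    have h1 := (measurableEmbedding_embeddingReal X).comap_eq
    have h2 : (inferInstance : MeasurableSpace ℝ) = MeasurableSpace.generateFrom
        (⋃ a : ℚ, {Set.Iic (a : ℝ)}) := by
      rw [← Real.borel_eq_generateFrom_Iic_rat]
      exact BorelSpace.measurable_eq
    exact h1.symm.trans ((congrArg (MeasurableSpace.comap (embeddingReal X)) h2).trans
      MeasurableSpace.comap_generateFrom)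
  have hpi : IsPiSystem {s | ∃ t ∈ (⋃ a : ℚ, {Set.Iic (a : ℝ)} : Set (Set ℝ)),
      embeddingReal X ⁻¹' t = s} :=
    Real.isPiSystem_Iic_rat.comap (embeddingReal X)
  have hall : ∀ t : Set X, MeasurableSet t → ∫ x in t, q x ∂μ = 0 := by
    intro t ht
    induction t, ht using MeasurableSpace.induction_on_inter (h_eq := hgen) (h_inter := hpi) with
    | empty => simp
    | basic t ht =>
      obtain ⟨s, hs, rfl⟩ := ht
      obtain ⟨a, ha⟩ := Set.mem_iUnion.1 hs
      rw [Set.mem_singleton_iff] at ha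
      subst ha
      exact h0 (some a)
    | compl t htm ih =>
      have := integral_add_compl htm hq
      rw [ih, huniv, zero_add] at this
      exact this
    | iUnion f hd hfm ih =>
      rw [integral_iUnion hfm hd hq.integrableOn]
      simp [ih]
  exact hq.ae_eq_zero_of_forall_setIntegral_eq_zero fun s hs _ => hall s hs

/-! ### The positive part -/

theorem lipschitz_pos : LipschitzWith 1 (fun t : ℝ => max (t - 1 / 2) 0) := by
  have h1 : LipschitzWith 1 (fun t : ℝ => t - 1 / 2) := by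
    refine LipschitzWith.of_dist_le_mul fun x y => ?_
    simp [Real.dist_eq]
  exact h1.max_const 0

/-- The map `f ↦ max (f - 1/2) 0` on square integrable functions. -/
noncomputable def wpos (f : HS μ T₀) : HS μ T₀ :=
  lipschitz_pos.compLp (by norm_num) f

theorem continuous_wpos : Continuous (wpos : HS μ T₀ → HS μ T₀) :=
  lipschitz_pos.continuous_compLp (by norm_num)

theorem wpos_ae (f : HS μ T₀) :
    ∀ᵐ z ∂(relMeasure μ T₀), wpos f z = max (f z - 1 / 2) 0 :=
  lipschitz_pos.coeFn_compLp (by norm_num) f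

/-! ### Restriction to a piece of a graph -/

theorem map_le_relMeasure (m : ℤ) : μ.map (jn T₀ m) ≤ relMeasure μ T₀ :=
  Measure.le_sum (fun n : ℤ => μ.map (jn T₀ n)) m

theorem memLp_comp (f : HS μ T₀) (m : ℤ) : MemLp ((f : X × X → ℝ) ∘ jn T₀ m) 2 μ :=
  ((Lp.memLp f).mono_measure (map_le_relMeasure m)).comp_of_map (measurable_jn m).aemeasurable

theorem memLp_rvec (f : HS μ T₀) (m : ℤ) (r : Option ℚ) :
    MemLp ((testSet X r).indicator ((f : X × X → ℝ) ∘ jn T₀ m)) 2 μ :=
  (memLp_comp f m).indicator (measurableSet_testSet r)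

/-- The function `x ↦ 1_F(x) f(x, T₀ᵐ x)`. -/
noncomputable def rvec (m : ℤ) (r : Option ℚ) (f : HS μ T₀) : Lp ℝ 2 μ :=
  (memLp_rvec f m r).toLp _

theorem rvec_ae (m : ℤ) (r : Option ℚ) (f : HS μ T₀) :
    rvec m r f =ᵐ[μ] (testSet X r).indicator ((f : X × X → ℝ) ∘ jn T₀ m) :=
  MemLp.coeFn_toLp _

theorem comp_jn_congr {f g : X × X → ℝ} (hfg : f =ᵐ[relMeasure μ T₀] g) (m : ℤ) :
    f ∘ jn T₀ m =ᵐ[μ] g ∘ jn T₀ m :=
  ae_of_relMeasure hfg m

theorem rvec_sub (m : ℤ) (r : Option ℚ) (f g : HS μ T₀) :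
    rvec m r (f - g) = rvec m r f - rvec m r g := by
  ext1
  have h1 := rvec_ae m r (f - g)
  have h2 := rvec_ae m r f
  have h3 := rvec_ae m r g
  have h4 := comp_jn_congr (Lp.coeFn_sub f g) m
  have h5 := Lp.coeFn_sub (rvec m r f) (rvec m r g)
  filter_upwards [h1, h2, h3, h4, h5] with x e1 e2 e3 e4 e5
  rw [e5, Pi.sub_apply, e1, e2, e3]
  by_cases hx : x ∈ testSet X r
  · rw [Set.indicator_of_mem hx, Set.indicator_of_mem hx, Set.indicator_of_mem hx, e4]
    rfl
  · rw [Set.indicator_of_notMem hx, Set.indicator_of_notMem hx, Set.indicator_of_notMem hx]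
    simp

theorem norm_rvec_le (m : ℤ) (r : Option ℚ) (f : HS μ T₀) : ‖rvec m r f‖ ≤ ‖f‖ := by
  rw [rvec, Lp.norm_toLp, Lp.norm_def]
  refine ENNReal.toReal_mono (Lp.eLpNorm_ne_top f) ?_
  refine (eLpNorm_indicator_le _).trans ?_
  rw [← eLpNorm_map_measure _ (measurable_jn m).aemeasurable]
  · exact eLpNorm_mono_measure _ (map_le_relMeasure m)
  · exact (Lp.aestronglyMeasurable f).mono_measure (map_le_relMeasure m)

theorem continuous_rvec (m : ℤ) (r : Option ℚ) :
    Continuous (rvec m r : HS μ T₀ → Lp ℝ 2 μ) := by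
  have : LipschitzWith 1 (rvec m r : HS μ T₀ → Lp ℝ 2 μ) := by
    refine LipschitzWith.of_dist_le_mul fun x y => ?_
    rw [dist_eq_norm, dist_eq_norm, ← rvec_sub]
    simpa using norm_rvec_le m r (x - y)
  exact this.continuous

/-- The Koopman operator of a power of `T₀`. -/
noncomputable def kt (h : Ergodic T₀ μ) (m : ℤ) : Lp ℝ 2 μ →ₗᵢ[ℝ] Lp ℝ 2 μ :=
  Lp.compMeasurePreservingₗᵢ ℝ (tau T₀ m) (mp_tau h m)

theorem kt_ae (h : Ergodic T₀ μ) (m : ℤ) (f : Lp ℝ 2 μ) :
    kt h m f =ᵐ[μ] (f : X → ℝ) ∘ tau T₀ m :=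
  Lp.coeFn_compMeasurePreserving f (mp_tau h m)

theorem kt_kt (h : Ergodic T₀ μ) (m : ℤ) (f : Lp ℝ 2 μ) : kt h m (kt h (-m) f) = f := by
  ext1
  have h1 := kt_ae h m (kt h (-m) f)
  have h2 := (mp_tau h m).quasiMeasurePreserving.ae (kt_ae h (-m) f)
  filter_upwards [h1, h2] with x e1 e2
  rw [e1, Function.comp_apply, e2, Function.comp_apply, tau_neg_tau]

/-- The Hilbert space of pairs of square integrable functions. -/
abbrev HP (μ : Measure X) : Type _ := WithLp 2 (Lp ℝ 2 μ × Lp ℝ 2 μ)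

/-- The test vectors. -/
noncomputable def vvec (h : Ergodic T₀ μ) (m : ℤ) (r : Option ℚ) (f : HS μ T₀) : HP μ :=
  WithLp.toLp 2 (rvec m r f, - kt h (-m) (rvec m r f))

theorem continuous_vvec (m : ℤ) (r : Option ℚ) :
    Continuous (vvec h m r : HS μ T₀ → HP μ) := by
  unfold vvec
  refine (WithLp.prod_continuous_toLp 2 _ _).comp ?_
  exact (continuous_rvec m r).prodMk ((kt h (-m)).continuous.comp (continuous_rvec m r)).neg

theorem integrable_mul' (a b : Lp ℝ 2 μ) : Integrable (fun x => a x * b x) μ := by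
  have := L2.integrable_inner (𝕜 := ℝ) b a
  simpa using this

theorem inner_vvec (h : Ergodic T₀ μ) (m : ℤ) (r : Option ℚ) (f : HS μ T₀) (a b : Lp ℝ 2 μ) :
    inner ℝ (WithLp.toLp 2 (a, b) : HP μ) (vvec h m r f) =
      ∫ x in testSet X r, (a x - b (tau T₀ m x)) * f (x, tau T₀ m x) ∂μ := by
  have h1 : inner ℝ (WithLp.toLp 2 (a, b) : HP μ) (vvec h m r f) =
      inner ℝ a (rvec m r f) - inner ℝ b (kt h (-m) (rvec m r f)) := by
    rw [WithLp.prod_inner_apply]
    simp [vvec, sub_eq_add_neg]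
  have h2 : inner ℝ b (kt h (-m) (rvec m r f)) = inner ℝ (kt h m b) (rvec m r f) := by
    rw [← (kt h m).inner_map_map, kt_kt]
  rw [h1, h2, ← inner_sub_left, L2.inner_def, ← integral_indicator (measurableSet_testSet r)]
  refine integral_congr_ae ?_
  filter_upwards [Lp.coeFn_sub a (kt h m b), kt_ae h m b, rvec_ae m r f] with x e1 e2 e3
  rw [e1, Pi.sub_apply, e2, e3]
  by_cases hx : x ∈ testSet X r
  · rw [Set.indicator_of_mem hx, Set.indicator_of_mem hx]
    simp [jn, mul_comm]
  · rw [Set.indicator_of_notMem hx, Set.indicator_of_notMem hx]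
    simp

end PartH2

section PartH3

variable {X : Type*} [MeasurableSpace X] [StandardBorelSpace X]
variable {μ : Measure X} [IsProbabilityMeasure μ] {T₀ : X ≃ᵐ X} {h : Ergodic T₀ μ}
variable [NullSingletonClass μ]

theorem secondCountable_HS : SecondCountableTopology (HS μ T₀) := by
  have : Fact ((2 : ENNReal) ≠ ⊤) := ⟨by norm_num⟩
  infer_instance

theorem exists_dense_seq (h : Ergodic T₀ μ) :
    ∃ gs : ℕ → PreFull h, ∀ U : PreFull h, ∀ ε > 0, ∃ i, dist (ev (gs i)) (ev U) < ε := by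
  have : Nonempty (Set.range (ev : PreFull h → HS μ T₀)) := ⟨⟨ev 1, 1, rfl⟩⟩
  have : SecondCountableTopology (HS μ T₀) := secondCountable_HS
  have hmem : ∀ i, ∃ g : PreFull h, ev g =
      (TopologicalSpace.denseSeq (Set.range (ev : PreFull h → HS μ T₀)) i : HS μ T₀) :=
    fun i => (TopologicalSpace.denseSeq (Set.range (ev : PreFull h → HS μ T₀)) i).2
  choose gs hgs using hmem
  refine ⟨gs, fun U ε hε => ?_⟩
  have hd := TopologicalSpace.denseRange_denseSeq (Set.range (ev : PreFull h → HS μ T₀))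
  obtain ⟨i, hi⟩ := hd.exists_dist_lt (⟨ev U, U, rfl⟩ : Set.range (ev : PreFull h → HS μ T₀)) hε
  refine ⟨i, ?_⟩
  rw [hgs i, dist_comm]
  exact hi

/-- The constant pair `(1, -1)`. -/
noncomputable def zvec (μ : Measure X) [IsProbabilityMeasure μ] : HP μ :=
  WithLp.toLp 2 (indicatorConstLp 2 MeasurableSet.univ (measure_ne_top μ _) (1 : ℝ),
    - indicatorConstLp 2 MeasurableSet.univ (measure_ne_top μ _) (1 : ℝ))

/-- The test vectors depending on a pair of elements. -/
noncomputable def fam (gs : ℕ → PreFull h) (p : PreFull h × PreFull h)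
    (j : ℕ × ℤ × Option ℚ) : HP μ :=
  vvec h j.2.1 j.2.2 (wpos (prj p.1 p.2 (ev (gs j.1))))

/-- The criterion for conjugacy. -/
def Crit (gs : ℕ → PreFull h) (p : PreFull h × PreFull h) : Prop :=
  zvec μ ∈ closure (Submodule.span ℝ (Set.range (fam gs p)) : Set (HP μ))

theorem inner_zvec (a b : Lp ℝ 2 μ) :
    inner ℝ (WithLp.toLp 2 (a, b) : HP μ) (zvec μ) = ∫ x, a x ∂μ - ∫ x, b x ∂μ := by
  have key : ∀ c : Lp ℝ 2 μ, inner ℝ c
      (indicatorConstLp 2 MeasurableSet.univ (measure_ne_top μ _) (1 : ℝ)) = ∫ x, c x ∂μ := by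
    intro c
    rw [real_inner_comm, L2.inner_indicatorConstLp_one]
    simp
  rw [zvec, WithLp.prod_inner_apply]
  simp only [inner_neg_right]
  rw [key, key, sub_eq_add_neg]

theorem crit_of_conj (gs : ℕ → PreFull h)
    (hgs : ∀ U : PreFull h, ∀ ε > 0, ∃ i, dist (ev (gs i)) (ev U) < ε)
    (S T U : PreFull h) (hU : ∀ᵐ x ∂μ, U.1 (S.1 x) = T.1 (U.1 x)) : Crit gs (S, T) := by
  -- the vector of `U` is fixed
  have hfix : koop S T (ev U) = ev U := by
    rw [koop_ev]
    apply ev_congr
    rw [PreFull.dist_def, measureReal_def]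
    have : μ {x | (T⁻¹ * U * S).1 x ≠ U.1 x} = 0 := by
      rw [← ae_iff]
      filter_upwards [hU] with x hx
      simp only [PreFull.mul_val, PreFull.inv_val, Equiv.Perm.mul_apply]
      rw [Equiv.Perm.inv_eq_iff_eq]
      exact hx
    rw [this]
    rfl
  -- a sequence converging to `U`
  have hseq : ∀ n : ℕ, ∃ i, dist (ev (gs i)) (ev U) < 1 / ((n : ℝ) + 1) :=
    fun n => hgs U _ (by positivity)
  choose idx hidx using hseq
  have hlim : Tendsto (fun n => prj S T (ev (gs (idx n)))) atTop (𝓝 (ev U)) := by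
    rw [tendsto_iff_dist_tendsto_zero]
    refine squeeze_zero (fun _ => dist_nonneg) (fun n => ?_) tendsto_one_div_add_atTop_nhds_zero_nat
    calc dist (prj S T (ev (gs (idx n)))) (ev U)
        = dist (prj S T (ev (gs (idx n)))) (prj S T (ev U)) := by rw [prj_of_fixed S T hfix]
      _ ≤ dist (ev (gs (idx n))) (ev U) := dist_prj_le S T _ _
      _ ≤ 1 / ((n : ℝ) + 1) := (hidx n).le
  obtain ⟨ns, -, hns⟩ := (tendstoInMeasure_of_tendsto_Lp hlim).exists_seq_tendsto_ae
  have hone : ∀ᵐ z ∂(relMeasure μ T₀), (ev U : X × X → ℝ) z = (grph U).indicator 1 z :=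
    indicatorConstLp_coeFn
  have hcover : ∀ᵐ x ∂μ, ∃ i, 1 / 2 < (prj S T (ev (gs i)) : HS μ T₀) (x, U.1 x) := by
    filter_upwards [ae_of_relMeasure' hns, ae_of_relMeasure' hone] with x h1 h2
    have h3 := h1 _ (U.mem_orb x)
    rw [h2 _ (U.mem_orb x)] at h3
    have h4 : (grph U).indicator (1 : X × X → ℝ) (x, U.1 x) = 1 :=
      Set.indicator_of_mem (by exact (rfl : U.1 x = U.1 x)) _
    rw [h4] at h3
    obtain ⟨j, hj⟩ := (h3.eventually (lt_mem_nhds (by norm_num : (1 / 2 : ℝ) < 1))).exists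
    exact ⟨_, hj⟩
  -- double orthogonal complement
  have hcl : closure (Submodule.span ℝ (Set.range (fam gs (S, T))) : Set (HP μ)) =
      ((Submodule.span ℝ (Set.range (fam gs (S, T))))ᗮᗮ : Submodule ℝ (HP μ)) := by
    rw [Submodule.orthogonal_orthogonal_eq_closure, Submodule.topologicalClosure_coe]
  rw [Crit, hcl, SetLike.mem_coe, Submodule.mem_orthogonal]
  intro c hc
  obtain ⟨⟨a, b⟩, rfl⟩ : ∃ ab : Lp ℝ 2 μ × Lp ℝ 2 μ, c = WithLp.toLp 2 ab := ⟨WithLp.ofLp c, rfl⟩
  rw [inner_zvec]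
  have horth : ∀ j, inner ℝ (WithLp.toLp 2 (a, b) : HP μ) (fam gs (S, T) j) = 0 := by
    intro j
    rw [real_inner_comm]
    exact (Submodule.mem_orthogonal _ _).1 hc _ (Submodule.subset_span ⟨j, rfl⟩)
  have hzero : ∀ i : ℕ, ∀ m : ℤ, ∀ᵐ x ∂μ, (a x - b (tau T₀ m x)) *
      (wpos (prj S T (ev (gs i))) : HS μ T₀) (x, tau T₀ m x) = 0 := by
    intro i m
    have hint : Integrable (fun x => (a x - b (tau T₀ m x)) *
        (wpos (prj S T (ev (gs i))) : HS μ T₀) (x, tau T₀ m x)) μ := by
      have h1 := integrable_mul' (a - kt h m b) (rvec m none (wpos (prj S T (ev (gs i)))))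
      refine h1.congr ?_
      filter_upwards [Lp.coeFn_sub a (kt h m b), kt_ae h m b,
        rvec_ae m none (wpos (prj S T (ev (gs i))))] with x e1 e2 e3
      rw [e1, Pi.sub_apply, e2, e3, Set.indicator_of_mem (by exact Set.mem_univ x)]
      rfl
    exact ae_eq_zero_of_testSet hint fun r => by
      rw [← inner_vvec h m r (wpos (prj S T (ev (gs i)))) a b]
      exact horth (i, m, r)
  have hab : ∀ᵐ x ∂μ, a x = b (U.1 x) := by
    have hz' : ∀ᵐ x ∂μ, ∀ i : ℕ, ∀ m : ℤ, (a x - b (tau T₀ m x)) *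
      (wpos (prj S T (ev (gs i))) : HS μ T₀) (x, tau T₀ m x) = 0 := by
      rw [ae_all_iff]; intro i; rw [ae_all_iff]; intro m; exact hzero i m
    have hw' : ∀ᵐ x ∂μ, ∀ i : ℕ, ∀ y ∈ orb T₀ x,
        (wpos (prj S T (ev (gs i))) : HS μ T₀) (x, y) =
          max ((prj S T (ev (gs i)) : HS μ T₀) (x, y) - 1 / 2) 0 := by
      rw [ae_all_iff]; intro i; exact ae_of_relMeasure' (wpos_ae _)
    filter_upwards [hcover, hz', hw'] with x h1 h2 h3
    obtain ⟨i, hi⟩ := h1
    obtain ⟨m, hm⟩ := U.mem_orb x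
    simp only at hm
    have h4 := h2 i m
    have h3' := h3 i (tau T₀ m x) ⟨m, rfl⟩
    rw [h3', hm] at h4
    rcases mul_eq_zero.1 h4 with h5 | h5
    · linarith
    · exfalso
      have : 0 < max ((prj S T (ev (gs i)) : HS μ T₀) (x, U.1 x) - 1 / 2) 0 :=
        lt_max_of_lt_left (by linarith)
      linarith
  rw [sub_eq_zero, integral_congr_ae hab]
  have hme : MeasurableEmbedding (U.1 : X → X) := U.measurable.measurableEmbedding U.1.injective
  exact U.measurePreserving.integral_comp hme (b : X → ℝ)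

theorem conj_of_crit (gs : ℕ → PreFull h) (S T : PreFull h) (hcrit : Crit gs (S, T)) :
    ∃ U : PreFull h, ∀ᵐ x ∂μ, U.1 (S.1 x) = T.1 (U.1 x) := by
  have hD := fun i => exists_part (gs i) S T
  choose D hD1 hD2 using hD
  refine exists_match S T D hD1 fun A B hA hB hAB => ?_
  set a : Lp ℝ 2 μ := indicatorConstLp 2 hA (measure_ne_top μ _) (1 : ℝ) with ha
  set b : Lp ℝ 2 μ := indicatorConstLp 2 hB (measure_ne_top μ _) (1 : ℝ) with hb
  have ha' : ∀ᵐ x ∂μ, a x = A.indicator 1 x := indicatorConstLp_coeFn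
  have hb' : ∀ᵐ x ∂μ, b x = B.indicator 1 x := indicatorConstLp_coeFn
  have horth : ∀ j, inner ℝ (WithLp.toLp 2 (a, b) : HP μ) (fam gs (S, T) j) = 0 := by
    rintro ⟨i, m, r⟩
    rw [fam, inner_vvec]
    have hz : ∀ᵐ x ∂μ, (a x - b (tau T₀ m x)) *
        (wpos (prj S T (ev (gs i))) : HS μ T₀) (x, tau T₀ m x) = 0 := by
      filter_upwards [ha', (mp_tau h m).quasiMeasurePreserving.ae hb',
        ae_of_relMeasure (wpos_ae (prj S T (ev (gs i)))) m,
        ae_of_relMeasure (hD2 i) m] with x e1 e2 e3 e4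
      rw [e1, e2, e3]
      by_cases hlt : 1 / 2 < (prj S T (ev (gs i)) : HS μ T₀) (x, tau T₀ m x)
      · have h5 := hAB i _ _ (e4 hlt)
        have h6 : A.indicator (1 : X → ℝ) x = B.indicator 1 (tau T₀ m x) := by
          by_cases hx : x ∈ A
          · rw [Set.indicator_of_mem hx, Set.indicator_of_mem (h5.1 hx)]; rfl
          · rw [Set.indicator_of_notMem hx, Set.indicator_of_notMem (fun h => hx (h5.2 h))]
        rw [h6, sub_self, zero_mul]
      · rw [max_eq_right (by linarith), mul_zero]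
    rw [setIntegral_congr_ae (g := fun _ => (0 : ℝ)) (measurableSet_testSet r)
      (hz.mono fun x hx _ => hx)]
    simp
  have hmem : (WithLp.toLp 2 (a, b) : HP μ) ∈
      (Submodule.span ℝ (Set.range (fam gs (S, T))))ᗮ := by
    rw [Submodule.mem_orthogonal]
    intro u hu
    induction hu using Submodule.span_induction with
    | mem x hx =>
      obtain ⟨j, rfl⟩ := hx
      rw [real_inner_comm]
      exact horth j
    | zero => simp
    | add x y _ _ hx hy => rw [inner_add_left, hx, hy, add_zero]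
    | smul c x _ hx => rw [inner_smul_left, hx, mul_zero]
  have hcl : closure (Submodule.span ℝ (Set.range (fam gs (S, T))) : Set (HP μ)) =
      ((Submodule.span ℝ (Set.range (fam gs (S, T))))ᗮᗮ : Submodule ℝ (HP μ)) := by
    rw [Submodule.orthogonal_orthogonal_eq_closure, Submodule.topologicalClosure_coe]
  rw [Crit, hcl, SetLike.mem_coe, Submodule.mem_orthogonal] at hcrit
  have h1 := hcrit _ hmem
  rw [inner_zvec] at h1
  have h2 : ∫ x, a x ∂μ = μ.real A := by
    rw [integral_congr_ae ha', integral_indicator_one hA]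
  have h3 : ∫ x, b x ∂μ = μ.real B := by
    rw [integral_congr_ae hb', integral_indicator_one hB]
  rw [h2, h3, sub_eq_zero] at h1
  exact (measureReal_eq_measureReal_iff).1 h1

theorem measurableSet_crit (gs : ℕ → PreFull h) :
    MeasurableSet[borel (PreFull h × PreFull h)] {p | Crit gs p} := by
  let _ : MeasurableSpace (PreFull h × PreFull h) := borel _
  have : BorelSpace (PreFull h × PreFull h) := ⟨rfl⟩
  have : SecondCountableTopology (HS μ T₀) := secondCountable_HS
  refine measurableSet_closure_span (fun j p => fam gs p j) (fun j => ?_) (zvec μ)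
  have h1 : StronglyMeasurable (fun p : PreFull h × PreFull h => prj p.1 p.2 (ev (gs j.1))) := by
    refine stronglyMeasurable_of_tendsto (f := fun N p => avg (gs j.1) N p) atTop
      (fun N => (continuous_avg (gs j.1) N).stronglyMeasurable) ?_
    rw [tendsto_pi_nhds]
    rintro ⟨S, T⟩
    exact tendsto_avg (gs j.1) S T
  exact ((continuous_vvec j.2.1 j.2.2).comp continuous_wpos).comp_stronglyMeasurable h1

theorem measurableSet_conjRel (h : Ergodic T₀ μ) :
    MeasurableSet[borel (FullGroup h × FullGroup h)] (conjRel h) := by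
  obtain ⟨gs, hgs⟩ := exists_dense_seq h
  -- the preimage in the group of representatives
  let E : Set (PreFull h × PreFull h) := {p | Crit gs (p.2, p.1)}
  have hE : MeasurableSet[borel (PreFull h × PreFull h)] E := by
    let _ : MeasurableSpace (PreFull h × PreFull h) := borel _
    have : BorelSpace (PreFull h × PreFull h) := ⟨rfl⟩
    have hs : Measurable (Prod.swap : PreFull h × PreFull h → PreFull h × PreFull h) :=
      continuous_swap.measurable
    exact hs (measurableSet_crit gs)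
  let q : PreFull h × PreFull h → FullGroup h × FullGroup h :=
    Prod.map SeparationQuotient.mk SeparationQuotient.mk
  have hq : Topology.IsInducing q :=
    SeparationQuotient.isInducing_mk.prodMap SeparationQuotient.isInducing_mk
  have hqs : Function.Surjective q :=
    SeparationQuotient.surjective_mk.prodMap SeparationQuotient.surjective_mk
  rw [hq.eq_induced, borel_comap] at hE
  obtain ⟨E', hE', hEE⟩ := hE
  have hfin : conjRel h = E' := by
    ext p
    obtain ⟨⟨A, B⟩, rfl⟩ := hqs p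
    have h1 : q (A, B) ∈ E' ↔ (A, B) ∈ E := by rw [← hEE]; rfl
    rw [h1]
    constructor
    · rintro ⟨U, hU⟩
      obtain ⟨V, rfl⟩ := SeparationQuotient.surjective_mk U
      change SeparationQuotient.mk A = SeparationQuotient.mk V * SeparationQuotient.mk B *
        (SeparationQuotient.mk V)⁻¹ at hU
      rw [← SeparationQuotient.mk_inv, ← SeparationQuotient.mk_mul, ← SeparationQuotient.mk_mul,
        SeparationQuotient.mk_eq_mk, Metric.inseparable_iff] at hU
      refine crit_of_conj gs hgs B A V ?_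
      have h2 : μ {x | A.1 x ≠ (V * B * V⁻¹).1 x} = 0 := by
        rw [PreFull.dist_def, measureReal_eq_zero_iff] at hU
        exact hU
      have h3 : ∀ᵐ x ∂μ, A.1 x = (V * B * V⁻¹).1 x := h2
      filter_upwards [V.measurePreserving.quasiMeasurePreserving.ae h3] with x hx
      rw [hx]
      simp
    · intro hc
      obtain ⟨V, hV⟩ := conj_of_crit gs B A hc
      refine ⟨SeparationQuotient.mk V, ?_⟩
      change SeparationQuotient.mk A = SeparationQuotient.mk V * SeparationQuotient.mk B *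
        (SeparationQuotient.mk V)⁻¹
      rw [← SeparationQuotient.mk_inv, ← SeparationQuotient.mk_mul, ← SeparationQuotient.mk_mul,
        SeparationQuotient.mk_eq_mk, Metric.inseparable_iff]
      rw [PreFull.dist_def, measureReal_eq_zero_iff]
      have h3 : ∀ᵐ x ∂μ, A.1 x = (V * B * V⁻¹).1 x := by
        filter_upwards [(V⁻¹).measurePreserving.quasiMeasurePreserving.ae hV] with x hx
        simp only [PreFull.mul_val, PreFull.inv_val, Equiv.Perm.mul_apply] at hx ⊢
        rw [hx]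
        simp
      exact h3
  rw [hfin]
  exact hE'

end PartH3

/-- **Main theorem.** Let `T₀` be an ergodic automorphism of a standard atomless probability space.
The conjugacy relation of its full group `[T₀]`, equipped with the uniform metric, is a Borel
subset of `[T₀] × [T₀]`. -/
theorem result {X : Type*} [MeasurableSpace X] [StandardBorelSpace X] {μ : Measure X}
    [IsProbabilityMeasure μ] [NullSingletonClass μ] {T₀ : X ≃ᵐ X} (h : Ergodic T₀ μ) :
    MeasurableSet[borel (FullGroup h × FullGroup h)]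
      {p : FullGroup h × FullGroup h | ∃ U : FullGroup h, p.1 = U * p.2 * U⁻¹} :=
  measurableSet_conjRel h

end Pool.Agent.Helper212.ConjBorel
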