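import Mathlib
import Pool.Agent.Helper212.Arith

open MeasureTheory Set Filter
open scoped Topology ComplexConjugate

namespace Pool.Agent.Helper212.Sq

noncomputable def muO : Measure Om := Measure.addHaarMeasure ⊤
noncomputable def muY : Measure Yg := Measure.addHaarMeasure ⊤

instance : muO.IsAddHaarMeasure := Measure.isAddHaarMeasure_addHaarMeasure ⊤
instance : muY.IsAddHaarMeasure := Measure.isAddHaarMeasure_addHaarMeasure ⊤
instance : IsProbabilityMeasure muO := ⟨Measure.addHaarMeasure_self (K₀ := ⊤)⟩
instance : IsProbabilityMeasure muY := ⟨Measure.addHaarMeasure_self (K₀ := ⊤)⟩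

noncomputable def mu : Measure XX := muO.prod muY

instance : IsProbabilityMeasure mu := by unfold mu; infer_instance

theorem nhdsNe_Yg : (𝓝[≠] (0 : Yg)).NeBot := by
  rw [neBot_iff]
  intro h
  have hop : IsOpen ({(0 : Yg)} : Set Yg) := (isOpen_singleton_iff_punctured_nhds (0 : Yg)).2 h
  have hc : Continuous fun t : ℝ => ((0, fun _ => (t : UnitAddCircle)) : Yg) := by
    refine continuous_const.prodMk (continuous_pi fun _ => ?_)
    exact AddCircle.continuous_mk' (1:ℝ)
  have h2 := hop.preimage hc
  rw [Metric.isOpen_iff] at h2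
  obtain ⟨ε, hε, hb⟩ := h2 0 (by
    show ((0, fun _ => ((0 : ℝ) : UnitAddCircle)) : Yg) = 0
    rfl)
  set t : ℝ := min (ε / 2) (1 / 2) with ht
  have ht0 : 0 < t := lt_min (by linarith) (by norm_num)
  have ht1 : t < 1 := lt_of_le_of_lt (min_le_right _ _) (by norm_num)
  have htε : t < ε := lt_of_le_of_lt (min_le_left _ _) (by linarith)
  have h3 := hb (show t ∈ Metric.ball 0 ε by
    rw [Metric.mem_ball, Real.dist_eq, sub_zero, abs_of_pos ht0]; exact htε)
  have h4 : ((0, fun _ => ((t : ℝ) : UnitAddCircle)) : Yg) = 0 := h3
  have h5 : ((t : ℝ) : UnitAddCircle) = 0 := congrFun (Prod.ext_iff.1 h4).2 ([], 0)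
  rw [AddCircle.coe_eq_zero_iff] at h5
  obtain ⟨n, hn⟩ := h5
  simp only [zsmul_eq_mul, mul_one] at hn
  rw [← hn] at ht0 ht1
  have h6 : 0 < n := by exact_mod_cast ht0
  have h7 : n < 1 := by exact_mod_cast ht1
  omega

instance : NullSingletonClass muY := by
  have := nhdsNe_Yg
  exact Measure.IsAddHaarMeasure.nullSingletonClass muY

instance : NullSingletonClass mu := by unfold mu; infer_instance

theorem measurable_TT (τ : Tr) : Measurable (TT τ) := by
  have h0 : Continuous fun x : XX => (τ, x) := Continuous.prodMk continuous_const continuous_id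
  have h := Continuous.comp continuous_TT h0
  exact Continuous.measurable h

theorem continuous_AA_snd (τ : Tr) : Continuous (AA τ) := by
  have h0 : Continuous fun ω : Om => (τ, ω) := Continuous.prodMk continuous_const continuous_id
  have h := Continuous.comp continuous_AA h0
  exact h

theorem mp_TT (τ : Tr) : MeasurePreserving (TT τ) mu mu := by
  unfold mu
  refine MeasurePreserving.skew_product (f := id) (g := fun ω y => AA τ ω + y)
    (MeasurePreserving.id muO) ?_ ?_
  · have h0 : Continuous fun p : Om × Yg => p.1 := continuous_fst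
    have h1 := Continuous.comp (continuous_AA_snd τ) h0
    have h2 : Continuous fun p : Om × Yg => p.2 := continuous_snd
    have h3 := Continuous.add h1 h2
    exact Continuous.measurable h3
  · refine Eventually.of_forall fun ω => ?_
    exact (measurePreserving_add_left muY (AA τ ω)).map_eq

end Pool.Agent.Helper212.Sq
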