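import Mathlib
import Pool.Agent.Helper212.Meas

open MeasureTheory Set Filter
open scoped Topology ComplexConjugate

namespace Pool.Agent.Helper212.Sq

/-- no infinite path in the tree, from any starting node -/
def HasPath (τ : Tr) : Prop :=
  ∃ t : ℕ → Node, (∀ k, ∃ i, t (k + 1) = i :: t k) ∧ ∀ k, τ (t (k + 1)) = true

theorem step_lemma (τ : Tr) (ω φ : Om) (s : Node) (h : ∃ N, ∀ n ≥ N, zz τ ω s n = zz τ φ s n)
    (hs : ω s ≠ φ s) : ∃ i, τ (i :: s) = true ∧ ω (i :: s) ≠ φ (i :: s) := by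
  by_contra hne
  push Not at hne
  obtain ⟨N, hN⟩ := h
  have h1 := hN N le_rfl
  unfold zz at h1
  have h2 : (∑ i ∈ Finset.range N, if τ (i :: s) then ω (i :: s) else 0)
      = ∑ i ∈ Finset.range N, if τ (i :: s) then φ (i :: s) else 0 := by
    refine Finset.sum_congr rfl fun i _ => ?_
    split_ifs with hi
    · exact hne i hi
    · rfl
  rw [h2] at h1
  exact hs (add_right_cancel h1)

theorem path_of_ne (τ : Tr) (ω φ : Om) (h : ∀ s, ∃ N, ∀ n ≥ N, zz τ ω s n = zz τ φ s n)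
    (hne : φ ≠ ω) : HasPath τ := by
  obtain ⟨s0, hs0⟩ := Function.ne_iff.1 hne
  choose! nxt hnxt using fun s (hs : ω s ≠ φ s) => step_lemma τ ω φ s (h s) hs
  let t : ℕ → Node := fun k => Nat.rec s0 (fun _ s => nxt s :: s) k
  have ht : ∀ k, ω (t k) ≠ φ (t k) := by
    intro k
    induction k with
    | zero => exact hs0.symm
    | succ k ih => exact (hnxt (t k) ih).2
  exact ⟨t, fun k => ⟨nxt (t k), rfl⟩, fun k => (hnxt (t k) (ht k)).1⟩

theorem inv_fiber (τ : Tr) (F : XX → ℂ) (hF : Measurable F) (hb : ∀ x, ‖F x‖ ≤ 1)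
    (h : ∀ᵐ x ∂mu, F (TT τ x) = F x) :
    ∀ᵐ ω ∂muO, ∀ᵐ y ∂muY, F (ω, y) = ∫ z, F (ω, z) ∂muY := by
  have h1 := Measure.ae_ae_of_ae_prod (show ∀ᵐ x ∂(muO.prod muY), F (TT τ x) = F x from h)
  filter_upwards [h1] with ω hω
  have hm : Measurable fun y : Yg => F (ω, y) := hF.comp measurable_prodMk_left
  refine fam.ae_const muY (fun y => F (ω, y))
    (MemLp.of_bound hm.aestronglyMeasurable 1 (Eventually.of_forall fun y => hb _)) (AA τ ω) hω ?_
  intro d hd y
  have : d = 0 := key0 τ ω d hd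
  rw [this]
  exact fam.zero_idx y

theorem noroot (τ : Tr) (S : XX → XX) (hS : MeasurePreserving S mu mu)
    (hSS : ∀ᵐ x ∂mu, S (S x) = TT τ x) : HasPath τ := by
  by_contra hno
  have mT := measurable_TT τ
  -- S commutes with T
  have comm : ∀ᵐ x ∂mu, S (TT τ x) = TT τ (S x) := by
    have h1 : ∀ᵐ x ∂mu, S (S (S x)) = TT τ (S x) := hS.quasiMeasurePreserving.ae hSS
    filter_upwards [hSS, h1] with x hx hx1
    rw [← hx1, hx]
  have comm' := Measure.ae_ae_of_ae_prod (show ∀ᵐ x ∂(muO.prod muY), S (TT τ x) = TT τ (S x) from comm)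
  -- the base map
  have hbase : ∀ᵐ ω ∂muO, ∃ φ : Om, ∀ᵐ y ∂muY, (S (ω, y)).1 = φ := by
    have hs : ∀ s : Node, ∀ᵐ ω ∂muO, ∀ᵐ y ∂muY,
        (if (S (ω, y)).1 s = 0 then (0 : ℂ) else 1) = ∫ z, (if (S (ω, z)).1 s = 0 then (0 : ℂ) else 1) ∂muY := by
      intro s
      refine inv_fiber τ (fun x => if (S x).1 s = 0 then (0 : ℂ) else 1) ?_ ?_ ?_
      · refine Measurable.ite ?_ measurable_const measurable_const
        have : Measurable fun x => (S x).1 s := (measurable_pi_apply s).comp (measurable_fst.comp hS.measurable)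
        exact this (measurableSet_singleton 0)
      · intro x
        split_ifs <;> simp
      · filter_upwards [comm] with x hx
        rw [hx]
        rfl
    rw [← ae_all_iff] at hs
    filter_upwards [hs] with ω hω
    refine ⟨fun s => if (∫ z, (if (S (ω, z)).1 s = 0 then (0 : ℂ) else 1) ∂muY) = 0 then 0 else 1, ?_⟩
    rw [← ae_all_iff] at hω
    filter_upwards [hω] with y hy
    funext s
    have h1 := hy s
    rw [← h1]
    rcases zmod2_cases ((S (ω, y)).1 s) with h0 | h0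
    · rw [h0]; simp
    · rw [h0]; simp
  -- the base map is the identity
  have hid : ∀ᵐ ω ∂muO, ∀ᵐ y ∂muY, (S (ω, y)).1 = ω := by
    filter_upwards [hbase, comm'] with ω hφ hc
    obtain ⟨φ, hφ⟩ := hφ
    have hz : ∀ s, ∃ N, ∀ n ≥ N, zz τ ω s n = zz τ φ s n := by
      intro s
      have mf : Measurable fun y : Yg => ((AddCircle.toCircle ((S (ω, y)).2.2 (s, 0)) : Circle) : ℂ) := by
        have m1 : Measurable fun y : Yg => (S (ω, y)).2.2 (s, 0) :=
          (measurable_pi_apply (s, 0)).comp (measurable_snd.comp (measurable_snd.comp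
            (hS.measurable.comp measurable_prodMk_left)))
        have m2 : Continuous fun c : UnitAddCircle => ((AddCircle.toCircle c : Circle) : ℂ) :=
          continuous_induced_dom.comp AddCircle.continuous_toCircle
        exact m2.measurable.comp m1
      obtain ⟨d, hd⟩ := fam.exists_char_eq muY
        (fun y => ((AddCircle.toCircle ((S (ω, y)).2.2 (s, 0)) : Circle) : ℂ))
        (MemLp.of_bound mf.aestronglyMeasurable 1 (Eventually.of_forall fun y => by simp))
        (by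
          intro h0
          obtain ⟨y, hy⟩ := h0.exists
          have h9 : ‖((AddCircle.toCircle ((S (ω, y)).2.2 (s, 0)) : Circle) : ℂ)‖ = ‖(0 : ℂ)‖ :=
            congrArg norm hy
          rw [Circle.norm_coe, norm_zero] at h9
          exact one_ne_zero h9)
        (AA τ ω) ((AddCircle.toCircle ((al τ φ s : ℝ) : UnitAddCircle) : Circle) : ℂ)
        (by
          filter_upwards [hφ, hc] with y hy1 hy2
          have h3 : S (ω, AA τ ω + y) = TT τ (S (ω, y)) := hy2
          rw [h3]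
          have h4 : (TT τ (S (ω, y))).2.2 (s, 0) = ((al τ φ s : ℝ) : UnitAddCircle) + (S (ω, y)).2.2 (s, 0) := by
            show (aa τ (S (ω, y)).1) (s, 0) + (S (ω, y)).2.2 (s, 0) = _
            rw [hy1]
            rfl
          rw [h4, AddCircle.toCircle_add, Circle.coe_mul])
      exact key1 τ ω φ s d hd
    have heq : φ = ω := by
      by_contra hne
      exact hno (path_of_ne τ ω φ hz hne)
    rw [heq] at hφ
    exact hφ
  have hfix : ∀ᵐ x ∂mu, (S x).1 = x.1 := by
    have hm : MeasurableSet {x : XX | (S x).1 = x.1} :=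
      measurableSet_eq_fun (measurable_fst.comp hS.measurable) measurable_fst
    exact (Measure.ae_prod_iff_ae_ae hm).2 hid
  -- the sign function
  set G : XX → ℂ := fun x => ((sg 1 (S x).2.1 : ℤ) : ℂ) * ((sg 1 x.2.1 : ℤ) : ℂ) with hG
  have msg : Measurable fun c : ZMod 2 => ((sg 1 c : ℤ) : ℂ) := measurable_of_countable _
  have mG : Measurable G :=
    (msg.comp (measurable_fst.comp (measurable_snd.comp hS.measurable))).mul
      (msg.comp (measurable_fst.comp measurable_snd))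
  have sgn_add : ∀ c : ZMod 2, sg 1 (1 + c) = - sg 1 c := by decide
  have sgn_sq : ∀ c : ZMod 2, ((sg 1 c : ℤ) : ℂ) * ((sg 1 c : ℤ) : ℂ) = 1 := by
    intro c; rw [← Int.cast_mul, sg_mul_self, Int.cast_one]
  have sgT : ∀ x, (sg 1 (TT τ x).2.1 : ℤ) = - sg 1 x.2.1 := fun x => sgn_add _
  have hGb : ∀ x, ‖G x‖ ≤ 1 := by
    intro x
    have h1 : ∀ c : ZMod 2, ‖((sg 1 c : ℤ) : ℂ)‖ = 1 := by
      intro c
      have : sg 1 c = 1 ∨ sg 1 c = -1 := by revert c; decide
      rcases this with h | h <;> rw [h] <;> simp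
    simp only [hG, norm_mul, h1, mul_one, le_refl]
  have hGT : ∀ᵐ x ∂mu, G (TT τ x) = G x := by
    filter_upwards [comm] with x hx
    simp only [hG]
    rw [hx, sgT, sgT]
    push_cast
    ring
  have hGc := inv_fiber τ G mG hGb hGT
  have mc : Measurable fun ω : Om => ∫ z, G (ω, z) ∂muY :=
    (mG.stronglyMeasurable.integral_prod_right').measurable
  have hGc' : ∀ᵐ x ∂mu, G x = ∫ z, G (x.1, z) ∂muY := by
    have hm : MeasurableSet {x : XX | G x = ∫ z, G (x.1, z) ∂muY} :=
      measurableSet_eq_fun mG (mc.comp measurable_fst)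
    exact (Measure.ae_prod_iff_ae_ae hm).2 hGc
  have hGS : ∀ᵐ x ∂mu, G (S x) = ∫ z, G ((S x).1, z) ∂muY := hS.quasiMeasurePreserving.ae hGc'
  obtain ⟨x, hx1, hx2, hx3, hx4⟩ := (hGc'.and (hGS.and (hfix.and hSS))).exists
  rw [hx3, ← hx1] at hx2
  simp only [hG] at hx2
  rw [hx4, sgT] at hx2
  push_cast at hx2
  have h5 : ((sg 1 (S x).2.1 : ℤ) : ℂ) * ((sg 1 x.2.1 : ℤ) : ℂ) = 0 := by
    have h6 : -((sg 1 (S x).2.1 : ℤ) : ℂ) * ((sg 1 x.2.1 : ℤ) : ℂ)
        = ((sg 1 (S x).2.1 : ℤ) : ℂ) * ((sg 1 x.2.1 : ℤ) : ℂ) := by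
      rw [← hx2]; ring
    have h7 : (2 : ℂ) * (((sg 1 (S x).2.1 : ℤ) : ℂ) * ((sg 1 x.2.1 : ℤ) : ℂ)) = 0 := by
      linear_combination -h6
    simpa using h7
  have h8 := sgn_sq (S x).2.1
  have h9 := sgn_sq x.2.1
  rcases mul_eq_zero.1 h5 with h | h
  · rw [h] at h8; simp at h8
  · rw [h] at h9; simp at h9

end Pool.Agent.Helper212.Sq
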