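import Mathlib
import Pool.Agent.Helper212.NoRoot

open MeasureTheory Set Filter
open scoped Topology ComplexConjugate

namespace Pool.Agent.Helper212.Sq

/-- nodes along a branch (reversed initial segments) -/
def br (b : ℕ → ℕ) : ℕ → Node
  | 0 => []
  | n + 1 => b n :: br b n

theorem br_length (b : ℕ → ℕ) (n : ℕ) : (br b n).length = n := by
  induction n with
  | zero => rfl
  | succ n ih => simp [br, ih]

def eps (b : ℕ → ℕ) : Om := fun s => if s = br b s.length then 1 else 0

theorem eps_nil (b : ℕ → ℕ) : eps b [] = 1 := by simp [eps, br]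

theorem eps_cons (b : ℕ → ℕ) (i : ℕ) (s : Node) :
    eps b (i :: s) = if i = b s.length ∧ s = br b s.length then 1 else 0 := by
  simp only [eps, List.length_cons, br, List.cons.injEq]

theorem zz_add (τ : Tr) (ω ε : Om) (s : Node) (n : ℕ) : zz τ (ω + ε) s n = zz τ ω s n + zz τ ε s n := by
  unfold zz
  rw [Pi.add_apply]
  have : (∑ i ∈ Finset.range n, if τ (i :: s) = true then (ω + ε) (i :: s) else 0)
      = (∑ i ∈ Finset.range n, if τ (i :: s) = true then ω (i :: s) else 0)
        + ∑ i ∈ Finset.range n, if τ (i :: s) = true then ε (i :: s) else 0 := by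
    rw [← Finset.sum_add_distrib]
    refine Finset.sum_congr rfl fun i _ => ?_
    split_ifs
    · rfl
    · rw [add_zero]
  rw [this]
  ring

theorem zz_eps (τ : Tr) (b : ℕ → ℕ) (hb : ∀ n, τ (br b n) = true) (s : Node) (n : ℕ)
    (hn : b s.length + 1 ≤ n) : zz τ (eps b) s n = 0 := by
  unfold zz
  by_cases hs : s = br b s.length
  · have h1 : eps b s = 1 := by unfold eps; rw [if_pos hs]
    have h2 : (∑ i ∈ Finset.range n, if τ (i :: s) = true then eps b (i :: s) else 0) = 1 := by
      rw [Finset.sum_eq_single (b s.length)]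
      · have h3 : τ (b s.length :: s) = true := by
          have := hb (s.length + 1)
          rwa [br, ← hs] at this
        rw [if_pos h3, eps_cons, if_pos ⟨rfl, hs⟩]
      · intro i _ hi
        have h5 : eps b (i :: s) = 0 := by
          rw [eps_cons]; exact if_neg (fun h => hi h.1)
        rw [h5]; simp
      · intro h
        exact absurd (Finset.mem_range.2 (by omega)) h
    rw [h1, h2]
    decide
  · have h1 : eps b s = 0 := by unfold eps; rw [if_neg hs]
    rw [h1, zero_add]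
    refine Finset.sum_eq_zero fun i _ => ?_
    have h5 : eps b (i :: s) = 0 := by
      rw [eps_cons]; exact if_neg (fun h => hs h.2)
    rw [h5]; simp

/-- change of digits -/
def Dd (τ : Tr) (b : ℕ → ℕ) (ω : Om) (s : Node) (n : ℕ) : ℤ :=
  dg (zz τ (ω + eps b) s n) - dg (zz τ ω s n)

theorem om_add_self (ε : Om) : ε + ε = 0 := by
  funext s
  have : ∀ c : ZMod 2, c + c = 0 := by decide
  exact this _

theorem om_add_eps_eps (ω ε : Om) : ω + ε + ε = ω := by
  rw [add_assoc, om_add_self, add_zero]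

theorem Dd_eps (τ : Tr) (b : ℕ → ℕ) (ω : Om) (s : Node) (n : ℕ) :
    Dd τ b (ω + eps b) s n = - Dd τ b ω s n := by
  unfold Dd
  rw [om_add_eps_eps]
  ring

theorem Dd_zero (τ : Tr) (b : ℕ → ℕ) (hb : ∀ n, τ (br b n) = true) (ω : Om) (s : Node) (n : ℕ)
    (hn : b s.length + 1 ≤ n) : Dd τ b ω s n = 0 := by
  unfold Dd
  rw [zz_add, zz_eps τ b hb s n hn, add_zero, sub_self]

theorem cc_eps (τ : Tr) (b : ℕ → ℕ) (hb : ∀ n, τ (br b n) = true) (ω : Om) (s : Node) :
    cc τ (ω + eps b) s = cc τ ω s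
      + ∑ n ∈ Finset.range (b s.length + 1), Dd τ b ω s n • Pi.single ((s, n) : Node × ℕ) (1 : ℤ) := by
  funext j
  obtain ⟨s', n⟩ := j
  simp only [Pi.add_apply, Finset.sum_apply, Pi.smul_apply, smul_eq_mul]
  by_cases h : s' = s
  · subst h
    have h1 : (∑ i ∈ Finset.range (b s'.length + 1), Dd τ b ω s' i * (Pi.single ((s', i) : Node × ℕ) (1 : ℤ) : Node × ℕ → ℤ) (s', n))
        = Dd τ b ω s' n := by
      by_cases hn : n < b s'.length + 1
      · rw [Finset.sum_eq_single n]
        · simp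
        · intro i _ hi
          rw [Pi.single_eq_of_ne (by intro h2; exact hi (by simpa using h2.symm)), mul_zero]
        · intro h2; exact absurd (Finset.mem_range.2 hn) h2
      · rw [Dd_zero τ b hb ω s' n (by omega)]
        refine Finset.sum_eq_zero fun i hi => ?_
        rw [Finset.mem_range] at hi
        rw [Pi.single_eq_of_ne (by intro h2; have : n = i := by simpa using h2
                                   omega), mul_zero]
    rw [h1]
    simp only [cc, if_true, Dd]
    ring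
  · have h1 : (∑ i ∈ Finset.range (b s.length + 1), Dd τ b ω s i * (Pi.single ((s, i) : Node × ℕ) (1 : ℤ) : Node × ℕ → ℤ) (s', n)) = 0 := by
      refine Finset.sum_eq_zero fun i _ => ?_
      rw [Pi.single_eq_of_ne (by intro h2; exact h (Prod.ext_iff.1 h2).1), mul_zero]
    rw [h1]
    simp [cc, h]

theorem Phi_sum (s : Node) (D : ℕ → ℤ) (N : ℕ) :
    Bdd (∑ n ∈ Finset.range N, D n • Pi.single ((s, n) : Node × ℕ) (1 : ℤ)) ∧
    Phi (∑ n ∈ Finset.range N, D n • Pi.single ((s, n) : Node × ℕ) (1 : ℤ))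
      = ∑ n ∈ Finset.range N, (D n : ℝ) * gm (s, n) := by
  induction N with
  | zero => simp [Bdd.zero, Phi_zero]
  | succ N ih =>
    rw [Finset.sum_range_succ, Finset.sum_range_succ]
    refine ⟨ih.1.add ((single_bdd _).zsmul _), ?_⟩
    rw [Phi_add ih.1 ((single_bdd _).zsmul _), ih.2, Phi_zsmul]
    rfl

theorem al_eps (τ : Tr) (b : ℕ → ℕ) (hb : ∀ n, τ (br b n) = true) (ω : Om) (s : Node) :
    al τ (ω + eps b) s = al τ ω s
      + ∑ n ∈ Finset.range (b s.length + 1), (Dd τ b ω s n : ℝ) * gm (s, n) := by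
  unfold al
  rw [cc_eps τ b hb, Phi_add (cc_bdd _ _ _) (Phi_sum s _ _).1, (Phi_sum s _ _).2]

/-- the correction of the fibre coordinate -/
noncomputable def WW (τ : Tr) (b : ℕ → ℕ) (ω : Om) (k : Tor) : Tor := fun j =>
  if j.2 = 0 then ∑ n ∈ Finset.range (b j.1.length + 1), Dd τ b ω j.1 n • k (j.1, n + 1) else 0

theorem WW_add (τ : Tr) (b : ℕ → ℕ) (ω : Om) (k k' : Tor) :
    WW τ b ω (k + k') = WW τ b ω k + WW τ b ω k' := by
  funext j
  simp only [WW, Pi.add_apply]
  split_ifs
  · rw [← Finset.sum_add_distrib]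
    exact Finset.sum_congr rfl fun n _ => smul_add _ _ _
  · rw [add_zero]

theorem WW_WW (τ : Tr) (b : ℕ → ℕ) (ω ω' : Om) (k : Tor) : WW τ b ω (WW τ b ω' k) = 0 := by
  funext j
  by_cases h : j.2 = 0 <;> simp [WW, h]

theorem WW_eps (τ : Tr) (b : ℕ → ℕ) (ω : Om) (k : Tor) : WW τ b (ω + eps b) k = - WW τ b ω k := by
  funext j
  simp only [WW, Pi.neg_apply]
  split_ifs
  · rw [← Finset.sum_neg_distrib]
    refine Finset.sum_congr rfl fun n _ => ?_
    rw [Dd_eps, neg_smul]
  · rw [neg_zero]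

theorem aa_eps (τ : Tr) (b : ℕ → ℕ) (hb : ∀ n, τ (br b n) = true) (ω : Om) :
    aa τ (ω + eps b) = aa τ ω + WW τ b ω (aa τ ω) := by
  funext j
  obtain ⟨s, k⟩ := j
  rcases k with _ | k
  · have h1 : aa τ (ω + eps b) (s, 0) = ((al τ (ω + eps b) s : ℝ) : UnitAddCircle) := rfl
    have h2 : aa τ ω (s, 0) = ((al τ ω s : ℝ) : UnitAddCircle) := rfl
    have h3 : WW τ b ω (aa τ ω) (s, 0)
        = ∑ n ∈ Finset.range (b s.length + 1), Dd τ b ω s n • aa τ ω (s, n + 1) := rfl
    have h4 : ∀ n, aa τ ω (s, n + 1) = ((gm (s, n) : ℝ) : UnitAddCircle) := fun n => rfl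
    rw [Pi.add_apply, h1, h2, h3, al_eps τ b hb, AddCircle.coe_add]
    congr 1
    rw [← QuotientAddGroup.mk'_apply, map_sum]
    refine Finset.sum_congr rfl fun n _ => ?_
    rw [h4, QuotientAddGroup.mk'_apply]
    have : (Dd τ b ω s n : ℝ) * gm (s, n) = Dd τ b ω s n • gm (s, n) := by simp
    rw [this]
    exact AddCircle.coe_zsmul (1:ℝ)
  · have h1 : aa τ (ω + eps b) (s, k + 1) = aa τ ω (s, k + 1) := rfl
    have h3 : WW τ b ω (aa τ ω) (s, k + 1) = 0 := rfl
    rw [Pi.add_apply, h1, h3, add_zero]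

end Pool.Agent.Helper212.Sq
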