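import Mathlib
import Pool.Agent.Helper212.Root

open MeasureTheory Set Filter
open scoped Topology ComplexConjugate

namespace Pool.Agent.Helper212.Sq

theorem continuous_Dd (τ : Tr) (b : ℕ → ℕ) (s : Node) (n : ℕ) : Continuous fun ω : Om => Dd τ b ω s n := by
  have h0 : Continuous fun ω : Om => (τ, ω) := Continuous.prodMk continuous_const continuous_id
  have h1 := Continuous.comp (continuous_zz s n) h0
  have h2 : Continuous fun ω : Om => (τ, ω + eps b) :=
    Continuous.prodMk continuous_const (continuous_id.add continuous_const)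
  have h3 := Continuous.comp (continuous_zz s n) h2
  have hd : Continuous dg := continuous_of_discreteTopology
  exact (hd.comp h3).sub (hd.comp h1)

theorem continuous_WW (τ : Tr) (b : ℕ → ℕ) : Continuous fun p : Om × Tor => WW τ b p.1 p.2 := by
  refine continuous_pi fun j => ?_
  unfold WW
  split_ifs
  · refine continuous_finsetSum _ fun n _ => ?_
    have h1 : Continuous fun p : Om × Tor => Dd τ b p.1 j.1 n :=
      (continuous_Dd τ b j.1 n).comp continuous_fst
    have h2 : Continuous fun p : Om × Tor => p.2 (j.1, n + 1) :=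
      (continuous_apply _).comp continuous_snd
    have h3 : Continuous fun q : ℤ × UnitAddCircle => q.1 • q.2 :=
      (AddGroup.continuousSMul_int (A := UnitAddCircle)).continuous_smul
    exact h3.comp (h1.prodMk h2)
  · exact continuous_const

noncomputable def VV (τ : Tr) (b : ℕ → ℕ) (ω : Om) (y : Yg) : Yg := (y.1, y.2 + WW τ b ω y.2)

theorem continuous_VV (τ : Tr) (b : ℕ → ℕ) : Continuous fun p : Om × Yg => VV τ b p.1 p.2 := by
  have h1 : Continuous fun p : Om × Yg => (p.1, p.2.2) :=
    continuous_fst.prodMk (continuous_snd.comp continuous_snd)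
  have h2 := Continuous.comp (continuous_WW τ b) h1
  have h3 : Continuous fun p : Om × Yg => p.2.2 := continuous_snd.comp continuous_snd
  have h4 := Continuous.add h3 h2
  have h5 : Continuous fun p : Om × Yg => p.2.1 := continuous_fst.comp continuous_snd
  exact Continuous.prodMk h5 h4

theorem VV_VV (τ : Tr) (b : ℕ → ℕ) (ω : Om) (y : Yg) : VV τ b (ω + eps b) (VV τ b ω y) = y := by
  unfold VV
  refine Prod.ext rfl ?_
  show y.2 + WW τ b ω y.2 + WW τ b (ω + eps b) (y.2 + WW τ b ω y.2) = y.2
  rw [WW_add, WW_WW, WW_eps, add_zero, add_assoc, add_neg_cancel, add_zero]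

theorem VV_VV' (τ : Tr) (b : ℕ → ℕ) (ω : Om) (y : Yg) : VV τ b ω (VV τ b (ω + eps b) y) = y := by
  have := VV_VV τ b (ω + eps b) y
  rwa [om_add_eps_eps] at this

theorem VV_add (τ : Tr) (b : ℕ → ℕ) (ω : Om) (y y' : Yg) :
    VV τ b ω (y + y') = VV τ b ω y + VV τ b ω y' := by
  unfold VV
  refine Prod.ext rfl ?_
  show (y.2 + y'.2) + WW τ b ω (y.2 + y'.2) = (y.2 + WW τ b ω y.2) + (y'.2 + WW τ b ω y'.2)
  rw [WW_add]
  abel

theorem VV_AA (τ : Tr) (b : ℕ → ℕ) (hb : ∀ n, τ (br b n) = true) (ω : Om) :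
    VV τ b ω (AA τ ω) = AA τ (ω + eps b) := by
  unfold VV AA
  refine Prod.ext rfl ?_
  exact (aa_eps τ b hb ω).symm

theorem mp_VV (τ : Tr) (b : ℕ → ℕ) (ω : Om) : MeasurePreserving (VV τ b ω) muY muY := by
  have hc : Continuous (VV τ b ω) := by
    have h0 : Continuous fun y : Yg => (ω, y) := Continuous.prodMk continuous_const continuous_id
    have h := Continuous.comp (continuous_VV τ b) h0
    exact h
  let f : Yg →+ Yg := AddMonoidHom.mk' (VV τ b ω) (VV_add τ b ω)
  exact AddMonoidHom.measurePreserving (μ := muY) (ν := muY) (f := f) hc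
    (fun y => ⟨VV τ b (ω + eps b) y, VV_VV' τ b ω y⟩) rfl

noncomputable def beta (τ : Tr) (b : ℕ → ℕ) (ω : Om) : Yg :=
  if ω [] = 0 then 0 else AA τ (ω + eps b)

noncomputable def SS (τ : Tr) (b : ℕ → ℕ) (x : XX) : XX :=
  (x.1 + eps b, beta τ b x.1 + VV τ b x.1 x.2)

theorem SS_SS (τ : Tr) (b : ℕ → ℕ) (hb : ∀ n, τ (br b n) = true) (x : XX) :
    SS τ b (SS τ b x) = TT τ x := by
  obtain ⟨ω, y⟩ := x
  unfold SS TT
  refine Prod.ext (om_add_eps_eps ω (eps b)) ?_
  show beta τ b (ω + eps b) + VV τ b (ω + eps b) (beta τ b ω + VV τ b ω y) = AA τ ω + y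
  rw [VV_add, VV_VV]
  have h1 : (ω + eps b) [] = ω [] + 1 := by rw [Pi.add_apply, eps_nil]
  unfold beta
  rcases zmod2_cases (ω []) with h0 | h0
  · have h2 : ¬ ((ω + eps b) [] = 0) := by rw [h1, h0]; decide
    rw [if_neg h2, if_pos h0, om_add_eps_eps]
    have h3 : VV τ b (ω + eps b) 0 = 0 := by
      have h4 := VV_add τ b (ω + eps b) 0 0
      rw [add_zero] at h4
      exact (left_eq_add.1 h4)
    rw [h3, zero_add]
  · have h2 : (ω + eps b) [] = 0 := by rw [h1, h0]; decide
    have h3 : ¬ (ω [] = 0) := by rw [h0]; decide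
    rw [if_pos h2, if_neg h3, VV_AA τ b hb, om_add_eps_eps, zero_add]

theorem measurable_beta (τ : Tr) (b : ℕ → ℕ) : Measurable (beta τ b) := by
  unfold beta
  refine Measurable.ite ?_ measurable_const ?_
  · exact (measurable_pi_apply []) (measurableSet_singleton 0)
  · have h0 : Continuous fun ω : Om => ω + eps b := continuous_id.add continuous_const
    have h1 := Continuous.comp (continuous_AA_snd τ) h0
    exact Continuous.measurable h1

theorem mp_SS (τ : Tr) (b : ℕ → ℕ) : MeasurePreserving (SS τ b) mu mu := by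
  unfold mu
  have h0 : MeasurePreserving (fun ω : Om => ω + eps b) muO muO := measurePreserving_add_right muO (eps b)
  refine MeasurePreserving.skew_product (g := fun ω y => beta τ b ω + VV τ b ω y) h0 ?_ ?_
  · have h1 : Measurable fun p : Om × Yg => beta τ b p.1 := (measurable_beta τ b).comp measurable_fst
    have h2 := Continuous.measurable (continuous_VV τ b)
    exact h1.add h2
  · refine Eventually.of_forall fun ω => ?_
    exact ((measurePreserving_add_left muY (beta τ b ω)).comp (mp_VV τ b ω)).map_eq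

/-- the inverse of TT -/
noncomputable def TI (τ : Tr) (x : XX) : XX := (x.1, - AA τ x.1 + x.2)

theorem TI_TT (τ : Tr) (x : XX) : TI τ (TT τ x) = x := by
  unfold TI TT
  refine Prod.ext rfl ?_
  exact neg_add_cancel_left _ _

theorem TT_TI (τ : Tr) (x : XX) : TT τ (TI τ x) = x := by
  unfold TI TT
  refine Prod.ext rfl ?_
  exact add_neg_cancel_left _ _

theorem measurable_TI (τ : Tr) : Measurable (TI τ) := by
  have h0 : Continuous fun x : XX => x.1 := continuous_fst
  have h1 := Continuous.comp (continuous_AA_snd τ) h0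
  have h2 : Continuous fun x : XX => x.2 := continuous_snd
  have h3 := Continuous.add (Continuous.neg h1) h2
  exact Continuous.measurable (Continuous.prodMk h0 h3)

noncomputable def TE (τ : Tr) : XX ≃ᵐ XX where
  toFun := TT τ
  invFun := TI τ
  left_inv := TI_TT τ
  right_inv := TT_TI τ
  measurable_toFun := measurable_TT τ
  measurable_invFun := measurable_TI τ

noncomputable def SE (τ : Tr) (b : ℕ → ℕ) (hb : ∀ n, τ (br b n) = true) : XX ≃ᵐ XX where
  toFun := SS τ b
  invFun := fun x => TI τ (SS τ b x)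
  left_inv := fun x => by
    show TI τ (SS τ b (SS τ b x)) = x
    rw [SS_SS τ b hb, TI_TT]
  right_inv := fun x => by
    have h1 : ∀ x, SS τ b (TT τ x) = TT τ (SS τ b x) := fun x => by
      rw [← SS_SS τ b hb, ← SS_SS τ b hb]
    have h2 : SS τ b (TI τ (SS τ b x)) = TI τ (SS τ b (SS τ b x)) := by
      rw [← TI_TT τ (SS τ b (TI τ (SS τ b x))), ← h1, TT_TI]
    show SS τ b (TI τ (SS τ b x)) = x
    rw [h2, SS_SS τ b hb, TI_TT]
  measurable_toFun := (mp_SS τ b).measurable
  measurable_invFun := (measurable_TI τ).comp (mp_SS τ b).measurable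

end Pool.Agent.Helper212.Sq
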