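import Mathlib
import Pool.Agent.Helper212.Root2

open MeasureTheory Set Filter
open scoped Topology ComplexConjugate Uniformity

namespace Pool.Agent.Helper212.Sq

theorem wr_mu : mu.WeaklyRegular := by
  have h1 : TopologicalSpace.PseudoMetrizableSpace XX := inferInstance
  have h2 : BorelSpace XX := inferInstance
  exact @Measure.WeaklyRegular.of_pseudoMetrizableSpace_of_isFiniteMeasure XX _ h1 _ h2 mu _

theorem continuous_TT_left (x : XX) : Continuous fun τ : Tr => TT τ x := by
  have h0 : Continuous fun τ : Tr => (τ, x) := Continuous.prodMk continuous_id continuous_const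
  have h := Continuous.comp continuous_TT h0
  exact h

theorem continuous_meas (A B : Set XX) (hA : MeasurableSet A) :
    Continuous fun τ : Tr => (mu ((TT τ) ⁻¹' A ∩ B)).toReal := by
  have hval : ∀ τ : Tr, (mu ((TT τ) ⁻¹' A ∩ B)).toReal = ∫ x in B, A.indicator (fun _ => (1:ℝ)) (TT τ x) ∂mu := by
    intro τ
    have h1 : (fun x => A.indicator (fun _ => (1:ℝ)) (TT τ x)) = ((TT τ) ⁻¹' A).indicator (fun _ => (1:ℝ)) := by
      ext x; rfl
    have h2 : MeasurableSet ((TT τ) ⁻¹' A) := measurable_TT τ hA
    rw [h1, integral_indicator h2, setIntegral_const]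
    simp only [smul_eq_mul, mul_one]
    rw [measureReal_restrict_apply h2]
    rfl
  simp only [hval]
  have := wr_mu
  have hint : Integrable (A.indicator (fun _ => (1:ℝ))) mu := (integrable_const 1).indicator hA
  refine continuous_of_uniform_approx_of_continuous fun u hu => ?_
  obtain ⟨ε, hε, hεu⟩ := Metric.mem_uniformity_dist.1 hu
  obtain ⟨g, hg1, hg2⟩ := hint.exists_boundedContinuous_integral_sub_le (half_pos hε)
  refine ⟨fun τ => ∫ x in B, g (TT τ x) ∂mu, ?_, fun τ => hεu ?_⟩
  · refine continuous_of_dominated (bound := fun _ => ‖g‖) ?_ ?_ ?_ ?_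
    · intro τ
      exact (g.continuous.measurable.comp (measurable_TT τ)).aestronglyMeasurable
    · intro τ
      exact Eventually.of_forall fun x => g.norm_coe_le_norm _
    · exact integrable_const _
    · exact Eventually.of_forall fun x => g.continuous.comp (continuous_TT_left x)
  · have hT := mp_TT τ
    have i1 : Integrable (fun x => A.indicator (fun _ => (1:ℝ)) (TT τ x)) mu := hT.integrable_comp_of_integrable hint
    have i2 : Integrable (fun x => g (TT τ x)) mu := hT.integrable_comp_of_integrable hg2
    rw [dist_eq_norm, ← integral_sub i1.restrict i2.restrict]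
    calc ‖∫ x in B, (A.indicator (fun _ => (1:ℝ)) (TT τ x) - g (TT τ x)) ∂mu‖
        ≤ ∫ x in B, ‖A.indicator (fun _ => (1:ℝ)) (TT τ x) - g (TT τ x)‖ ∂mu := norm_integral_le_integral_norm _
      _ ≤ ∫ x, ‖A.indicator (fun _ => (1:ℝ)) (TT τ x) - g (TT τ x)‖ ∂mu :=
          setIntegral_le_integral (i1.sub i2).norm (Eventually.of_forall fun x => norm_nonneg _)
      _ = ∫ x, ‖A.indicator (fun _ => (1:ℝ)) x - g x‖ ∂mu := by
          have h3 : MeasurePreserving (TE τ) mu mu := hT
          exact h3.integral_comp' (fun x => ‖A.indicator (fun _ => (1:ℝ)) x - g x‖)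
      _ ≤ ε / 2 := hg1
      _ < ε := half_lt_self hε

end Pool.Agent.Helper212.Sq
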