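import Mathlib
import Pool.Agent.Helper212.Root2

open MeasureTheory Set Filter
open scoped Topology

namespace Pool.Agent.Helper212.Sq

/-- `z` extends the reversed finite sequence `s` -/
def Ext (z : ℕ → ℕ) : Node → Prop
  | [] => True
  | i :: s => z s.length = i ∧ Ext z s

theorem ext_congr {z z' : ℕ → ℕ} {s : Node} (h : ∀ n < s.length, z n = z' n) (hs : Ext z s) : Ext z' s := by
  induction s with
  | nil => trivial
  | cons i s ih =>
    refine ⟨?_, ih (fun n hn => h n (by simp; omega)) hs.2⟩
    rw [← h s.length (by simp)]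
    exact hs.1

theorem ext_agree {z z' : ℕ → ℕ} {s : Node} (hs : Ext z s) (hs' : Ext z' s) :
    ∀ n < s.length, z n = z' n := by
  induction s with
  | nil => intro n hn; simp at hn
  | cons i s ih =>
    intro n hn
    rw [List.length_cons] at hn
    rcases Nat.lt_succ_iff_lt_or_eq.1 hn with h | h
    · exact ih hs.2 hs'.2 n h
    · rw [h, hs.1, hs'.1]

theorem ext_br (b : ℕ → ℕ) (n : ℕ) : Ext b (br b n) := by
  induction n with
  | zero => trivial
  | succ n ih => exact ⟨by rw [br_length], ih⟩

open Classical in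
noncomputable def tree (g : (ℕ → ℕ) → (ℕ → ℕ)) (y : ℕ → ℕ) : Tr :=
  fun s => decide (∃ z, Ext z s ∧ ∀ n < s.length, g z n = y n)

theorem continuous_tree (g : (ℕ → ℕ) → (ℕ → ℕ)) : Continuous (tree g) := by
  classical
  refine continuous_pi fun s => ?_
  have h1 : (fun y : ℕ → ℕ => tree g y s)
      = (fun v : Fin s.length → ℕ => decide (∃ z, Ext z s ∧ ∀ n : Fin s.length, g z n = v n)) ∘
        (fun y : ℕ → ℕ => fun n : Fin s.length => y n) := by
    funext y
    simp only [tree, Function.comp]
    congr 1
    refine propext (exists_congr fun z => and_congr_right fun _ => ?_)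
    exact ⟨fun h n => h n n.2, fun h n hn => h ⟨n, hn⟩⟩
  rw [h1]
  refine continuous_of_discreteTopology.comp ?_
  exact continuous_pi fun n => continuous_apply _

theorem tree_branch (g : (ℕ → ℕ) → (ℕ → ℕ)) (b : ℕ → ℕ) (n : ℕ) : tree g (g b) (br b n) = true := by
  simp only [tree, decide_eq_true_eq]
  exact ⟨b, ext_br b n, fun _ _ => rfl⟩

theorem tree_path (g : (ℕ → ℕ) → (ℕ → ℕ)) (hg : Continuous g) (y : ℕ → ℕ) (h : HasPath (tree g y)) :
    ∃ z, g z = y := by
  obtain ⟨t, ht1, ht2⟩ := h
  choose i hi using ht1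
  have hlen : ∀ k, (t k).length = (t 0).length + k := by
    intro k
    induction k with
    | zero => rfl
    | succ k ih => rw [hi, List.length_cons, ih]; omega
  have hw : ∀ k, ∃ z, Ext z (t (k + 1)) ∧ ∀ n < (t (k + 1)).length, g z n = y n := by
    intro k
    have := ht2 k
    simpa only [tree, decide_eq_true_eq] using this
  choose w hw1 hw2 using hw
  -- the limit branch
  set z : ℕ → ℕ := fun n => if n < (t 0).length then w 0 n else i (n - (t 0).length) with hz
  have hext : ∀ k, Ext z (t k) := by
    intro k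
    induction k with
    | zero =>
      refine ext_congr (z := w 0) (fun n hn => ?_) ?_
      · simp only [hz, hn, if_true]
      · have := hw1 0
        rw [hi] at this
        exact this.2
    | succ k ih =>
      rw [hi]
      refine ⟨?_, ih⟩
      rw [hlen k]
      simp only [hz]
      rw [if_neg (by omega), Nat.add_sub_cancel_left]
  have hlim : Tendsto w atTop (𝓝 z) := by
    rw [tendsto_pi_nhds]
    intro n
    refine tendsto_const_nhds.congr' ?_
    filter_upwards [eventually_ge_atTop n] with k hk
    refine ext_agree (hext (k + 1)) (hw1 k) n ?_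
    rw [hlen]; omega
  refine ⟨z, ?_⟩
  have hg' := (hg.tendsto z).comp hlim
  rw [tendsto_pi_nhds] at hg'
  funext n
  have h1 : Tendsto (fun k => g (w k) n) atTop (𝓝 (y n)) := by
    refine tendsto_const_nhds.congr' ?_
    filter_upwards [eventually_ge_atTop n] with k hk
    exact (hw2 k n (by rw [hlen]; omega)).symm
  exact tendsto_nhds_unique (hg' n) h1

/-- Tree representation of analytic subsets of Baire space. -/
theorem exists_tree (B : Set (ℕ → ℕ)) (hB : AnalyticSet B) : ∃ θ : (ℕ → ℕ) → Tr, Continuous θ ∧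
    (∀ y ∈ B, ∃ b : ℕ → ℕ, ∀ n, θ y (br b n) = true) ∧ (∀ y, HasPath (θ y) → y ∈ B) := by
  rw [AnalyticSet] at hB
  rcases hB with h | ⟨g, hg, hrange⟩
  · subst h
    refine ⟨fun _ _ => false, continuous_const, fun y hy => hy.elim, ?_⟩
    rintro y ⟨t, -, ht⟩
    exact absurd (ht 0) (by simp)
  · refine ⟨tree g, continuous_tree g, ?_, ?_⟩
    · intro y hy
      rw [← hrange] at hy
      obtain ⟨b, rfl⟩ := hy
      exact ⟨b, tree_branch g b⟩
    · intro y hy
      obtain ⟨z, hz⟩ := tree_path g hg y hy
      rw [← hrange]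
      exact ⟨z, hz⟩

end Pool.Agent.Helper212.Sq
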