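import Mathlib
import Pool.Agent.Helper212.Cont
import Pool.Agent.Helper212.Tree

open MeasureTheory Set Filter
open scoped Topology ComplexConjugate Uniformity

namespace Pool.Agent.Helper212.Sq

/-- replace the root bit -/
def upd (ω : Om) (i : ZMod 2) : Om := Function.update ω [] i

theorem continuous_upd (i : ZMod 2) : Continuous fun ω : Om => upd ω i :=
  continuous_id.update [] continuous_const

/-- the two systems -/
noncomputable def TC (i : ZMod 2) (τ : Tr) (x : XX) : XX := (x.1, AA τ (upd x.1 i) + x.2)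

theorem continuous_AAupd (i : ZMod 2) : Continuous fun p : Tr × XX => AA p.1 (upd p.2.1 i) := by
  have h0 : Continuous fun p : Tr × XX => (p.1, upd p.2.1 i) :=
    continuous_fst.prodMk ((continuous_upd i).comp (continuous_fst.comp continuous_snd))
  have h := Continuous.comp continuous_AA h0
  exact h

theorem continuous_TC (i : ZMod 2) : Continuous fun p : Tr × XX => TC i p.1 p.2 := by
  have h2 : Continuous fun p : Tr × XX => p.2.2 := continuous_snd.comp continuous_snd
  have h3 := Continuous.add (continuous_AAupd i) h2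
  have h4 : Continuous fun p : Tr × XX => p.2.1 := continuous_fst.comp continuous_snd
  exact h4.prodMk h3

theorem continuous_TC_left (i : ZMod 2) (x : XX) : Continuous fun τ : Tr => TC i τ x := by
  have h0 : Continuous fun τ : Tr => (τ, x) := Continuous.prodMk continuous_id continuous_const
  have h := Continuous.comp (continuous_TC i) h0
  exact h

theorem measurable_TC (i : ZMod 2) (τ : Tr) : Measurable (TC i τ) := by
  have h0 : Continuous fun x : XX => (τ, x) := Continuous.prodMk continuous_const continuous_id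
  have h := Continuous.comp (continuous_TC i) h0
  exact Continuous.measurable h

theorem continuous_AAupd' (i : ZMod 2) (τ : Tr) : Continuous fun ω : Om => AA τ (upd ω i) := by
  have h := Continuous.comp (continuous_AA_snd τ) (continuous_upd i)
  exact h

theorem mp_TC (i : ZMod 2) (τ : Tr) : MeasurePreserving (TC i τ) mu mu := by
  unfold mu
  refine MeasurePreserving.skew_product (f := id) (g := fun ω y => AA τ (upd ω i) + y)
    (MeasurePreserving.id muO) ?_ ?_
  · have h0 : Continuous fun p : Om × Yg => p.1 := continuous_fst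
    have h1 := Continuous.comp (continuous_AAupd' i τ) h0
    have h2 : Continuous fun p : Om × Yg => p.2 := continuous_snd
    have h3 := Continuous.add h1 h2
    exact Continuous.measurable h3
  · refine Eventually.of_forall fun ω => ?_
    exact (measurePreserving_add_left muY (AA τ (upd ω i))).map_eq

noncomputable def TCI (i : ZMod 2) (τ : Tr) (x : XX) : XX := (x.1, - AA τ (upd x.1 i) + x.2)

theorem measurable_TCI (i : ZMod 2) (τ : Tr) : Measurable (TCI i τ) := by
  have h0 : Continuous fun x : XX => x.1 := continuous_fst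
  have h1 := Continuous.comp (continuous_AAupd' i τ) h0
  have h2 : Continuous fun x : XX => x.2 := continuous_snd
  have h3 := Continuous.add (Continuous.neg h1) h2
  exact Continuous.measurable (Continuous.prodMk h0 h3)

noncomputable def TCE (i : ZMod 2) (τ : Tr) : XX ≃ᵐ XX where
  toFun := TC i τ
  invFun := TCI i τ
  left_inv := fun _ => Prod.ext rfl (neg_add_cancel_left _ _)
  right_inv := fun _ => Prod.ext rfl (add_neg_cancel_left _ _)
  measurable_toFun := measurable_TC i τ
  measurable_invFun := measurable_TCI i τ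

/-- Continuity of the measures of preimages for a continuous family of measure preserving maps. -/
theorem continuous_meas_gen {Z : Type*} [TopologicalSpace Z] [FirstCountableTopology Z]
    (F : Z → XX → XX) (hF : ∀ x, Continuous fun z => F z x) (hmp : ∀ z, MeasurePreserving (F z) mu mu)
    (A B : Set XX) (hA : MeasurableSet A) :
    Continuous fun z : Z => mu.real ((F z) ⁻¹' A ∩ B) := by
  have hval : ∀ z, mu.real ((F z) ⁻¹' A ∩ B) = ∫ x in B, A.indicator (fun _ => (1:ℝ)) (F z x) ∂mu := by
    intro z
    have h1 : (fun x => A.indicator (fun _ => (1:ℝ)) (F z x)) = ((F z) ⁻¹' A).indicator (fun _ => (1:ℝ)) := by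
      ext x; rfl
    have h2 : MeasurableSet ((F z) ⁻¹' A) := (hmp z).measurable hA
    rw [h1, integral_indicator h2, setIntegral_const]
    simp only [smul_eq_mul, mul_one]
    rw [measureReal_restrict_apply h2]
  simp only [hval]
  have := wr_mu
  have hint : Integrable (A.indicator (fun _ => (1:ℝ))) mu := (integrable_const 1).indicator hA
  refine continuous_of_uniform_approx_of_continuous fun u hu => ?_
  obtain ⟨ε, hε, hεu⟩ := Metric.mem_uniformity_dist.1 hu
  obtain ⟨g, hg1, hg2⟩ := hint.exists_boundedContinuous_integral_sub_le (half_pos hε)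
  refine ⟨fun z => ∫ x in B, g (F z x) ∂mu, ?_, fun z => hεu ?_⟩
  · refine continuous_of_dominated (bound := fun _ => ‖g‖) ?_ ?_ ?_ ?_
    · intro z
      exact (g.continuous.measurable.comp (hmp z).measurable).aestronglyMeasurable
    · intro z
      exact Eventually.of_forall fun x => g.norm_coe_le_norm _
    · exact integrable_const _
    · exact Eventually.of_forall fun x => g.continuous.comp (hF x)
  · have hT := hmp z
    have i1 : Integrable (fun x => A.indicator (fun _ => (1:ℝ)) (F z x)) mu := hT.integrable_comp_of_integrable hint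
    have i2 : Integrable (fun x => g (F z x)) mu := hT.integrable_comp_of_integrable hg2
    rw [dist_eq_norm, ← integral_sub i1.restrict i2.restrict]
    calc ‖∫ x in B, (A.indicator (fun _ => (1:ℝ)) (F z x) - g (F z x)) ∂mu‖
        ≤ ∫ x in B, ‖A.indicator (fun _ => (1:ℝ)) (F z x) - g (F z x)‖ ∂mu := norm_integral_le_integral_norm _
      _ ≤ ∫ x, ‖A.indicator (fun _ => (1:ℝ)) (F z x) - g (F z x)‖ ∂mu :=
          setIntegral_le_integral (i1.sub i2).norm (Eventually.of_forall fun x => norm_nonneg _)
      _ = ∫ x, ‖A.indicator (fun _ => (1:ℝ)) x - g x‖ ∂mu := by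
          conv_rhs => rw [← hT.map_eq]
          rw [integral_map hT.aemeasurable]
          rw [hT.map_eq]
          exact (hint.sub hg2).norm.aestronglyMeasurable
      _ ≤ ε / 2 := hg1
      _ < ε := half_lt_self hε

theorem inv_fiber' (τ : Tr) (ρ : Om → Om) (F : XX → ℂ) (hF : Measurable F) (hb : ∀ x, ‖F x‖ ≤ 1)
    (h : ∀ᵐ x ∂mu, F (x.1, AA τ (ρ x.1) + x.2) = F x) :
    ∀ᵐ ω ∂muO, ∀ᵐ y ∂muY, F (ω, y) = ∫ z, F (ω, z) ∂muY := by
  have h1 := Measure.ae_ae_of_ae_prod (show ∀ᵐ x ∂(muO.prod muY), F (x.1, AA τ (ρ x.1) + x.2) = F x from h)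
  filter_upwards [h1] with ω hω
  have hm : Measurable fun y : Yg => F (ω, y) := hF.comp measurable_prodMk_left
  refine fam.ae_const muY (fun y => F (ω, y))
    (MemLp.of_bound hm.aestronglyMeasurable 1 (Eventually.of_forall fun y => hb _)) (AA τ (ρ ω)) hω ?_
  intro d hd y
  have : d = 0 := key0 τ (ρ ω) d hd
  rw [this]
  exact fam.zero_idx y

/-- A measure preserving intertwiner of the two systems produces a path. -/
theorem path_of_intertwine (τ : Tr) (U : XX → XX) (hU : MeasurePreserving U mu mu)
    (comm : ∀ᵐ x ∂mu, U (TC 0 τ x) = TC 1 τ (U x)) : HasPath τ := by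
  have comm' := Measure.ae_ae_of_ae_prod (show ∀ᵐ x ∂(muO.prod muY), U (TC 0 τ x) = TC 1 τ (U x) from comm)
  have hbase : ∀ᵐ ω ∂muO, ∃ φ : Om, ∀ᵐ y ∂muY, (U (ω, y)).1 = φ := by
    have hs : ∀ s : Node, ∀ᵐ ω ∂muO, ∀ᵐ y ∂muY,
        (if (U (ω, y)).1 s = 0 then (0 : ℂ) else 1) = ∫ z, (if (U (ω, z)).1 s = 0 then (0 : ℂ) else 1) ∂muY := by
      intro s
      refine inv_fiber' τ (fun ω => upd ω 0) (fun x => if (U x).1 s = 0 then (0 : ℂ) else 1) ?_ ?_ ?_
      · refine Measurable.ite ?_ measurable_const measurable_const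
        have : Measurable fun x => (U x).1 s := (measurable_pi_apply s).comp (measurable_fst.comp hU.measurable)
        exact this (measurableSet_singleton 0)
      · intro x
        split_ifs <;> simp
      · filter_upwards [comm] with x hx
        have hx' : U (x.1, AA τ (upd x.1 0) + x.2) = TC 1 τ (U x) := hx
        rw [hx']
        rfl
    rw [← ae_all_iff] at hs
    filter_upwards [hs] with ω hω
    refine ⟨fun s => if (∫ z, (if (U (ω, z)).1 s = 0 then (0 : ℂ) else 1) ∂muY) = 0 then 0 else 1, ?_⟩
    rw [← ae_all_iff] at hω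
    filter_upwards [hω] with y hy
    funext s
    have h1 := hy s
    rw [← h1]
    rcases zmod2_cases ((U (ω, y)).1 s) with h0 | h0
    · rw [h0]; simp
    · rw [h0]; simp
  obtain ⟨ω, ⟨φ, hφ⟩, hc⟩ := (hbase.and comm').exists
  have hz : ∀ s, ∃ N, ∀ n ≥ N, zz τ (upd ω 0) s n = zz τ (upd φ 1) s n := by
    intro s
    have mf : Measurable fun y : Yg => ((AddCircle.toCircle ((U (ω, y)).2.2 (s, 0)) : Circle) : ℂ) := by
      have m1 : Measurable fun y : Yg => (U (ω, y)).2.2 (s, 0) :=
        (measurable_pi_apply (s, 0)).comp (measurable_snd.comp (measurable_snd.comp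
          (hU.measurable.comp measurable_prodMk_left)))
      have m2 : Continuous fun c : UnitAddCircle => ((AddCircle.toCircle c : Circle) : ℂ) :=
        continuous_induced_dom.comp AddCircle.continuous_toCircle
      exact m2.measurable.comp m1
    obtain ⟨d, hd⟩ := fam.exists_char_eq muY
      (fun y => ((AddCircle.toCircle ((U (ω, y)).2.2 (s, 0)) : Circle) : ℂ))
      (MemLp.of_bound mf.aestronglyMeasurable 1 (Eventually.of_forall fun y => by simp))
      (by
        intro h0
        obtain ⟨y, hy⟩ := h0.exists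
        have h9 : ‖((AddCircle.toCircle ((U (ω, y)).2.2 (s, 0)) : Circle) : ℂ)‖ = ‖(0 : ℂ)‖ :=
          congrArg norm hy
        rw [Circle.norm_coe, norm_zero] at h9
        exact one_ne_zero h9)
      (AA τ (upd ω 0)) ((AddCircle.toCircle ((al τ (upd φ 1) s : ℝ) : UnitAddCircle) : Circle) : ℂ)
      (by
        filter_upwards [hφ, hc] with y hy1 hy2
        have h3 : U (ω, AA τ (upd ω 0) + y) = TC 1 τ (U (ω, y)) := hy2
        rw [h3]
        have h4 : (TC 1 τ (U (ω, y))).2.2 (s, 0)
            = ((al τ (upd φ 1) s : ℝ) : UnitAddCircle) + (U (ω, y)).2.2 (s, 0) := by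
          show (aa τ (upd (U (ω, y)).1 1)) (s, 0) + (U (ω, y)).2.2 (s, 0) = _
          rw [hy1]
          rfl
        rw [h4, AddCircle.toCircle_add, Circle.coe_mul])
    exact key1 τ (upd ω 0) (upd φ 1) s d hd
  refine path_of_ne τ (upd ω 0) (upd φ 1) hz ?_
  intro h
  have h5 := congrFun h []
  simp [upd] at h5

/-- the conjugating map given by a branch -/
noncomputable def UU (τ : Tr) (b : ℕ → ℕ) (x : XX) : XX := (x.1 + eps b, VV τ b (upd x.1 0) x.2)

noncomputable def UI (τ : Tr) (b : ℕ → ℕ) (x : XX) : XX :=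
  (x.1 + eps b, VV τ b (upd (x.1 + eps b) 0 + eps b) x.2)

theorem UI_UU (τ : Tr) (b : ℕ → ℕ) (x : XX) : UI τ b (UU τ b x) = x := by
  unfold UI UU
  refine Prod.ext (om_add_eps_eps _ _) ?_
  show VV τ b (upd (x.1 + eps b + eps b) 0 + eps b) (VV τ b (upd x.1 0) x.2) = x.2
  rw [om_add_eps_eps, VV_VV]

theorem UU_UI (τ : Tr) (b : ℕ → ℕ) (x : XX) : UU τ b (UI τ b x) = x := by
  unfold UI UU
  refine Prod.ext (om_add_eps_eps _ _) ?_
  show VV τ b (upd (x.1 + eps b) 0) (VV τ b (upd (x.1 + eps b) 0 + eps b) x.2) = x.2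
  rw [VV_VV']

theorem upd_eps (b : ℕ → ℕ) (ω : Om) : upd ω 0 + eps b = upd (ω + eps b) 1 := by
  funext s
  by_cases hs : s = []
  · subst hs
    simp [upd, eps_nil]
  · simp [upd, hs]

theorem UU_TC (τ : Tr) (b : ℕ → ℕ) (hb : ∀ n, τ (br b n) = true) (x : XX) :
    UU τ b (TC 0 τ x) = TC 1 τ (UU τ b x) := by
  unfold UU TC
  refine Prod.ext rfl ?_
  show VV τ b (upd x.1 0) (AA τ (upd x.1 0) + x.2) = AA τ (upd (x.1 + eps b) 1) + VV τ b (upd x.1 0) x.2
  rw [VV_add, VV_AA τ b hb, upd_eps]

theorem measurable_VVupd (τ : Tr) (b : ℕ → ℕ) (ρ : Om → Om) (hρ : Continuous ρ) :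
    Measurable fun p : Om × Yg => VV τ b (ρ p.1) p.2 := by
  have h0 : Continuous fun p : Om × Yg => (ρ p.1, p.2) :=
    (hρ.comp continuous_fst).prodMk continuous_snd
  have h := Continuous.comp (continuous_VV τ b) h0
  exact Continuous.measurable h

theorem mp_UU (τ : Tr) (b : ℕ → ℕ) : MeasurePreserving (UU τ b) mu mu := by
  unfold mu
  have h0 : MeasurePreserving (fun ω : Om => ω + eps b) muO muO := measurePreserving_add_right muO (eps b)
  refine MeasurePreserving.skew_product (g := fun ω y => VV τ b (upd ω 0) y) h0 ?_ ?_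
  · exact measurable_VVupd τ b (fun ω => upd ω 0) (continuous_upd 0)
  · exact Eventually.of_forall fun ω => (mp_VV τ b (upd ω 0)).map_eq

noncomputable def UE (τ : Tr) (b : ℕ → ℕ) : XX ≃ᵐ XX where
  toFun := UU τ b
  invFun := UI τ b
  left_inv := UI_UU τ b
  right_inv := UU_UI τ b
  measurable_toFun := (mp_UU τ b).measurable
  measurable_invFun := by
    have h1 : Measurable fun x : XX => x.1 + eps b := measurable_fst.add_const _
    have h2 : Continuous fun ω : Om => upd (ω + eps b) 0 + eps b :=
      ((continuous_upd 0).comp (continuous_id.add continuous_const)).add continuous_const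
    have h3 := measurable_VVupd τ b (fun ω => upd (ω + eps b) 0 + eps b) h2
    exact h1.prodMk h3

end Pool.Agent.Helper212.Sq
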