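import Mathlib

/-! The space of continuous real functions on the irrationals, with pointwise convergence, does
not embed in a regular space which is a continuous image of the Baire space. -/

open Set Topology Filter

noncomputable section

namespace Pool.Agent.Helper212.Cosmic

/-- the irrationals -/
abbrev X : Type := {x : ℝ // Irrational x}

/-- rational interval -/
def J (a b : ℚ) : Set X := {x | (a : ℝ) < x.1 ∧ x.1 < (b : ℝ)}

lemma isOpen_J (a b : ℚ) : IsOpen (J a b) :=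
  (isOpen_lt continuous_const continuous_subtype_val).inter
    (isOpen_lt continuous_subtype_val continuous_const)

lemma ne_rat (x : X) (a : ℚ) : x.1 ≠ (a : ℝ) := fun h => x.2 ⟨a, h.symm⟩

lemma compl_J (a b : ℚ) : (J a b)ᶜ = {x : X | x.1 < (a : ℝ)} ∪ {x : X | (b : ℝ) < x.1} := by
  ext x
  constructor
  · intro h
    by_contra h2
    simp only [mem_union, mem_ofPred_eq, not_or, not_lt] at h2
    exact h ⟨lt_of_le_of_ne h2.1 (ne_rat x a).symm, lt_of_le_of_ne h2.2 (ne_rat x b)⟩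
  · rintro (h | h) ⟨h1, h2⟩
    · exact lt_asymm h h1
    · exact lt_asymm h h2

lemma isClopen_J (a b : ℚ) : IsClopen (J a b) := by
  refine ⟨⟨?_⟩, isOpen_J a b⟩
  rw [compl_J]
  exact (isOpen_lt continuous_subtype_val continuous_const).union
    (isOpen_lt continuous_const continuous_subtype_val)

lemma J_nonempty {a b : ℚ} (h : a < b) : (J a b).Nonempty := by
  obtain ⟨x, hx, h1, h2⟩ := exists_irrational_btwn (Rat.cast_lt (K := ℝ).2 h)
  exact ⟨⟨x, hx⟩, h1, h2⟩

/-- rational intervals form a base -/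
lemma exists_J {U : Set X} (hU : IsOpen U) {x : X} (hx : x ∈ U) :
    ∃ a b : ℚ, a < b ∧ x ∈ J a b ∧ J a b ⊆ U := by
  obtain ⟨V, hV, rfl⟩ := isOpen_induced_iff.1 hU
  obtain ⟨ε, hε, hball⟩ := Metric.isOpen_iff.1 hV x.1 hx
  obtain ⟨a, ha1, ha2⟩ := exists_rat_btwn (show x.1 - ε < x.1 by linarith)
  obtain ⟨b, hb1, hb2⟩ := exists_rat_btwn (show x.1 < x.1 + ε by linarith)
  refine ⟨a, b, Rat.cast_lt (K := ℝ).1 (ha2.trans hb1), ⟨ha2, hb1⟩, ?_⟩
  rintro y ⟨h1, h2⟩
  apply hball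
  rw [Metric.mem_ball, Real.dist_eq, abs_lt]
  constructor <;> linarith

/-- the `n`-th piece of the standard partition of `J a b` -/
def pt (a b : ℚ) (n : ℕ) : ℚ := a + (b - a) / (n + 1)

lemma pt_zero (a b : ℚ) : pt a b 0 = b := by simp [pt]

lemma pt_anti {a b : ℚ} (h : a < b) : StrictAnti (pt a b) := by
  apply strictAnti_nat_of_succ_lt
  intro n
  unfold pt
  have h1 : (0 : ℚ) < b - a := by linarith
  have : (b - a) / ((n + 1 : ℕ) + 1 : ℚ) < (b - a) / (n + 1 : ℚ) := by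
    apply div_lt_div_of_pos_left h1 (by positivity)
    push_cast
    linarith
  linarith

lemma lt_pt {a b : ℚ} (h : a < b) (n : ℕ) : a < pt a b n := by
  unfold pt
  have h1 : (0 : ℚ) < b - a := by linarith
  have : 0 < (b - a) / (n + 1 : ℚ) := by positivity
  linarith

def piece (a b : ℚ) (n : ℕ) : Set X := J (pt a b (n + 1)) (pt a b n)

lemma piece_disj {a b : ℚ} (h : a < b) : Pairwise (Function.onFun Disjoint (piece a b)) := by
  have key : ∀ m n, m < n → Disjoint (piece a b m) (piece a b n) := by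
    intro m n hmn
    rw [Set.disjoint_left]
    rintro x ⟨h1, _⟩ ⟨_, h4⟩
    have h5 : pt a b n ≤ pt a b (m + 1) := (pt_anti h).antitone hmn
    have h6 : ((pt a b n : ℚ) : ℝ) ≤ ((pt a b (m + 1) : ℚ) : ℝ) := Rat.cast_le.2 h5
    linarith
  intro m n hmn
  rcases lt_or_gt_of_ne hmn with h1 | h1
  · exact key m n h1
  · exact (key n m h1).symm

lemma piece_union {a b : ℚ} (h : a < b) : ⋃ n, piece a b n = J a b := by
  ext x
  constructor
  · intro hx
    obtain ⟨n, h1, h2⟩ := mem_iUnion.1 hx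
    constructor
    · exact lt_trans (Rat.cast_lt.2 (lt_pt h (n + 1))) h1
    · have : pt a b n ≤ pt a b 0 := (pt_anti h).antitone (Nat.zero_le n)
      rw [pt_zero] at this
      exact lt_of_lt_of_le h2 (Rat.cast_le.2 this)
  · rintro ⟨h1, h2⟩
    have hex : ∃ n, ((pt a b n : ℚ) : ℝ) < x.1 := by
      obtain ⟨n, hn⟩ := exists_nat_gt (((b : ℝ) - a) / (x.1 - a))
      refine ⟨n, ?_⟩
      unfold pt
      push_cast
      have h3 : 0 < x.1 - a := by linarith
      rw [div_lt_iff₀ h3] at hn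
      have h4 : ((b : ℝ) - a) / (n + 1) < x.1 - a := by
        rw [div_lt_iff₀ (by positivity)]
        nlinarith
      linarith
    classical
    have hm := Nat.find_spec hex
    set m := Nat.find hex with hmdef
    have hm0 : m ≠ 0 := by
      intro h0
      rw [h0, pt_zero] at hm
      linarith
    obtain ⟨k, hk⟩ := Nat.exists_eq_succ_of_ne_zero hm0
    refine mem_iUnion.2 ⟨k, ?_, ?_⟩
    · rw [← Nat.succ_eq_add_one, ← hk]
      exact hm
    · have h5 : ¬ ((pt a b k : ℚ) : ℝ) < x.1 := Nat.find_min hex (by omega)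
      exact lt_of_le_of_ne (not_lt.1 h5) (ne_rat x _)

/-- cylinders in the Baire space -/
def Cyl (s : List ℕ) : Set (ℕ → ℕ) := {z | (List.range s.length).map z = s}

lemma mem_Cyl_nil (z : ℕ → ℕ) : z ∈ Cyl [] := by simp [Cyl]

lemma mem_Cyl_append {z : ℕ → ℕ} {s : List ℕ} (h : z ∈ Cyl s) : z ∈ Cyl (s ++ [z s.length]) := by
  unfold Cyl at *
  simp only [mem_ofPred_eq] at *
  rw [List.length_append, List.length_singleton, List.range_succ, List.map_append, h]
  simp

lemma eq_of_mem_Cyl {z w : ℕ → ℕ} {k : ℕ} (h : w ∈ Cyl ((List.range k).map z)) {i : ℕ}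
    (hi : i < k) : w i = z i := by
  unfold Cyl at h
  simp only [mem_ofPred_eq, List.length_map, List.length_range] at h
  have := List.map_inj_left.1 h i (by simpa using hi)
  exact this

variable (z : Set X → (ℕ → ℕ)) (I0 : Set X)

/-- the family of clopen subsets of `I0` whose lift lies in the cylinder of `s` -/
def Fam (s : List ℕ) : Set (Set X) := {W | IsClopen W ∧ W ⊆ I0 ∧ z W ∈ Cyl s}

/-- `s` is captured in `Q` -/
inductive Cap : Set X → List ℕ → Prop
  | base (Q : Set X) (s : List ℕ) (h : ∀ U ∈ Fam z I0 s, ∀ U' ∈ Fam z I0 s, Q ∩ U = Q ∩ U') :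
      Cap Q s
  | step (Q : Set X) (s : List ℕ) (R : ℕ → Set X) (h1 : ∀ n, IsClopen (R n))
      (h2 : ∀ n, (R n).Nonempty) (h3 : Pairwise (Function.onFun Disjoint R))
      (h4 : ⋃ n, R n = Q) (h5 : ∀ n, Cap (R n) (s ++ [n])) : Cap Q s
  | mono (Q Q' : Set X) (s : List ℕ) (h1 : IsClopen Q') (h2 : Q'.Nonempty) (h3 : Q' ⊆ Q)
      (h4 : Cap Q' s) : Cap Q s

/-- diagonalisation -/
lemma Cap.exists_diag {Q : Set X} {s : List ℕ} (h : Cap z I0 Q s) (hQ : IsClopen Q)
    (hne : Q.Nonempty) : ∃ W, IsClopen W ∧ W ⊆ Q ∧ ∀ U ∈ Fam z I0 s, Q ∩ U ≠ Q ∩ W := by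
  induction h with
  | base Q s h =>
    by_cases hF : (Fam z I0 s).Nonempty
    · obtain ⟨U0, hU0⟩ := hF
      refine ⟨Q \ U0, hQ.diff hU0.1, sdiff_subset, ?_⟩
      intro U hU heq
      rw [h U hU U0 hU0] at heq
      obtain ⟨x, hx⟩ := hne
      by_cases hxU : x ∈ U0
      · have : x ∈ Q ∩ (Q \ U0) := heq ▸ ⟨hx, hxU⟩
        exact this.2.2 hxU
      · have : x ∈ Q ∩ U0 := heq ▸ ⟨hx, hx, hxU⟩
        exact hxU this.2
    · refine ⟨∅, isClopen_empty, empty_subset _, ?_⟩
      intro U hU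
      exact absurd ⟨U, hU⟩ hF
  | step Q s R h1 h2 h3 h4 h5 ih =>
    choose W hW1 hW2 hW3 using fun n => ih n (h1 n) (h2 n)
    have hsub : ∀ n, R n ⊆ Q := fun n => h4 ▸ subset_iUnion R n
    have hRW : ∀ n, R n ∩ ⋃ m, W m = W n := by
      intro n
      ext x
      constructor
      · rintro ⟨hx, hx2⟩
        obtain ⟨m, hm⟩ := mem_iUnion.1 hx2
        by_cases hmn : m = n
        · exact hmn ▸ hm
        · exact absurd hx (Set.disjoint_left.1 (h3 hmn) (hW2 m hm))
      · intro hx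
        exact ⟨hW2 n hx, mem_iUnion.2 ⟨n, hx⟩⟩
    refine ⟨⋃ n, W n, ⟨⟨?_⟩, isOpen_iUnion fun n => (hW1 n).2⟩, iUnion_subset fun n =>
      (hW2 n).trans (hsub n), ?_⟩
    · have : (⋃ n, W n)ᶜ = Qᶜ ∪ ⋃ n, (R n \ W n) := by
        ext x
        constructor
        · intro hx
          by_cases hxQ : x ∈ Q
          · right
            rw [← h4] at hxQ
            obtain ⟨n, hn⟩ := mem_iUnion.1 hxQ
            exact mem_iUnion.2 ⟨n, hn, fun hw => hx (mem_iUnion.2 ⟨n, hw⟩)⟩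
          · left
            exact hxQ
        · rintro (hx | hx) hx2
          · obtain ⟨n, hn⟩ := mem_iUnion.1 hx2
            exact hx (hsub n (hW2 n hn))
          · obtain ⟨n, hn, hn2⟩ := mem_iUnion.1 hx
            apply hn2
            rw [← hRW n]
            exact ⟨hn, hx2⟩
      rw [this]
      exact hQ.1.isOpen_compl.union (isOpen_iUnion fun n => ((h1 n).diff (hW1 n)).2)
    · intro U hU heq
      set n := z U s.length with hn
      have hUn : U ∈ Fam z I0 (s ++ [n]) := ⟨hU.1, hU.2.1, mem_Cyl_append hU.2.2⟩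
      apply hW3 n U hUn
      have e1 : R n ∩ U = R n ∩ (Q ∩ U) := by
        rw [← inter_assoc, inter_eq_left.2 (hsub n)]
      rw [e1, heq, ← inter_assoc, inter_eq_left.2 (hsub n), hRW n]
      rw [inter_eq_right.2 (hW2 n)]
  | mono Q Q' s h1 h2 h3 h4 ih =>
    obtain ⟨W, hW1, hW2, hW3⟩ := ih h1 h2
    refine ⟨W, hW1, hW2.trans h3, ?_⟩
    intro U hU heq
    apply hW3 U hU
    have e1 : ∀ V : Set X, Q' ∩ V = Q' ∩ (Q ∩ V) := fun V => by
      rw [← inter_assoc, inter_eq_left.2 h3]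
    rw [e1 U, heq, ← e1 W]

lemma not_cap_top (hI : IsClopen I0) (hne : I0.Nonempty) : ¬ Cap z I0 I0 [] := by
  intro h
  obtain ⟨W, hW1, hW2, hW3⟩ := h.exists_diag z I0 hI hne
  exact hW3 W ⟨hW1, hW2, mem_Cyl_nil _⟩ rfl

/-- points separated by two members of the family -/
def Sep (s : List ℕ) : Set X := {y | ∃ U ∈ Fam z I0 s, ∃ U' ∈ Fam z I0 s, y ∉ U ∧ y ∈ U'}

lemma isOpen_Sep (s : List ℕ) : IsOpen (Sep z I0 s) := by
  have : Sep z I0 s = ⋃ U ∈ Fam z I0 s, ⋃ U' ∈ Fam z I0 s, (Uᶜ ∩ U') := by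
    ext y
    simp only [Sep, mem_ofPred_eq, mem_iUnion, mem_inter_iff, mem_compl_iff, exists_prop]
  rw [this]
  exact isOpen_biUnion fun U hU => isOpen_biUnion fun U' hU' =>
    hU.1.1.isOpen_compl.inter hU'.1.2

def Live (s : List ℕ) : Set X :=
  {x | ∃ a b : ℚ, a < b ∧ x ∈ J a b ∧ J a b ⊆ I0 ∧ ¬ Cap z I0 (J a b) s}

lemma isOpen_Live (s : List ℕ) : IsOpen (Live z I0 s) := by
  rw [isOpen_iff_mem_nhds]
  rintro x ⟨a, b, hab, hx, hsub, hc⟩
  exact Filter.mem_of_superset ((isOpen_J a b).mem_nhds hx)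
    (fun y hy => ⟨a, b, hab, hy, hsub, hc⟩)

def Good (s : List ℕ) : Set X := Sep z I0 s ∩ ⋃ n : ℕ, Live z I0 (s ++ [n])

lemma isOpen_Good (s : List ℕ) : IsOpen (Good z I0 s) :=
  (isOpen_Sep z I0 s).inter (isOpen_iUnion fun _ => isOpen_Live z I0 _)

lemma Live_subset_closure (s : List ℕ) : Live z I0 s ⊆ closure (Good z I0 s) := by
  rintro x ⟨a, b, hab, hx, hsub, hc⟩
  rw [mem_closure_iff]
  intro V hV hxV
  obtain ⟨a1, b1, hab1, hx1, hsub1⟩ := exists_J (hV.inter (isOpen_J a b)) ⟨hxV, hx⟩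
  have hc1 : ¬ Cap z I0 (J a1 b1) s := fun h =>
    hc (Cap.mono _ _ _ (isClopen_J a1 b1) (J_nonempty hab1) (hsub1.trans inter_subset_right) h)
  -- a separated point
  have hy : ∃ y ∈ J a1 b1, y ∈ Sep z I0 s := by
    by_contra hno
    push Not at hno
    apply hc1
    apply Cap.base
    intro U hU U' hU'
    ext y
    constructor
    · rintro ⟨h1, h2⟩
      refine ⟨h1, ?_⟩
      by_contra h3
      exact hno y h1 ⟨U', hU', U, hU, h3, h2⟩
    · rintro ⟨h1, h2⟩
      refine ⟨h1, ?_⟩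
      by_contra h3
      exact hno y h1 ⟨U, hU, U', hU', h3, h2⟩
  obtain ⟨y, hy1, hy2⟩ := hy
  obtain ⟨a2, b2, hab2, hx2, hsub2⟩ := exists_J ((isOpen_J a1 b1).inter (isOpen_Sep z I0 s))
    ⟨hy1, hy2⟩
  have hc2 : ¬ Cap z I0 (J a2 b2) s := fun h =>
    hc1 (Cap.mono _ _ _ (isClopen_J a2 b2) (J_nonempty hab2) (hsub2.trans inter_subset_left) h)
  have hn : ∃ n, ¬ Cap z I0 (piece a2 b2 n) (s ++ [n]) := by
    by_contra hno
    push Not at hno
    exact hc2 (Cap.step _ _ (piece a2 b2) (fun n => isClopen_J _ _)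
      (fun n => J_nonempty (pt_anti hab2 (Nat.lt_succ_self n))) (piece_disj hab2)
      (piece_union hab2) hno)
  obtain ⟨n, hn⟩ := hn
  obtain ⟨w, hw⟩ := J_nonempty (pt_anti hab2 (Nat.lt_succ_self n))
  have hwp : w ∈ piece a2 b2 n := hw
  have hps : piece a2 b2 n ⊆ J a2 b2 := by
    rw [← piece_union hab2]
    exact subset_iUnion _ n
  have h12 : J a1 b1 ⊆ J a b := hsub1.trans inter_subset_right
  have h21 : J a2 b2 ⊆ J a1 b1 := hsub2.trans inter_subset_left
  refine ⟨w, (hsub1 (h21 (hps hwp))).1, (hsub2 (hps hwp)).2, mem_iUnion.2 ⟨n, ?_⟩⟩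
  exact ⟨_, _, pt_anti hab2 (Nat.lt_succ_self n), hwp,
    (hps.trans (h21.trans h12)).trans hsub, hn⟩

lemma isMeagre_bad (s : List ℕ) : IsMeagre (Live z I0 s \ Good z I0 s) := by
  apply IsNowhereDense.isMeagre
  have h1 : Live z I0 s \ Good z I0 s ⊆ frontier (Good z I0 s) := by
    rintro x ⟨h1, h2⟩
    rw [(isOpen_Good z I0 s).frontier_eq]
    exact ⟨Live_subset_closure z I0 s h1, h2⟩
  have h2 : IsNowhereDense (frontier (Good z I0 s)) := by
    rw [← frontier_compl]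
    exact isClosed_frontier.isNowhereDense_iff.2
      (interior_frontier (isOpen_Good z I0 s).isClosed_compl)
  exact h2.mono h1

/-- a point avoiding the bad sets has a branch -/
lemma exists_branch {x : X} (hx : x ∈ Live z I0 []) (h : ∀ s, x ∈ Live z I0 s → x ∈ Good z I0 s) :
    ∃ w : ℕ → ℕ, ∀ k, x ∈ Sep z I0 ((List.range k).map w) := by
  have h' : ∀ s : {s : List ℕ // x ∈ Live z I0 s}, ∃ n : ℕ, x ∈ Live z I0 (s.1 ++ [n]) := by
    rintro ⟨s, hs⟩
    exact mem_iUnion.1 (h s hs).2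
  choose nxt hnxt using h'
  let σ : ℕ → {s : List ℕ // x ∈ Live z I0 s} := fun k =>
    Nat.rec ⟨[], hx⟩ (fun _ s => ⟨s.1 ++ [nxt s], hnxt s⟩) k
  have hσ : ∀ k, (σ k).1 = (List.range k).map (fun j => nxt (σ j)) := by
    intro k
    induction k with
    | zero => rfl
    | succ k ih =>
      rw [List.range_succ, List.map_append, ← ih]
      rfl
  refine ⟨fun j => nxt (σ j), fun k => ?_⟩
  rw [← hσ k]
  exact (h _ (σ k).2).1

/-- Abstract form: a lift of the clopen subsets of the irrationals to the Baire space cannot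
separate, at every point `x`, the sets containing `x` from the sets avoiding a finite set. -/
theorem abstract_core (F : X → Set X) (hF : ∀ x, (F x).Finite)
    (C : X → Set (ℕ → ℕ)) (D : X → Set (ℕ → ℕ)) (hC : ∀ x, IsClosed (C x))
    (hD : ∀ x, IsClosed (D x)) (hCD : ∀ x, Disjoint (C x) (D x))
    (h1 : ∀ x W, IsClopen W → Disjoint W (F x) → z W ∈ C x)
    (h2 : ∀ x W, IsClopen W → x ∈ W → z W ∈ D x) : False := by
  have hb : BaireSpace X := IsGδ.baireSpace_of_dense IsGδ.setOfPred_irrational dense_irrational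
  -- every point is isolated in its finite set by a rational interval
  have hcover : ∀ x : X, ∃ p : ℚ × ℚ, p.1 < p.2 ∧ x ∈ J p.1 p.2 ∧ J p.1 p.2 ∩ F x ⊆ {x} := by
    intro x
    have hop : IsOpen ((F x \ {x})ᶜ) := ((hF x).subset sdiff_subset).isClosed.isOpen_compl
    obtain ⟨a, b, hab, hx, hs⟩ := exists_J hop (x := x) (by simp)
    refine ⟨(a, b), hab, hx, ?_⟩
    rintro y ⟨hy1, hy2⟩
    by_contra hne
    exact hs hy1 ⟨hy2, hne⟩
  have hmeag : ∀ p : ℚ × ℚ, IsMeagre {x : X | p.1 < p.2 ∧ x ∈ J p.1 p.2 ∧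
      J p.1 p.2 ∩ F x ⊆ {x}} := by
    intro p
    by_cases hp : p.1 < p.2
    swap
    · convert! IsMeagre.empty using 1
      ext x
      simp [hp]
    have hm : IsMeagre (⋃ s : List ℕ, (Live z (J p.1 p.2) s \ Good z (J p.1 p.2) s)) :=
      isMeagre_iUnion fun s => isMeagre_bad z (J p.1 p.2) s
    refine hm.mono ?_
    rintro x ⟨_, hx, hFx⟩
    by_contra hno
    have hgood : ∀ s, x ∈ Live z (J p.1 p.2) s → x ∈ Good z (J p.1 p.2) s := by
      intro s hs
      by_contra hn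
      exact hno (mem_iUnion.2 ⟨s, hs, hn⟩)
    have hlive : x ∈ Live z (J p.1 p.2) [] :=
      ⟨p.1, p.2, hp, hx, subset_rfl, not_cap_top z _ (isClopen_J _ _) (J_nonempty hp)⟩
    obtain ⟨w, hw⟩ := exists_branch z (J p.1 p.2) hlive hgood
    choose U hU U' hU' hxU hxU' using hw
    have conv : ∀ V : ℕ → Set X, (∀ k, V k ∈ Fam z (J p.1 p.2) ((List.range k).map w)) →
        Tendsto (fun k => z (V k)) atTop (𝓝 w) := by
      intro V hV
      rw [tendsto_pi_nhds]
      intro i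
      apply tendsto_const_nhds.congr'
      filter_upwards [eventually_gt_atTop i] with k hk
      exact (eq_of_mem_Cyl (hV k).2.2 hk).symm
    have hwC : w ∈ C x := (hC x).mem_of_tendsto (conv U hU) (Eventually.of_forall fun k => by
      apply h1 x _ (hU k).1
      rw [Set.disjoint_left]
      intro y hy hyF
      have : y = x := hFx ⟨(hU k).2.1 hy, hyF⟩
      exact hxU k (this ▸ hy))
    have hwD : w ∈ D x := (hD x).mem_of_tendsto (conv U' hU') (Eventually.of_forall fun k =>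
      h2 x _ (hU' k).1 (hxU' k))
    exact Set.disjoint_left.1 (hCD x) hwC hwD
  have htot : IsMeagre (univ : Set X) := by
    refine (isMeagre_iUnion hmeag).mono ?_
    intro x _
    obtain ⟨p, hp⟩ := hcover x
    exact mem_iUnion.2 ⟨p, hp⟩
  exact not_isMeagre_of_isOpen isOpen_univ ⟨⟨√2, irrational_sqrt_two⟩, mem_univ _⟩ htot

end Pool.Agent.Helper212.Cosmic
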