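import Pool.Agent.Helper212.Cosmic

/-! A version of the diagonal argument with a countable family of lifts. -/

open Set Topology Filter

noncomputable section

namespace Pool.Agent.Helper212.Cosmic

theorem abstract_core2 {ι : Type} [Countable ι] (a b : ι → ℚ) (z : ι → Set X → (ℕ → ℕ))
    (C : X → Set (ℕ → ℕ)) (D : X → Set (ℕ → ℕ)) (hC : ∀ x, IsClosed (C x))
    (hD : ∀ x, IsClosed (D x)) (hCD : ∀ x, Disjoint (C x) (D x))
    (h : ∀ x : X, ∃ i, a i < b i ∧ x ∈ J (a i) (b i) ∧ ∀ W, IsClopen W → W ⊆ J (a i) (b i) →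
      (x ∉ W → z i W ∈ C x) ∧ (x ∈ W → z i W ∈ D x)) : False := by
  have hb : BaireSpace X := IsGδ.baireSpace_of_dense IsGδ.setOfPred_irrational dense_irrational
  have hmeag : ∀ i : ι, IsMeagre {x : X | a i < b i ∧ x ∈ J (a i) (b i) ∧
      ∀ W, IsClopen W → W ⊆ J (a i) (b i) →
      (x ∉ W → z i W ∈ C x) ∧ (x ∈ W → z i W ∈ D x)} := by
    intro i
    by_cases hp : a i < b i
    swap
    · convert! IsMeagre.empty using 1
      ext x
      simp [hp]
    have hm : IsMeagre (⋃ s : List ℕ, (Live (z i) (J (a i) (b i)) s \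
        Good (z i) (J (a i) (b i)) s)) :=
      isMeagre_iUnion fun s => isMeagre_bad (z i) (J (a i) (b i)) s
    refine hm.mono ?_
    rintro x ⟨_, hx, hW⟩
    by_contra hno
    have hgood : ∀ s, x ∈ Live (z i) (J (a i) (b i)) s → x ∈ Good (z i) (J (a i) (b i)) s := by
      intro s hs
      by_contra hn
      exact hno (mem_iUnion.2 ⟨s, hs, hn⟩)
    have hlive : x ∈ Live (z i) (J (a i) (b i)) [] :=
      ⟨a i, b i, hp, hx, subset_rfl, not_cap_top (z i) _ (isClopen_J _ _) (J_nonempty hp)⟩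
    obtain ⟨w, hw⟩ := exists_branch (z i) (J (a i) (b i)) hlive hgood
    choose U hU U' hU' hxU hxU' using hw
    have conv : ∀ V : ℕ → Set X, (∀ k, V k ∈ Fam (z i) (J (a i) (b i)) ((List.range k).map w)) →
        Tendsto (fun k => z i (V k)) atTop (𝓝 w) := by
      intro V hV
      rw [tendsto_pi_nhds]
      intro j
      apply tendsto_const_nhds.congr'
      filter_upwards [eventually_gt_atTop j] with k hk
      exact (eq_of_mem_Cyl (hV k).2.2 hk).symm
    have hwC : w ∈ C x := (hC x).mem_of_tendsto (conv U hU) (Eventually.of_forall fun k =>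
      (hW (U k) (hU k).1 (hU k).2.1).1 (hxU k))
    have hwD : w ∈ D x := (hD x).mem_of_tendsto (conv U' hU') (Eventually.of_forall fun k =>
      (hW (U' k) (hU' k).1 (hU' k).2.1).2 (hxU' k))
    exact Set.disjoint_left.1 (hCD x) hwC hwD
  have htot : IsMeagre (univ : Set X) := by
    refine (isMeagre_iUnion hmeag).mono ?_
    intro x _
    obtain ⟨i, hi⟩ := h x
    exact mem_iUnion.2 ⟨i, hi⟩
  exact not_isMeagre_of_isOpen isOpen_univ ⟨⟨√2, irrational_sqrt_two⟩, mem_univ _⟩ htot

/-- the metrizable space receiving a closed copy of the irrationals -/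
abbrev M : Type := ℝ × (ℚ → ℝ)

/-- closed copy of the irrationals -/
def c (x : X) : M := (x.1, fun q => 1 / (x.1 - q))

lemma sub_ne (x : X) (q : ℚ) : x.1 - (q : ℝ) ≠ 0 := sub_ne_zero.2 (ne_rat x q)

lemma continuous_c : Continuous c := by
  refine continuous_subtype_val.prodMk (continuous_pi fun q => ?_)
  exact continuous_const.div (continuous_subtype_val.sub continuous_const) (fun x => sub_ne x q)

lemma c_injective : Function.Injective c := fun _ _ h => Subtype.ext (congrArg Prod.fst h)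

lemma range_c : range c = {m : M | ∀ q : ℚ, (m.1 - q) * m.2 q = 1} := by
  ext m
  constructor
  · rintro ⟨x, rfl⟩ q
    exact mul_one_div_cancel (sub_ne x q)
  · intro hm
    have hirr : Irrational m.1 := by
      rintro ⟨q, hq⟩
      have := hm q
      rw [← hq] at this
      simp at this
    refine ⟨⟨m.1, hirr⟩, ?_⟩
    refine Prod.ext rfl ?_
    funext q
    show 1 / (m.1 - (q : ℝ)) = m.2 q
    have h1 := hm q
    have h2 : m.1 - (q : ℝ) ≠ 0 := left_ne_zero_of_mul_eq_one h1
    field_simp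
    linarith

/-- `c` maps relatively closed sets to closed sets -/
lemma isClosed_image_c {W : Set X} (hW : IsClosed W) : IsClosed (c '' W) := by
  obtain ⟨V, hV, rfl⟩ := isClosed_induced_iff.1 hW
  have : c '' (Subtype.val ⁻¹' V) = {m : M | ∀ q : ℚ, (m.1 - q) * m.2 q = 1} ∩
      {m : M | m.1 ∈ V} := by
    rw [← range_c]
    ext m
    constructor
    · rintro ⟨x, hx, rfl⟩
      exact ⟨mem_range_self x, hx⟩
    · rintro ⟨⟨x, rfl⟩, hx⟩
      exact ⟨x, hx, rfl⟩
  rw [this]
  have h1 : IsClosed {m : M | ∀ q : ℚ, (m.1 - q) * m.2 q = 1} := by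
    have : {m : M | ∀ q : ℚ, (m.1 - q) * m.2 q = 1} = ⋂ q : ℚ, {m : M | (m.1 - q) * m.2 q = 1} := by
      ext m
      simp
    rw [this]
    exact isClosed_iInter fun q => isClosed_eq
      ((continuous_fst.sub continuous_const).mul ((continuous_apply q).comp continuous_snd))
      continuous_const
  exact h1.inter (hV.preimage continuous_fst)

/-- Urysohn functions -/
lemma exists_ury {B : Set M} (hB : IsOpen B) {W : Set X} (hW : IsClopen W)
    (hWB : W ⊆ c ⁻¹' B) : ∃ g : M → ℝ, Continuous g ∧ (∀ x ∈ W, g (c x) = 1) ∧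
      (∀ x ∉ W, g (c x) = 0) ∧ ∀ m ∉ B, g m = 0 := by
  let _ := TopologicalSpace.upgradeIsCompletelyMetrizable M
  have hs : IsClosed (c '' Wᶜ ∪ Bᶜ) := (isClosed_image_c hW.compl.1).union hB.isClosed_compl
  have ht : IsClosed (c '' W) := isClosed_image_c hW.1
  have hd : Disjoint (c '' Wᶜ ∪ Bᶜ) (c '' W) := by
    rw [Set.disjoint_left]
    rintro m (⟨x, hx, rfl⟩ | hm) ⟨y, hy, hxy⟩
    · exact hx (c_injective hxy ▸ hy)
    · exact hm (hxy ▸ hWB hy)
  obtain ⟨g, hg0, hg1, _⟩ := exists_continuous_zero_one_of_isClosed hs ht hd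
  refine ⟨g, g.continuous, ?_, ?_, ?_⟩
  · intro x hx
    exact hg1 (mem_image_of_mem c hx)
  · intro x hx
    exact hg0 (Or.inl (mem_image_of_mem c hx))
  · intro m hm
    exact hg0 (Or.inr hm)

/-- the function space over the irrationals -/
abbrev S : Type := {f : X → ℝ // Continuous f}

/-- an irrational point in `(n, n + 1)` -/
lemma exists_xn (n : ℕ) : ∃ x : X, (n : ℝ) < x.1 ∧ x.1 < n + 1 := by
  obtain ⟨x, hx, h1, h2⟩ := exists_irrational_btwn (show (n : ℝ) < n + 1 by linarith)
  exact ⟨⟨x, hx⟩, h1, h2⟩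

def xn (n : ℕ) : X := (exists_xn n).choose

lemma floor_xn (n : ℕ) : ⌊(xn n).1⌋₊ = n := by
  have h := (exists_xn n).choose_spec
  exact (Nat.floor_eq_iff ((Nat.cast_nonneg n).trans h.1.le)).2 ⟨h.1.le, h.2⟩

def proj (f : S) : M := (f.1 (xn 0), fun q => f.1 (xn (Encodable.encode q + 1)))

lemma continuous_proj : Continuous proj := by
  refine Continuous.prodMk ((continuous_apply _).comp continuous_subtype_val)
    (continuous_pi fun q => (continuous_apply _).comp continuous_subtype_val)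

lemma locally_const_floor (v : ℕ → ℝ) : Continuous (fun x : X => v ⌊x.1⌋₊) := by
  rw [continuous_iff_continuousAt]
  intro x
  have hev : ∀ᶠ y : X in 𝓝 x, v ⌊y.1⌋₊ = v ⌊x.1⌋₊ := by
    rcases lt_or_ge x.1 0 with hx | hx
    · have : ∀ᶠ y : X in 𝓝 x, y.1 < 0 :=
        (isOpen_lt continuous_subtype_val continuous_const).mem_nhds hx
      filter_upwards [this] with y hy
      rw [Nat.floor_of_nonpos hy.le, Nat.floor_of_nonpos hx.le]
    · set n := ⌊x.1⌋₊ with hn
      have h1 : (n : ℝ) ≤ x.1 := Nat.floor_le hx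
      have h2 : x.1 < n + 1 := Nat.lt_floor_add_one x.1
      have h3 : (n : ℝ) < x.1 := lt_of_le_of_ne h1 (fun h => ne_rat x n (by rw [← h]; simp))
      have : ∀ᶠ y : X in 𝓝 x, (n : ℝ) < y.1 ∧ y.1 < n + 1 :=
        ((isOpen_lt continuous_const continuous_subtype_val).inter
          (isOpen_lt continuous_subtype_val continuous_const)).mem_nhds ⟨h3, h2⟩
      filter_upwards [this] with y hy
      rw [(Nat.floor_eq_iff ((Nat.cast_nonneg n).trans hy.1.le)).2 ⟨hy.1.le, hy.2⟩]
  exact (continuousAt_const.congr (hev.mono fun y hy => hy.symm))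

lemma proj_surjective : Function.Surjective proj := by
  intro m
  let v : ℕ → ℝ := fun n => Nat.casesOn n m.1
    (fun k => match Encodable.decode (α := ℚ) k with | some q => m.2 q | none => 0)
  refine ⟨⟨fun x => v ⌊x.1⌋₊, locally_const_floor v⟩, ?_⟩
  refine Prod.ext ?_ ?_
  · show v ⌊(xn 0).1⌋₊ = m.1
    rw [floor_xn]
    rfl
  · funext q
    show v ⌊(xn (Encodable.encode q + 1)).1⌋₊ = m.2 q
    rw [floor_xn]
    show (match Encodable.decode (α := ℚ) (Encodable.encode q) with | some q => m.2 q | none => 0)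
      = m.2 q
    rw [Encodable.encodek]

end Pool.Agent.Helper212.Cosmic
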