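import Mathlib
import Pool.Agent.Helper212.Tree

open MeasureTheory Set Filter
open scoped Topology

namespace Pool.Agent.Helper212.Sq

/-- universal analytic relation on Baire space -/
def Wu (c y : ℕ → ℕ) : Prop := ∃ z : ℕ → ℕ, ∀ n, c (Encodable.encode (br y n, br z n)) = 1

theorem ext_iff_br (z : ℕ → ℕ) (y : ℕ → ℕ) (n : ℕ) : Ext z (br y n) ↔ ∀ m < n, z m = y m := by
  constructor
  · intro h m hm
    exact ext_agree h (ext_br y n) m (by rw [br_length]; exact hm)
  · intro h
    exact ext_congr (z := y) (fun m hm => by rw [br_length] at hm; exact (h m hm).symm) (ext_br y n)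

theorem universal (A : Set (ℕ → ℕ)) (hA : AnalyticSet A) : ∃ c : ℕ → ℕ, ∀ y, y ∈ A ↔ Wu c y := by
  classical
  rw [AnalyticSet] at hA
  rcases hA with h | ⟨g, hg, hrange⟩
  · subst h
    refine ⟨fun _ => 0, fun y => ⟨fun h => h.elim, ?_⟩⟩
    rintro ⟨z, hz⟩
    exact absurd (hz 0) (by simp)
  · refine ⟨fun k => if ∃ p : List ℕ × List ℕ, Encodable.encode p = k ∧ ∃ w, Ext w p.2 ∧ Ext (g w) p.1
      then 1 else 0, fun y => ⟨?_, ?_⟩⟩
    · intro hy
      rw [← hrange] at hy
      obtain ⟨z, rfl⟩ := hy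
      refine ⟨z, fun n => if_pos ⟨_, rfl, z, ext_br z n, ext_br (g z) n⟩⟩
    · rintro ⟨z, hz⟩
      have h1 : ∀ n, ∃ w, Ext w (br z n) ∧ Ext (g w) (br y n) := by
        intro n
        have h2 := hz n
        by_contra hne
        have h3 : ¬ ∃ p : List ℕ × List ℕ, Encodable.encode p = Encodable.encode (br y n, br z n) ∧
            ∃ w, Ext w p.2 ∧ Ext (g w) p.1 := by
          rintro ⟨p, hp, w, hw⟩
          rw [Encodable.encode_inj] at hp
          subst hp
          exact hne ⟨w, hw⟩
        have h4 : (if ∃ p : List ℕ × List ℕ, Encodable.encode p = Encodable.encode (br y n, br z n) ∧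
            ∃ w, Ext w p.2 ∧ Ext (g w) p.1 then 1 else 0) = 1 := h2
        rw [if_neg h3] at h4
        exact absurd h4 (by norm_num)
      choose w hw1 hw2 using h1
      have hlim : Tendsto w atTop (𝓝 z) := by
        rw [tendsto_pi_nhds]
        intro n
        refine tendsto_const_nhds.congr' ?_
        filter_upwards [eventually_gt_atTop n] with k hk
        exact ((ext_iff_br _ _ _).1 (hw1 k) n hk).symm
      have hg' := (hg.tendsto z).comp hlim
      rw [tendsto_pi_nhds] at hg'
      rw [← hrange]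
      refine ⟨z, ?_⟩
      funext n
      have h4 : Tendsto (fun k => g (w k) n) atTop (𝓝 (y n)) := by
        refine tendsto_const_nhds.congr' ?_
        filter_upwards [eventually_gt_atTop n] with k hk
        exact ((ext_iff_br _ _ _).1 (hw2 k) n hk).symm
      exact tendsto_nhds_unique (hg' n) h4

theorem measurable_br (n : ℕ) (s : List ℕ) : MeasurableSet {y : ℕ → ℕ | br y n = s} := by
  induction n generalizing s with
  | zero =>
    have : {y : ℕ → ℕ | br y 0 = s} = {_y | [] = s} := rfl
    rw [this]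
    exact MeasurableSet.const _
  | succ n ih =>
    rcases s with _ | ⟨i, s⟩
    · simp [br]
    · have : {y : ℕ → ℕ | br y (n + 1) = i :: s} = (fun y : ℕ → ℕ => y n) ⁻¹' {i} ∩ {y | br y n = s} := by
        ext y; simp [br]
      rw [this]
      exact (measurable_pi_apply n (measurableSet_singleton i)).inter (ih s)

/-- There is an analytic subset of Baire space that is not Borel. -/
theorem exists_analytic_not_measurable : ∃ D : Set (ℕ → ℕ), AnalyticSet D ∧ ¬ MeasurableSet D := by
  refine ⟨{y | Wu y y}, ?_, ?_⟩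
  · have hm : MeasurableSet {p : (ℕ → ℕ) × (ℕ → ℕ) | ∀ n, p.1 (Encodable.encode (br p.1 n, br p.2 n)) = 1} := by
      have : {p : (ℕ → ℕ) × (ℕ → ℕ) | ∀ n, p.1 (Encodable.encode (br p.1 n, br p.2 n)) = 1}
          = ⋂ n, ⋃ q : List ℕ × List ℕ, (Prod.fst ⁻¹' {y | br y n = q.1}) ∩
            (Prod.snd ⁻¹' {z | br z n = q.2}) ∩ (Prod.fst ⁻¹' ((fun y => y (Encodable.encode q)) ⁻¹' {1})) := by
        ext p
        simp only [mem_ofPred_eq, mem_iInter, mem_iUnion, mem_inter_iff, mem_preimage, mem_singleton_iff]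
        refine forall_congr' fun n => ⟨fun h => ⟨(br p.1 n, br p.2 n), ⟨rfl, rfl⟩, h⟩, ?_⟩
        rintro ⟨⟨a, b⟩, ⟨h1, h2⟩, h3⟩
        simp only at h1 h2
        rw [h1, h2]; exact h3
      rw [this]
      refine MeasurableSet.iInter fun n => MeasurableSet.iUnion fun q => ?_
      exact ((measurable_fst (measurable_br n q.1)).inter (measurable_snd (measurable_br n q.2))).inter
        (measurable_fst (measurable_pi_apply _ (measurableSet_singleton 1)))
    have h2 : {y : ℕ → ℕ | Wu y y} = Prod.fst ''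
        {p : (ℕ → ℕ) × (ℕ → ℕ) | ∀ n, p.1 (Encodable.encode (br p.1 n, br p.2 n)) = 1} := by
      ext y
      constructor
      · rintro ⟨z, hz⟩
        exact ⟨(y, z), hz, rfl⟩
      · rintro ⟨⟨y', z⟩, hz, rfl⟩
        exact ⟨z, hz⟩
    rw [h2]
    exact hm.analyticSet.image_of_continuous continuous_fst
  · intro hm
    obtain ⟨c, hc⟩ := universal _ hm.compl.analyticSet
    have := hc c
    simp only [mem_compl_iff, mem_ofPred_eq] at this
    tauto

end Pool.Agent.Helper212.Sq
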