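import Mathlib
import Pool.Agent.Helper212.Analytic
import Pool.Agent.Helper212.Cont
import Pool.Agent.Helper212.Tree

open MeasureTheory Set Filter
open scoped Topology ComplexConjugate

namespace Pool.Agent.Helper212.Sq

/-- transport of the system to the unit interval -/
noncomputable def TU (e : XX ≃ᵐ unitInterval) (τ : Tr) : unitInterval ≃ᵐ unitInterval :=
  e.symm.trans ((TE τ).trans e)

theorem TU_apply (e : XX ≃ᵐ unitInterval) (τ : Tr) (u : unitInterval) :
    TU e τ u = e (TT τ (e.symm u)) := rfl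

theorem mp_TU (e : XX ≃ᵐ unitInterval) (he : MeasurePreserving e mu volume) (τ : Tr) :
    MeasurePreserving (TU e τ) volume volume :=
  he.comp ((mp_TT τ).comp (he.symm e))

theorem code_TU (e : XX ≃ᵐ unitInterval) (he : MeasurePreserving e mu volume) (τ : Tr)
    (p : (ℚ × ℚ) × (ℚ × ℚ)) :
    code (TU e τ) p = (mu ((TT τ) ⁻¹' (e ⁻¹' qI p.1) ∩ (e ⁻¹' qI p.2))).toReal := by
  unfold code
  congr 1
  have hm : MeasurableSet ((TU e τ) ⁻¹' qI p.1 ∩ qI p.2) :=
    ((TU e τ).measurable (measurableSet_qI _)).inter (measurableSet_qI _)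
  rw [← he.measure_preimage hm.nullMeasurableSet]
  congr 1
  ext x
  show (e (TT τ (e.symm (e x))) ∈ qI p.1 ∧ e x ∈ qI p.2) ↔ (e (TT τ x) ∈ qI p.1 ∧ e x ∈ qI p.2)
  rw [e.symm_apply_apply]

theorem continuous_code_TU (e : XX ≃ᵐ unitInterval) (he : MeasurePreserving e mu volume) :
    Continuous fun τ : Tr => code (TU e τ) := by
  refine continuous_pi fun p => ?_
  simp only [code_TU e he]
  exact continuous_meas _ _ (e.measurable (measurableSet_qI _))

theorem main :
    AnalyticSet {c : (ℚ × ℚ) × (ℚ × ℚ) → ℝ | ∃ S : unitInterval ≃ᵐ unitInterval,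
      MeasurePreserving S volume volume ∧ c = code (S.trans S)} ∧
    ∀ B : Set (ℕ → ℕ), AnalyticSet B →
      ∃ f : (ℕ → ℕ) → ((ℚ × ℚ) × (ℚ × ℚ) → ℝ), Continuous f ∧
        (∀ y : ℕ → ℕ, ∃ T : unitInterval ≃ᵐ unitInterval,
          MeasurePreserving T volume volume ∧ f y = code T) ∧
        ∀ y : ℕ → ℕ, (y ∈ B ↔ ∃ S : unitInterval ≃ᵐ unitInterval,
          MeasurePreserving S volume volume ∧ f y = code (S.trans S)) := by
  refine ⟨analytic_squares, fun B hB => ?_⟩
  obtain ⟨e, he⟩ := exists_mp_equiv mu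
  obtain ⟨θ, hθ, h1, h2⟩ := exists_tree B hB
  refine ⟨fun y => code (TU e (θ y)), (continuous_code_TU e he).comp hθ,
    fun y => ⟨TU e (θ y), mp_TU e he _, rfl⟩, fun y => ⟨fun hy => ?_, ?_⟩⟩
  · obtain ⟨b, hb⟩ := h1 y hy
    refine ⟨e.symm.trans ((SE (θ y) b hb).trans e),
      he.comp ((mp_SS (θ y) b).comp (he.symm e)), ?_⟩
    have : (TU e (θ y) : unitInterval → unitInterval)
        = ((e.symm.trans ((SE (θ y) b hb).trans e)).trans (e.symm.trans ((SE (θ y) b hb).trans e))) := by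
      funext u
      show e (TT (θ y) (e.symm u)) = e (SS (θ y) b (e.symm (e (SS (θ y) b (e.symm u)))))
      rw [e.symm_apply_apply, SS_SS (θ y) b hb]
    show code (TU e (θ y)) = _
    rw [this]
  · rintro ⟨S, hS, hc⟩
    refine h2 y ?_
    have hae : ∀ᵐ u : unitInterval, TU e (θ y) u = (S.trans S) u :=
      code_ae_eq (TU e (θ y)).measurable (S.trans S).measurable hc
    refine noroot (θ y) (fun x => e.symm (S (e x))) ((he.symm e).comp (hS.comp he)) ?_
    have h3 : ∀ᵐ x ∂mu, TU e (θ y) (e x) = (S.trans S) (e x) := he.quasiMeasurePreserving.ae hae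
    filter_upwards [h3] with x hx
    have h4 : e (TT (θ y) (e.symm (e x))) = S (S (e x)) := hx
    rw [e.apply_symm_apply, ← h4, e.symm_apply_apply, e.symm_apply_apply]

end Pool.Agent.Helper212.Sq
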